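import Pool.Agent.Lib.MP_69b5dd_co.BertiniField
import Mathlib

/-!
# Module BERTINI, commutative algebra

By helper27.
-/

open Polynomial TensorProduct
open scoped nonZeroDivisors

universe u

namespace IdealChomp

namespace BertiniMod

/-- primitive elements which are integral -/
lemma exists_primitive (Λ S : Type u) [CommRing Λ] [IsDomain Λ] [IsIntegrallyClosed Λ]
    [CharZero Λ] [CommRing S] [IsDomain S] [Algebra Λ S] [Module.Free Λ S] [Module.Finite Λ S] :
    ∃ (θ : S) (A : Λ[X]), A.Monic ∧ A.natDegree = Module.finrank Λ S ∧ aeval θ A = 0 ∧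
      Irreducible (A.map (algebraMap Λ (FractionRing Λ))) := by
  have hfs : FaithfulSMul Λ S := inferInstance
  let k := FractionRing Λ
  let L := FractionRing S
  let : Algebra k L := FractionRing.liftAlgebra Λ L
  have : IsScalarTower Λ k L := FractionRing.isScalarTower_liftAlgebra Λ L
  have : Algebra.IsAlgebraic Λ S := Algebra.IsIntegral.isAlgebraic
  have hloc : IsLocalization (Algebra.algebraMapSubmonoid S Λ⁰) L := inferInstance
  have : FiniteDimensional k L := .of_isLocalization Λ S Λ⁰
  have : CharZero k := charZero_of_injective_algebraMap (IsFractionRing.injective Λ k)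
  obtain ⟨α, hα⟩ := Field.exists_primitive_element k L
  obtain ⟨θ, ⟨_, ⟨l, hl, rfl⟩⟩, hθ⟩ := IsLocalization.exists_mk'_eq
    (Algebra.algebraMapSubmonoid S Λ⁰) α
  have hl0 : (algebraMap Λ k l) ≠ 0 :=
    IsFractionRing.to_map_ne_zero_of_mem_nonZeroDivisors hl
  have hθ' : algebraMap S L θ = algebraMap k L (algebraMap Λ k l) * α := by
    rw [← hθ, ← IsScalarTower.algebraMap_apply, IsScalarTower.algebraMap_apply Λ S L]
    exact (IsLocalization.mk'_spec' _ _ _).symm
  have htop : IntermediateField.adjoin k {algebraMap S L θ} = ⊤ := by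
    rw [eq_top_iff, ← hα, IntermediateField.adjoin_simple_le_iff]
    have h1 : α = algebraMap k L (algebraMap Λ k l)⁻¹ * algebraMap S L θ := by
      rw [hθ', ← mul_assoc, ← map_mul, inv_mul_cancel₀ hl0, map_one, one_mul]
    rw [h1]
    exact mul_mem (IntermediateField.algebraMap_mem _ _) (IntermediateField.mem_adjoin_simple_self _ _)
  have hint : IsIntegral Λ θ := Algebra.IsIntegral.isIntegral θ
  have hmin := minpoly.isIntegrallyClosed_eq_field_fractions k L hint
  refine ⟨θ, minpoly Λ θ, minpoly.monic hint, ?_, minpoly.aeval Λ θ, ?_⟩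
  · rw [← IsFractionRing.finrank_eq Λ k S L, ← IntermediateField.finrank_top' (F := k) (E := L),
      ← htop, IntermediateField.adjoin.finrank (Algebra.IsIntegral.isIntegral _), hmin,
      (minpoly.monic hint).natDegree_map]
  · rw [← hmin]
    exact minpoly.irreducible (Algebra.IsIntegral.isIntegral _)

/-- specializations of a separable polynomial -/
lemma exists_disc {Λ : Type u} [CommRing Λ] [IsDomain Λ] [CharZero Λ] {A : Λ[X]}
    (hirr : Irreducible (A.map (algebraMap Λ (FractionRing Λ)))) :
    ∃ δ : Λ, δ ≠ 0 ∧ ∀ (K : Type u) [Field K] (h : Λ →+* K), h δ ≠ 0 → (A.map h).Separable := by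
  let k := FractionRing Λ
  have : CharZero k := charZero_of_injective_algebraMap (IsFractionRing.injective Λ k)
  have hsep : (A.map (algebraMap Λ k)).Separable := hirr.separable
  obtain ⟨u, w, huw⟩ := hsep
  obtain ⟨b₁, hb₁, h₁⟩ := IsLocalization.integerNormalization_spec Λ⁰ u
  obtain ⟨b₂, hb₂, h₂⟩ := IsLocalization.integerNormalization_spec Λ⁰ w
  set u' := IsLocalization.integerNormalization Λ⁰ u
  set w' := IsLocalization.integerNormalization Λ⁰ w
  refine ⟨b₁ * b₂, mul_ne_zero (nonZeroDivisors.ne_zero hb₁) (nonZeroDivisors.ne_zero hb₂), ?_⟩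
  have hid : C b₂ * u' * A + C b₁ * w' * A.derivative = C (b₁ * b₂) := by
    apply Polynomial.map_injective (algebraMap Λ k) (IsFractionRing.injective Λ k)
    simp only [Polynomial.map_add, Polynomial.map_mul, map_C]
    rw [h₁, h₂, ← derivative_map]
    have e1 : ∀ (b : Λ) (q : k[X]), b • q = C (algebraMap Λ k b) * q := by
      intro b q
      rw [← smul_eq_C_mul, algebraMap_smul]
    rw [e1, e1, map_mul, C_mul]
    linear_combination (C (algebraMap Λ k b₁) * C (algebraMap Λ k b₂)) * huw
  intro K _ h hδ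
  have hid' := congrArg (Polynomial.map h) hid
  simp only [Polynomial.map_add, Polynomial.map_mul, map_C] at hid'
  refine ⟨C (h (b₁ * b₂))⁻¹ * (C (h b₂) * u'.map h), C (h (b₁ * b₂))⁻¹ * (C (h b₁) * w'.map h), ?_⟩
  rw [derivative_map]
  calc _ = C (h (b₁ * b₂))⁻¹ * (C (h b₂) * u'.map h * A.map h +
        C (h b₁) * w'.map h * A.derivative.map h) := by ring
    _ = C (h (b₁ * b₂))⁻¹ * C (h (b₁ * b₂)) := by rw [hid', map_mul]
    _ = 1 := by rw [← C_mul, inv_mul_cancel₀ hδ, C_1]

/-- the primality criterion -/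
lemma isPrime_of_irreducible {Λ S Q : Type u} [CommRing Λ] [CommRing S] [Algebra Λ S]
    [Module.Free Λ S] [Module.Finite Λ S] [Field Q] (φ : Λ →+* Q) (x : Λ)
    (hker : ∀ ν, φ ν = 0 ↔ x ∣ ν) (θ : S) (A : Λ[X]) (hA : A.Monic) (hroot : aeval θ A = 0)
    (hdeg : A.natDegree = Module.finrank Λ S) (hirr : Irreducible (A.map φ)) :
    (Ideal.span {algebraMap Λ S x}).IsPrime := by
  let : Algebra Λ Q := φ.toAlgebra
  have hφ : algebraMap Λ Q = φ := rfl
  have : Nontrivial Λ := φ.domain_nontrivial
  let W := Q ⊗[Λ] S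
  have hrank : Module.finrank Q W = Module.finrank Λ S := Module.finrank_baseChange
  have hpos : 0 < Module.finrank Q W := by
    rw [hrank, ← hdeg, ← hA.natDegree_map φ]
    exact hirr.natDegree_pos
  have : Nontrivial W := Module.nontrivial_of_finrank_pos hpos
  have hroot' : aeval ((1 : Q) ⊗ₜ[Λ] θ : W) (A.map φ) = 0 := by
    rw [← hφ, aeval_map_algebraMap]
    have : ((1 : Q) ⊗ₜ[Λ] θ : W) = (Algebra.TensorProduct.includeRight : S →ₐ[Λ] W) θ := rfl
    rw [this, aeval_algHom_apply, hroot, map_zero]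
  have hdom : IsDomain W := isDomain_of_root hirr (by rw [hrank, hA.natDegree_map, hdeg]) _ hroot'
  let ι : S →+* W := (Algebra.TensorProduct.includeRight : S →ₐ[Λ] W).toRingHom
  have hker' : RingHom.ker ι = Ideal.span {algebraMap Λ S x} := by
    ext y
    rw [RingHom.mem_ker, Ideal.mem_span_singleton]
    have hy : ι y = (1 : Q) ⊗ₜ[Λ] y := rfl
    rw [hy]
    constructor
    · intro h
      let b := Module.Free.chooseBasis Λ S
      have h1 : ∀ i, x ∣ b.repr y i := by
        intro i
        have h2 := congrArg (fun z => (Algebra.TensorProduct.basis Q b).repr z i) h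
        simp only [Algebra.TensorProduct.basis_repr_tmul, one_smul, Finsupp.mapRange_apply,
          map_zero, Finsupp.coe_zero, Pi.zero_apply] at h2
        exact (hker _).1 h2
      choose c hc using h1
      refine ⟨∑ i, c i • b i, ?_⟩
      rw [← b.sum_repr y, Finset.mul_sum]
      apply Finset.sum_congr rfl
      intro i _
      rw [hc i, mul_smul, Algebra.smul_def x]
    · rintro ⟨z, rfl⟩
      have h1 : ((1 : Q) ⊗ₜ[Λ] (algebraMap Λ S x * z) : W) = (φ x) ⊗ₜ[Λ] z := by
        rw [← Algebra.smul_def, ← TensorProduct.smul_tmul, Algebra.smul_def, mul_one, hφ]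
      rw [h1, (hker x).2 dvd_rfl, TensorProduct.zero_tmul]
  rw [← hker']
  exact RingHom.ker_isPrime ι

end BertiniMod

end IdealChomp
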