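import Pool.Agent.Lib.MP_69b5dd_co.Defs
import Mathlib

/-!
# Module SPEC: specialization of an irreducible polynomial

By helper27.
-/

open Polynomial
open scoped Polynomial.Bivariate

universe u

namespace IdealChomp

namespace SpecMod

/-- a monic polynomial over a domain with as many distinct roots as its degree -/
lemma prod_eq_of_roots {A : Type*} [CommRing A] [IsDomain A] {ι : Type*} [Fintype ι]
    {P : A[X]} (hP : P.Monic) {τ : ι → A} (hτ : Function.Injective τ)
    (hroot : ∀ i, P.IsRoot (τ i)) (hcard : Fintype.card ι = P.natDegree) :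
    P = ∏ i, (X - C (τ i)) := by
  classical
  have h1 : ((Finset.univ.val.map τ).map fun a => X - C a).prod ∣ P := by
    rw [Multiset.prod_X_sub_C_dvd_iff_le_roots hP.ne_zero]
    rw [Multiset.le_iff_subset (Multiset.Nodup.map hτ Finset.univ.nodup)]
    intro a ha
    obtain ⟨i, -, rfl⟩ := Multiset.mem_map.1 ha
    exact (mem_roots hP.ne_zero).2 (hroot i)
  have h2 : ((Finset.univ.val.map τ).map fun a => X - C a).prod = ∏ i, (X - C (τ i)) := by
    rw [Multiset.map_map]
    rfl
  rw [h2] at h1
  have hm : (∏ i, (X - C (τ i))).Monic := monic_prod_of_monic _ _ fun i _ => monic_X_sub_C _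
  have hd : (∏ i, (X - C (τ i))).natDegree = Fintype.card ι := by
    rw [natDegree_prod_of_monic _ _ fun i _ => monic_X_sub_C _]
    simp
  exact eq_of_monic_of_dvd_of_natDegree_le hm hP h1 (by rw [hd, hcard])

/-- monic factors of a product of distinct linear factors -/
lemma factor_eq {A : Type*} [CommRing A] [IsDomain A] {ι : Type*} [Fintype ι] [DecidableEq ι]
    {τ : ι → A} (hτ : Function.Injective τ) {f g : A[X]} (hf : f.Monic) (hg : g.Monic)
    (hfg : f * g = ∏ i, (X - C (τ i))) :
    ∃ I : Finset ι, f = ∏ i ∈ I, (X - C (τ i)) ∧ g = ∏ i ∈ Iᶜ, (X - C (τ i)) := by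
  classical
  have hroots : (f * g).roots = Finset.univ.val.map τ := by
    have h2 : ∏ i, (X - C (τ i)) = ((Finset.univ.val.map τ).map fun a => X - C a).prod := by
      rw [Multiset.map_map]
      rfl
    rw [hfg, h2, roots_multiset_prod_X_sub_C]
  have hne : f * g ≠ 0 := mul_ne_zero hf.ne_zero hg.ne_zero
  have hcard : Multiset.card f.roots + Multiset.card g.roots = f.natDegree + g.natDegree := by
    have h3 := congrArg Multiset.card hroots
    rw [roots_mul hne, Multiset.card_add, Multiset.card_map] at h3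
    rw [h3, ← hf.natDegree_mul hg, hfg, natDegree_prod_of_monic _ _ fun i _ => monic_X_sub_C _]
    simp
  have h4 := card_roots' f
  have h5 := card_roots' g
  have h6 : Multiset.card f.roots = f.natDegree := by omega
  have h7 := prod_multiset_X_sub_C_of_monic_of_roots_card_eq hf h6
  let I : Finset ι := Finset.univ.filter fun i => f.IsRoot (τ i)
  have hnodup : (Finset.univ.val.map τ).Nodup := Multiset.Nodup.map hτ Finset.univ.nodup
  have hle : f.roots ≤ Finset.univ.val.map τ := by
    rw [← hroots, roots_mul hne]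
    exact Multiset.le_add_right _ _
  have h8 : f.roots = I.val.map τ := by
    apply (Multiset.Nodup.ext (Multiset.nodup_of_le hle hnodup)
      (Multiset.Nodup.map hτ I.nodup)).2
    intro a
    constructor
    · intro ha
      obtain ⟨i, -, rfl⟩ := Multiset.mem_map.1 (Multiset.mem_of_le hle ha)
      refine Multiset.mem_map.2 ⟨i, ?_, rfl⟩
      exact Finset.mem_def.1 (Finset.mem_filter.2 ⟨Finset.mem_univ _, (mem_roots hf.ne_zero).1 ha⟩)
    · intro ha
      obtain ⟨i, hi, rfl⟩ := Multiset.mem_map.1 ha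
      exact (mem_roots hf.ne_zero).2 (Finset.mem_filter.1 (Finset.mem_def.2 hi)).2
  have h9 : f = ∏ i ∈ I, (X - C (τ i)) := by
    rw [← h7, h8, Multiset.map_map]
    rfl
  refine ⟨I, h9, ?_⟩
  have h10 : (∏ i ∈ I, (X - C (τ i))) * ∏ i ∈ Iᶜ, (X - C (τ i)) = ∏ i, (X - C (τ i)) :=
    Finset.prod_mul_prod_compl _ _
  rw [← hfg, ← h9] at h10
  exact (mul_left_cancel₀ hf.ne_zero h10).symm

/-- Hensel lifting of simple roots to power series -/
lemma exists_lift_root {R : Type*} [CommRing R] {P : (PowerSeries R)[X]} (hP : P.Monic) (t : R)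
    (h0 : PowerSeries.constantCoeff (P.eval (PowerSeries.C t)) = 0)
    (h1 : IsUnit (PowerSeries.constantCoeff (P.derivative.eval (PowerSeries.C t)))) :
    ∃ τ : PowerSeries R, P.IsRoot τ ∧ PowerSeries.constantCoeff τ = t := by
  have h2 : P.eval (PowerSeries.C t) ∈ Ideal.span {(PowerSeries.X : PowerSeries R)} := by
    rw [Ideal.mem_span_singleton, PowerSeries.X_dvd_iff]
    exact h0
  have h3 : IsUnit (Ideal.Quotient.mk (Ideal.span {(PowerSeries.X : PowerSeries R)})
      (P.derivative.eval (PowerSeries.C t))) :=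
    (PowerSeries.isUnit_iff_constantCoeff.2 h1).map _
  obtain ⟨τ, hτ, hτ'⟩ := HenselianRing.is_henselian P hP (PowerSeries.C t) h2 h3
  refine ⟨τ, hτ, ?_⟩
  rw [Ideal.mem_span_singleton, PowerSeries.X_dvd_iff, map_sub, sub_eq_zero] at hτ'
  simpa using hτ'

section degrees

variable {K : Type*} [Field K]

lemma coeff_coeff_swap (p : K[X][X]) (j k : ℕ) :
    ((Bivariate.swap p).coeff j).coeff k = (p.coeff k).coeff j := by
  induction p using Polynomial.induction_on' with
  | add p q hp hq => simp [map_add, hp, hq]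
  | monomial n a =>
    induction a using Polynomial.induction_on' with
    | add p q hp hq => simp only [map_add, coeff_add, hp, hq]
    | monomial m r =>
      rw [Bivariate.swap_monomial_monomial]
      simp only [coeff_monomial]
      split_ifs <;> simp_all [coeff_monomial]

lemma natDegree_coeff_le_of_mul {f g : K[X][X]} (hf : f ≠ 0) (hg : g ≠ 0) {D : ℕ}
    (h : ∀ k, ((f * g).coeff k).natDegree ≤ D) (k : ℕ) : (f.coeff k).natDegree ≤ D := by
  have h1 : (Bivariate.swap (f * g)).natDegree ≤ D := by
    rw [natDegree_le_iff_coeff_eq_zero]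
    intro j hj
    ext k
    rw [coeff_coeff_swap, coeff_eq_zero_of_natDegree_lt (lt_of_le_of_lt (h k) hj), coeff_zero]
  have hf' : Bivariate.swap f ≠ 0 := (map_ne_zero_iff _ (AlgEquiv.injective _)).2 hf
  have hg' : Bivariate.swap g ≠ 0 := (map_ne_zero_iff _ (AlgEquiv.injective _)).2 hg
  rw [map_mul, natDegree_mul hf' hg'] at h1
  rw [natDegree_le_iff_coeff_eq_zero]
  intro j hj
  rw [← coeff_coeff_swap, coeff_eq_zero_of_natDegree_lt (p := Bivariate.swap f) (by omega),
    coeff_zero]

end degrees

section shift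

variable {R : Type*} [CommRing R] (r : R)

/-- expansion at `r` -/
noncomputable def shift : R[X] →+* PowerSeries R :=
  (Polynomial.coeToPowerSeries.ringHom).comp (taylorAlgHom r).toRingHom

lemma shift_apply (q : R[X]) : shift r q = ((taylor r q : R[X]) : PowerSeries R) := rfl

lemma coeff_shift (q : R[X]) (j : ℕ) :
    PowerSeries.coeff j (shift r q) = (taylor r q).coeff j := by
  rw [shift_apply, Polynomial.coeff_coe]

lemma constantCoeff_shift (q : R[X]) :
    PowerSeries.constantCoeff (shift r q) = q.eval r := by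
  rw [← PowerSeries.coeff_zero_eq_constantCoeff_apply, coeff_shift, taylor_coeff_zero]

lemma shift_injective : Function.Injective (shift r) := by
  intro p q h
  rw [shift_apply, shift_apply] at h
  exact taylor_injective r (Polynomial.coe_injective R h)

lemma mem_range_shift {a : PowerSeries R} {D : ℕ} (h : ∀ j, D < j → PowerSeries.coeff j a = 0) :
    a ∈ (shift r).range := by
  refine ⟨taylor (-r) (PowerSeries.trunc (D + 1) a), ?_⟩
  rw [shift_apply, taylor_taylor, add_neg_cancel, taylor_zero]
  ext j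
  rw [Polynomial.coeff_coe, PowerSeries.coeff_trunc]
  split_ifs with hj
  · rfl
  · rw [h j (by omega)]

lemma map_shift {S : Type*} [CommRing S] (ψ : R →+* S) (q : R[X]) :
    PowerSeries.map ψ (shift r q) = shift (ψ r) (q.map ψ) := by
  ext j
  rw [PowerSeries.coeff_map, coeff_shift, coeff_shift, ← map_taylor, coeff_map]

end shift

end SpecMod

open SpecMod

/-- Module SPEC -/
theorem spec {K : Type u} [Field K] [IsAlgClosed K] : SpecStatement K := by
  classical
  intro P s₀ P₀ hP hdeg hsep hP₀ hirr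
  -- notation
  let φ : K[X][X] →+* PowerSeries K[X] := shift (C s₀)
  let ψ : K → (K[X] →+* K) := fun μ => evalRingHom μ
  let Φ : K → (PowerSeries K[X] →+* PowerSeries K) := fun μ => PowerSeries.map (ψ μ)
  let φ₀ : K[X] →+* PowerSeries K := shift s₀
  have hcomp : ∀ μ, (Φ μ).comp φ = φ₀.comp (mapRingHom (ψ μ)) := by
    intro μ
    apply RingHom.ext
    intro q
    simp only [RingHom.comp_apply, coe_mapRingHom, Φ, φ, φ₀]
    rw [map_shift]
    simp [ψ]
  have hφinj : Function.Injective φ := shift_injective _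
  have hφ₀inj : Function.Injective φ₀ := shift_injective _
  have hcc : (PowerSeries.constantCoeff (R := K[X])).comp φ = evalRingHom (C s₀) := by
    apply RingHom.ext
    intro q
    exact constantCoeff_shift _ _
  let Phat : (PowerSeries K[X])[X] := P.map φ
  have hPhat : Phat.Monic := hP.map φ
  have hcc1 : Phat.map (PowerSeries.constantCoeff (R := K[X])) = P₀.map C := by
    rw [Polynomial.map_map, hcc]
    exact hP₀
  have hcc2 : Phat.derivative.map (PowerSeries.constantCoeff (R := K[X])) =
      P₀.derivative.map C := by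
    rw [← derivative_map, hcc1, derivative_map]
  have hP₀m : P₀.Monic := by
    have : (P₀.map (C : K →+* K[X])).Monic := by
      rw [← hcc1]
      exact hPhat.map _
    exact (Function.Injective.monic_map_iff C_injective).2 this
  have hdeg₀ : P₀.natDegree = P.natDegree := by
    have h1 := congrArg natDegree hcc1
    rw [hPhat.natDegree_map, hP.natDegree_map, natDegree_map_eq_of_injective C_injective] at h1
    exact h1.symm
  -- roots
  let ι := {t : K // t ∈ P₀.roots.toFinset}
  have hι : Fintype.card ι = P.natDegree := by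
    rw [Fintype.card_coe, Multiset.toFinset_card_of_nodup (nodup_roots hsep), ← hdeg₀]
    exact (IsAlgClosed.splits P₀).natDegree_eq_card_roots.symm
  have hroot : ∀ t : ι, P₀.IsRoot t := fun t =>
    (mem_roots hP₀m.ne_zero).1 (Multiset.mem_toFinset.1 t.2)
  have hlift : ∀ t : ι, ∃ τ : PowerSeries K[X], Phat.IsRoot τ ∧
      PowerSeries.constantCoeff τ = C (t : K) := by
    intro t
    apply exists_lift_root hPhat
    · rw [← eval₂_hom, ← eval_map, hcc1]
      have : PowerSeries.constantCoeff (PowerSeries.C (C (t : K))) = C (t : K) := by simp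
      rw [this, eval_map, eval₂_at_apply, (hroot t).eq_zero, map_zero]
    · rw [← eval₂_hom, ← eval_map, hcc2]
      have : PowerSeries.constantCoeff (PowerSeries.C (C (t : K))) = C (t : K) := by simp
      rw [this, eval_map, eval₂_at_apply, isUnit_C]
      exact isUnit_iff_ne_zero.2 (hsep.eval₂_derivative_ne_zero (RingHom.id K)
        (by rw [eval₂_id]; exact hroot t))
  choose τ hτroot hτcc using hlift
  have hτinj : Function.Injective τ := by
    intro t t' h
    apply Subtype.ext
    apply C_injective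
    rw [← hτcc t, ← hτcc t', h]
  have hprod : Phat = ∏ i, (X - C (τ i)) := by
    apply prod_eq_of_roots hPhat hτinj hτroot
    rw [hι, hP.natDegree_map]
  -- specialized roots
  let σ : K → ι → PowerSeries K := fun μ i => Φ μ (τ i)
  have hσinj : ∀ μ, Function.Injective (σ μ) := by
    intro μ t t' h
    apply Subtype.ext
    have h1 := congrArg (PowerSeries.constantCoeff (R := K)) h
    have h2 : ∀ i, PowerSeries.constantCoeff (σ μ i) = (i : K) := by
      intro i
      simp only [σ, Φ]
      rw [← PowerSeries.coeff_zero_eq_constantCoeff_apply, PowerSeries.coeff_map,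
        PowerSeries.coeff_zero_eq_constantCoeff_apply, hτcc]
      simp [ψ]
    rwa [h2, h2] at h1
  have hprodμ : ∀ μ, (P.map (mapRingHom (ψ μ))).map φ₀ = ∏ i, (X - C (σ μ i)) := by
    intro μ
    rw [Polynomial.map_map, ← hcomp, ← Polynomial.map_map]
    have : (P.map φ).map (Φ μ) = (∏ i, (X - C (τ i))).map (Φ μ) := by
      rw [← hprod]
    rw [this, Polynomial.map_prod]
    simp [σ]
  -- the bound on degrees
  let D : ℕ := Finset.sup P.support fun k => (P.coeff k).natDegree
  have hD : ∀ μ k, ((P.map (mapRingHom (ψ μ))).coeff k).natDegree ≤ D := by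
    intro μ k
    rw [coeff_map, coe_mapRingHom]
    refine natDegree_map_le.trans ?_
    by_cases hk : k ∈ P.support
    · exact Finset.le_sup (f := fun k => (P.coeff k).natDegree) hk
    · rw [notMem_support_iff.1 hk]
      simp
  by_contra hinf
  have hinf' : Set.Infinite {μ₀ : K | ¬ Irreducible (P.map (mapRingHom (evalRingHom μ₀)))} := hinf
  -- factorizations
  have hfac : ∀ μ : {μ₀ : K | ¬ Irreducible (P.map (mapRingHom (evalRingHom μ₀)))},
      ∃ (f g : K[X][X]) (I : Finset ι), f.Monic ∧ g.Monic ∧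
        (∀ k, (f.coeff k).natDegree ≤ D) ∧ (∀ k, (g.coeff k).natDegree ≤ D) ∧
        f.natDegree ≠ 0 ∧ g.natDegree ≠ 0 ∧
        f.map φ₀ = ∏ i ∈ I, (X - C (σ μ i)) ∧ g.map φ₀ = ∏ i ∈ Iᶜ, (X - C (σ μ i)) := by
    rintro ⟨μ, hμ⟩
    have hm : (P.map (mapRingHom (evalRingHom μ))).Monic := hP.map _
    have hne1 : P.map (mapRingHom (evalRingHom μ)) ≠ 1 := by
      intro h1
      have := hP.natDegree_map (mapRingHom (evalRingHom μ))
      rw [h1, natDegree_one] at this
      omega
    have hμ' : ¬ Irreducible (P.map (mapRingHom (evalRingHom μ))) := hμ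
    rw [hm.irreducible_iff_natDegree] at hμ'
    push Not at hμ'
    obtain ⟨f, g, hf, hg, hfg, hf0, hg0⟩ := hμ' hne1
    have h1 : f.map φ₀ * g.map φ₀ = ∏ i, (X - C (σ μ i)) := by
      rw [← Polynomial.map_mul, hfg]
      exact hprodμ μ
    obtain ⟨I, hI, hI'⟩ := factor_eq (hσinj μ) (hf.map φ₀) (hg.map φ₀) h1
    refine ⟨f, g, I, hf, hg, ?_, ?_, hf0, hg0, hI, hI'⟩
    · apply natDegree_coeff_le_of_mul hf.ne_zero hg.ne_zero
      rw [hfg]
      exact hD μ
    · apply natDegree_coeff_le_of_mul hg.ne_zero hf.ne_zero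
      rw [mul_comm, hfg]
      exact hD μ
  choose f g I hf hg hfD hgD hf0 hg0 hfI hgI using hfac
  have := hinf'.to_subtype
  obtain ⟨J, hJ⟩ := Finite.exists_infinite_fiber I
  -- the two factors have polynomial coefficients
  have hrange : ∀ (J' : Finset ι)
      (F : {μ₀ : K | ¬ Irreducible (P.map (mapRingHom (evalRingHom μ₀)))} → K[X][X]),
      (∀ μ k, ((F μ).coeff k).natDegree ≤ D) →
      (∀ μ ∈ I ⁻¹' {J}, (F μ).map φ₀ = ∏ i ∈ J', (X - C (σ μ i))) →
      ∀ k, (∏ i ∈ J', (X - C (τ i))).coeff k ∈ φ.range := by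
    intro J' F hFD hF k
    apply mem_range_shift (D := D)
    intro j hj
    apply eq_zero_of_infinite_isRoot
    have hinj : Function.Injective
        (fun μ : ↥(I ⁻¹' {J}) => (μ.1.1 : K)) := by
      intro a b hab
      exact Subtype.ext (Subtype.ext hab)
    apply (Set.infinite_range_of_injective hinj).mono
    rintro _ ⟨⟨μ, hμ⟩, rfl⟩
    show (PowerSeries.coeff j ((∏ i ∈ J', (X - C (τ i))).coeff k)).IsRoot (μ : K)
    have h1 : (∏ i ∈ J', (X - C (τ i))).map (Φ μ) = (F μ).map φ₀ := by
      rw [hF μ hμ, Polynomial.map_prod]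
      simp [σ]
    have h2 : (ψ μ) (PowerSeries.coeff j ((∏ i ∈ J', (X - C (τ i))).coeff k)) =
        PowerSeries.coeff j (((F μ).map φ₀).coeff k) := by
      rw [← h1, coeff_map, PowerSeries.coeff_map]
    have h3 : PowerSeries.coeff j (((F μ).map φ₀).coeff k) = 0 := by
      rw [coeff_map, coeff_shift]
      apply coeff_eq_zero_of_natDegree_lt
      rw [natDegree_taylor]
      exact lt_of_le_of_lt (hFD μ k) hj
    rw [h3] at h2
    exact h2
  have hr1 := hrange J f hfD (fun μ hμ => by
    have := hfI μ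
    rwa [show I μ = J from hμ] at this)
  have hr2 := hrange Jᶜ g hgD (fun μ hμ => by
    have := hgI μ
    rwa [show I μ = J from hμ] at this)
  have hm1 : (∏ i ∈ J, (X - C (τ i))).Monic := monic_prod_of_monic _ _ fun i _ => monic_X_sub_C _
  have hm2 : (∏ i ∈ Jᶜ, (X - C (τ i))).Monic := monic_prod_of_monic _ _ fun i _ => monic_X_sub_C _
  obtain ⟨Q₁, hQ₁, hd₁, hQ₁m⟩ := lifts_and_natDegree_eq_and_monic
    ((lifts_iff_coeff_lifts _).2 hr1) hm1
  obtain ⟨Q₂, hQ₂, hd₂, hQ₂m⟩ := lifts_and_natDegree_eq_and_monic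
    ((lifts_iff_coeff_lifts _).2 hr2) hm2
  have hPQ : P = Q₁ * Q₂ := by
    apply Polynomial.map_injective φ hφinj
    rw [Polynomial.map_mul, hQ₁, hQ₂, Finset.prod_mul_prod_compl]
    exact hprod
  obtain ⟨⟨μ, hμ⟩⟩ := (inferInstance : Nonempty ↥(I ⁻¹' {J}))
  have hIμ : I μ = J := hμ
  have hdf : (f μ).natDegree = Q₁.natDegree := by
    have h1 := congrArg natDegree (hfI μ)
    rw [(hf μ).natDegree_map, hIμ, natDegree_prod_of_monic _ _ fun i _ => monic_X_sub_C _] at h1
    rw [h1, hd₁, natDegree_prod_of_monic _ _ fun i _ => monic_X_sub_C _]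
    simp
  have hdg : (g μ).natDegree = Q₂.natDegree := by
    have h1 := congrArg natDegree (hgI μ)
    rw [(hg μ).natDegree_map, hIμ, natDegree_prod_of_monic _ _ fun i _ => monic_X_sub_C _] at h1
    rw [h1, hd₂, natDegree_prod_of_monic _ _ fun i _ => monic_X_sub_C _]
    simp
  rcases hirr Q₁ Q₂ hQ₁m hQ₂m hPQ with h1 | h1
  · exact hf0 μ (by rw [hdf, h1, natDegree_one])
  · exact hg0 μ (by rw [hdg, h1, natDegree_one])

end IdealChomp
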