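import Pool.Agent.Lib.MP_69b5dd_co.Defs
import Pool.Agent.Lib.MP_69b5dd_co.Spec
import Pool.Agent.Lib.MP_69b5dd_co.BertiniAlg
import Mathlib

/-!
# Module BERTINI

By helper27.
-/

open Polynomial TensorProduct
open scoped Polynomial.Bivariate nonZeroDivisors

universe u

namespace IdealChomp

namespace BertiniMod

lemma irreducible_scaleRoots {k : Type*} [Field k] {f : k[X]} (hf : Irreducible f) {r : k}
    (hr : r ≠ 0) : Irreducible (f.scaleRoots r) := by
  refine ⟨?_, ?_⟩
  · intro h
    rw [isUnit_iff_degree_eq_zero, degree_scaleRoots, ← isUnit_iff_degree_eq_zero] at h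
    exact hf.not_isUnit h
  · intro a b hab
    have h1 : f = a.scaleRoots r⁻¹ * b.scaleRoots r⁻¹ := by
      rw [← mul_scaleRoots_of_noZeroDivisors, ← hab, ← scaleRoots_mul, mul_inv_cancel₀ hr,
        scaleRoots_one]
    rcases hf.isUnit_or_isUnit h1 with h | h
    · left
      rwa [isUnit_iff_degree_eq_zero, degree_scaleRoots, ← isUnit_iff_degree_eq_zero] at h
    · right
      rwa [isUnit_iff_degree_eq_zero, degree_scaleRoots, ← isUnit_iff_degree_eq_zero] at h

lemma irreducible_of_scaleRoots {k : Type*} [Field k] {f : k[X]} {r : k}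
    (hr : r ≠ 0) (hf : Irreducible (f.scaleRoots r)) : Irreducible f := by
  have := irreducible_scaleRoots hf (inv_ne_zero hr)
  rwa [← scaleRoots_mul, mul_inv_cancel₀ hr, scaleRoots_one] at this

lemma separable_scaleRoots {k : Type*} [Field k] [IsAlgClosed k] {f : k[X]} (hf : f.Separable)
    {r : k} (hr : r ≠ 0) : (f.scaleRoots r).Separable := by
  rw [← nodup_roots_iff_of_splits (scaleRoots_ne_zero hf.ne_zero r) (IsAlgClosed.splits _),
    roots_scaleRoots f (isUnit_iff_ne_zero.2 hr)]
  exact (nodup_roots hf).map (mul_right_injective₀ hr)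

variable {K : Type u} [Field K]

/-- substitution -/
noncomputable def H {B' : Type u} [CommRing B'] (p : ℕ) (w : K[X][X]) (g : K[X][X] →+* B')
    (v : B') : K[X][X] →+* B' :=
  eval₂RingHom (eval₂RingHom (g.comp (C.comp C)) (g X ^ p)) (v ^ p + g w)

lemma H_CC {B' : Type u} [CommRing B'] (p : ℕ) (w : K[X][X]) (g : K[X][X] →+* B')
    (v : B') (a : K) : H p w g v (C (C a)) = g (C (C a)) := by
  simp [H]

lemma H_CX {B' : Type u} [CommRing B'] (p : ℕ) (w : K[X][X]) (g : K[X][X] →+* B')
    (v : B') : H p w g v (C X) = g X ^ p := by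
  simp [H]

lemma H_X {B' : Type u} [CommRing B'] (p : ℕ) (w : K[X][X]) (g : K[X][X] →+* B')
    (v : B') : H p w g v X = v ^ p + g w := by
  simp [H]

lemma hom_ext {B' : Type*} [CommRing B'] {f g : K[X][X] →+* B'}
    (h1 : ∀ a : K, f (C (C a)) = g (C (C a))) (h2 : f (C X) = g (C X)) (h3 : f X = g X) :
    f = g := by
  apply Polynomial.ringHom_ext' _ h3
  apply Polynomial.ringHom_ext'
  · apply RingHom.ext
    intro a
    exact h1 a
  · exact h2

abbrev Bs (K : Type u) [Field K] : Type u := Localization.Away (X : K[X][X])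

noncomputable def hs (p : ℕ) (w : K[X][X]) : K[X][X] →+* Bs K :=
  H p w (algebraMap K[X][X] (Bs K)) (IsLocalization.Away.invSelf (X : K[X][X]))

lemma lift_comp {B' : Type u} [CommRing B'] (p : ℕ) (w : K[X][X]) (g : K[X][X] →+* B')
    (v : B') (hv : g X * v = 1) :
    (IsLocalization.Away.lift (X : K[X][X]) (S := Bs K) (g := g)
      (IsUnit.of_mul_eq_one _ hv)).comp (hs p w) = H p w g v := by
  set g' := IsLocalization.Away.lift (X : K[X][X]) (S := Bs K) (g := g)
      (IsUnit.of_mul_eq_one _ hv)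
  have h1 : ∀ b, g' (algebraMap K[X][X] (Bs K) b) = g b := fun b =>
    IsLocalization.Away.lift_eq _ _ _
  have h2 : g' (IsLocalization.Away.invSelf (X : K[X][X])) = v := by
    have h3 : algebraMap K[X][X] (Bs K) X * IsLocalization.Away.invSelf (X : K[X][X]) = 1 :=
      IsLocalization.Away.mul_invSelf _
    have h4 := congrArg g' h3
    rw [map_mul, h1, map_one] at h4
    calc g' (IsLocalization.Away.invSelf (X : K[X][X]))
        = (g X * v) * g' (IsLocalization.Away.invSelf (X : K[X][X])) := by rw [hv, one_mul]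
      _ = (g X * g' (IsLocalization.Away.invSelf (X : K[X][X]))) * v := by ring
      _ = v := by rw [h4, one_mul]
  apply hom_ext
  · intro a
    rw [RingHom.comp_apply, hs, H_CC, H_CC, h1]
  · rw [RingHom.comp_apply, hs, H_CX, H_CX, map_pow, h1]
  · rw [RingHom.comp_apply, hs, H_X, H_X, map_add, map_pow, h1, h2]

lemma exists_P (A : K[X][X][X]) (hA : A.Monic) (p : ℕ) (w : K[X][X]) :
    ∃ (P : K[X][X][X]) (m : ℕ), P.Monic ∧ P.natDegree = A.natDegree ∧
      ∀ (B' : Type u) [CommRing B'] [Nontrivial B'] (g : K[X][X] →+* B') (v : B'),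
        g X * v = 1 → P.map g = (A.map (H p w g v)).scaleRoots (g X ^ m) := by
  have hlift := IsLocalization.scaleRoots_commonDenom_mem_lifts
    (Submonoid.powers (X : K[X][X])) (A.map (hs p w)) (by
      rw [(hA.map (hs p w)).leadingCoeff]
      exact one_mem _)
  set b := IsLocalization.commonDenom (Submonoid.powers (X : K[X][X]))
    (A.map (hs p w)).support (A.map (hs p w)).coeff
  obtain ⟨m, hm⟩ := b.2
  have hmonic : ((A.map (hs p w)).scaleRoots (algebraMap K[X][X] (Bs K) b)).Monic :=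
    (monic_scaleRoots_iff _).2 (hA.map _)
  obtain ⟨P, hP, hdeg, hPm⟩ := lifts_and_natDegree_eq_and_monic hlift hmonic
  refine ⟨P, m, hPm, ?_, ?_⟩
  · rw [hdeg, natDegree_scaleRoots]
    by_cases hX : (Nontrivial (Bs K))
    · exact hA.natDegree_map _
    · exfalso
      apply hX
      exact (IsLocalization.injective (Bs K) (Submonoid.powers_le.2
        (mem_nonZeroDivisors_of_ne_zero (X_ne_zero (R := K[X]))))).nontrivial
  · intro B' _ _ g v hv
    set g' := IsLocalization.Away.lift (X : K[X][X]) (S := Bs K) (g := g)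
      (IsUnit.of_mul_eq_one _ hv)
    have h1 : ∀ b, g' (algebraMap K[X][X] (Bs K) b) = g b := fun b =>
      IsLocalization.Away.lift_eq _ _ _
    have h2 : g'.comp (algebraMap K[X][X] (Bs K)) = g := RingHom.ext h1
    have h3 : g'.comp (hs p w) = H p w g v := lift_comp p w g v hv
    rw [← h2, ← Polynomial.map_map, hP, map_scaleRoots, Polynomial.map_map, h3, h1, ← hm,
      map_pow, h2]
    · rw [(hA.map (hs p w)).leadingCoeff, map_one]
      exact one_ne_zero

lemma exists_num (p : ℕ) (w : K[X][X]) (ν : K[X][X]) :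
    ∃ (q : K[X][X]) (m : ℕ), ∀ (B' : Type u) [CommRing B'] (g : K[X][X] →+* B') (v : B'),
        g X * v = 1 → H p w g v ν * (g X) ^ m = g q := by
  obtain ⟨m, q, hq⟩ := IsLocalization.Away.surj (X : K[X][X]) (hs p w ν)
  refine ⟨q, m, ?_⟩
  intro B' _ g v hv
  set g' := IsLocalization.Away.lift (X : K[X][X]) (S := Bs K) (g := g)
    (IsUnit.of_mul_eq_one _ hv)
  have h1 : ∀ b, g' (algebraMap K[X][X] (Bs K) b) = g b := fun b =>
    IsLocalization.Away.lift_eq _ _ _
  have h3 : g'.comp (hs p w) = H p w g v := lift_comp p w g v hv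
  have h4 := congrArg g' hq
  rw [map_mul, map_pow, h1, h1] at h4
  rw [← h3, ← h4]
  rfl

lemma exists_param [CharZero K] (G : Glue K) {δ : K[X][Y]} (hδ : δ ≠ 0) :
    ∃ s₀ y₀ : K, s₀ ≠ 0 ∧ G.eta.eval s₀ ≠ G.eta.eval (G.ζ * s₀) ∧ δ.evalEval (s₀ ^ G.p) y₀ ≠ 0 := by
  have hp := G.hp
  have hp2 := G.hp2
  have hd : G.eta - G.eta.comp (C G.ζ * X) ≠ 0 := by
    intro h0
    have h1 := congrArg (fun q => coeff q 2) h0
    have h2 : coeff G.eta 2 = 1 := by
      simp only [Glue.eta, coeff_add, coeff_X_pow, add_mul, mul_assoc, ← pow_succ, coeff_C_mul,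
        coeff_X]
      rw [if_neg (by omega : ¬ 2 = G.p + 1)]
      simp
    have h3 : coeff (G.eta.comp (C G.ζ * X)) 2 = G.ζ ^ 2 := by
      rw [comp_C_mul_X_coeff, h2, one_mul]
    simp only [coeff_sub, h2, h3, coeff_zero] at h1
    have h4 : G.ζ ^ 2 = 1 := (sub_eq_zero.1 h1).symm
    exact G.hζ.pow_ne_one_of_pos_of_lt (by omega) (by omega) h4
  have hR : (X : K[X]) * expand K G.p δ.leadingCoeff * (G.eta - G.eta.comp (C G.ζ * X)) ≠ 0 := by
    refine mul_ne_zero (mul_ne_zero X_ne_zero ?_) hd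
    rw [expand_ne_zero (by omega)]
    exact leadingCoeff_ne_zero.2 hδ
  obtain ⟨s₀, hs₀⟩ : ∃ s₀ : K, ((X : K[X]) * expand K G.p δ.leadingCoeff *
      (G.eta - G.eta.comp (C G.ζ * X))).eval s₀ ≠ 0 := by
    by_contra hall
    push Not at hall
    exact hR (Polynomial.funext fun x => by rw [hall x, eval_zero])
  rw [eval_mul, eval_mul, eval_X, expand_eval, eval_sub, eval_comp, eval_mul, eval_C, eval_X]
    at hs₀
  have h1 : s₀ ≠ 0 := fun h => hs₀ (by rw [h]; ring)
  have h2 : (δ.leadingCoeff).eval (s₀ ^ G.p) ≠ 0 := fun h => hs₀ (by rw [h]; ring)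
  have h3 : G.eta.eval s₀ - G.eta.eval (G.ζ * s₀) ≠ 0 := fun h => hs₀ (by rw [h]; ring)
  have h4 : δ.map (evalRingHom (s₀ ^ G.p)) ≠ 0 := by
    intro h
    have := congrArg (fun q => coeff q δ.natDegree) h
    simp only [coeff_map, coe_evalRingHom, coeff_zero] at this
    exact h2 this
  obtain ⟨y₀, hy₀⟩ : ∃ y₀ : K, (δ.map (evalRingHom (s₀ ^ G.p))).eval y₀ ≠ 0 := by
    by_contra hall
    push Not at hall
    exact h4 (Polynomial.funext fun x => by rw [hall x, eval_zero])
  refine ⟨s₀, y₀, h1, sub_ne_zero.1 h3, ?_⟩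
  rwa [map_evalRingHom_eval] at hy₀

/-- the Kummer extension used to check irreducibility -/
lemma irreducible_P (A : K[X][X][X]) (hA : A.Monic)
    (hirr : Irreducible (A.map (algebraMap K[X][X] (FractionRing K[X][X]))))
    (p : ℕ) (hp : p.Prime) (hN : A.natDegree < p) (s₀ c : K) (η : K[X])
    (P : K[X][X][X]) (m : ℕ)
    (hP : ∀ (B' : Type u) [CommRing B'] [Nontrivial B'] (g : K[X][X] →+* B') (v : B'),
        g X * v = 1 → P.map g = (A.map (H p (C (C c) + C X * (X ^ p - C (C (s₀ ^ p))) + η.map C)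
          g v)).scaleRoots (g X ^ m)) :
    ∀ A' B' : K[X][X][X], A'.Monic → B'.Monic → P = A' * B' → A' = 1 ∨ B' = 1 := by
  intro A' B' hA' hB' hPAB
  let Λ := K[X][X]
  let k := FractionRing Λ
  let x : k := algebraMap Λ k (C X)
  have hxp : ∀ b : k, b ^ p ≠ x := by
    intro b hb
    have hint : IsIntegral Λ b := by
      refine ⟨X ^ p - C (C X), monic_X_pow_sub_C _ hp.ne_zero, ?_⟩
      simp [hb, x]
    obtain ⟨l, rfl⟩ := IsIntegrallyClosed.isIntegral_iff.1 hint
    rw [← map_pow] at hb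
    have hl : l ^ p = C X := IsFractionRing.injective Λ k hb
    have hprime : Irreducible (C X : K[X][X]) := (prime_C_iff.2 prime_X).irreducible
    rw [← hl] at hprime
    have hl' : l ^ p = l * l ^ (p - 1) := by
      rw [← pow_succ', Nat.sub_add_cancel hp.one_lt.le]
    rcases hprime.isUnit_or_isUnit hl' with h | h
    · exact hprime.not_isUnit (h.pow p)
    · have hp1 : p - 1 ≠ 0 := by
        have := hp.one_lt
        omega
      exact hprime.not_isUnit (((isUnit_pow_iff hp1).1 h).pow p)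
  have hirrT : Irreducible (X ^ p - C x : k[X]) := X_pow_sub_C_irreducible_of_prime hp hxp
  have := Fact.mk hirrT
  let E := AdjoinRoot (X ^ p - C x : k[X])
  let s : E := AdjoinRoot.root _
  have hfin : FiniteDimensional k E := (AdjoinRoot.powerBasis hirrT.ne_zero).finite
  have hfinrank : Module.finrank k E = p := by
    rw [(AdjoinRoot.powerBasis hirrT.ne_zero).finrank, AdjoinRoot.powerBasis_dim,
      natDegree_X_pow_sub_C]
  have hsp : s ^ p = algebraMap Λ E (C X) := by
    have h1 : aeval s (X ^ p - C x : k[X]) = 0 := by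
      rw [aeval_def, AdjoinRoot.algebraMap_eq, AdjoinRoot.eval₂_root]
    simp only [map_sub, map_pow, aeval_X, aeval_C, sub_eq_zero] at h1
    rw [h1, IsScalarTower.algebraMap_apply Λ k E]
  have hinjE : Function.Injective (algebraMap Λ E) := by
    rw [IsScalarTower.algebraMap_eq Λ k E]
    exact (algebraMap k E).injective.comp (IsFractionRing.injective Λ k)
  have hs0 : s ≠ 0 := by
    intro h0
    rw [h0, zero_pow hp.ne_zero, eq_comm, map_eq_zero_iff _ hinjE] at hsp
    exact (C_ne_zero.2 X_ne_zero) hsp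
  have hd0 : s ^ p - algebraMap Λ E (C (C (s₀ ^ p))) ≠ 0 := by
    rw [hsp, ← map_sub, ← C_sub]
    intro h0
    rw [map_eq_zero_iff _ hinjE] at h0
    exact (C_ne_zero.2 (X_sub_C_ne_zero _)) h0
  let ι : K →+* E := (algebraMap Λ E).comp (C.comp C)
  let μ : E := (algebraMap Λ E X - (s⁻¹ ^ p + ι c + η.eval₂ ι s)) / (s ^ p - ι (s₀ ^ p))
  let g : K[X][X] →+* E := eval₂RingHom (eval₂RingHom ι μ) s
  have hgX : g X = s := by simp [g]
  have hgCX : g (C X) = μ := by simp [g]
  have hgCC : ∀ a, g (C (C a)) = ι a := by intro a; simp [g]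
  have hgη : g (η.map C) = η.eval₂ ι s := by
    simp only [g, coe_eval₂RingHom]
    rw [eval₂_map]
    congr 1
    apply RingHom.ext
    intro a
    simp
  have hgv : g X * s⁻¹ = 1 := by rw [hgX, mul_inv_cancel₀ hs0]
  have hH : H p (C (C c) + C X * (X ^ p - C (C (s₀ ^ p))) + η.map C) g s⁻¹ = algebraMap Λ E := by
    apply hom_ext
    · intro a
      rw [H_CC, hgCC]
      rfl
    · rw [H_CX, hgX, hsp]
    · rw [H_X, map_add, map_add, map_mul, map_sub, map_pow, hgX, hgCX, hgCC, hgCC, hgη]
      have hd0' : s ^ p - ι (s₀ ^ p) ≠ 0 := hd0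
      have hμ : μ * (s ^ p - ι (s₀ ^ p)) =
          algebraMap Λ E X - (s⁻¹ ^ p + ι c + η.eval₂ ι s) := div_mul_cancel₀ _ hd0'
      rw [hμ]
      ring
  have hPE := hP E g s⁻¹ hgv
  rw [hH, hgX] at hPE
  have hirrE : Irreducible (A.map (algebraMap Λ E)) := by
    have h1 := irreducible_map_of_coprime (E := E) hirr (by
      rw [hA.natDegree_map, hfinrank]
      apply Nat.Coprime.symm
      rw [hp.coprime_iff_not_dvd]
      intro hdvd
      have h2 : 0 < A.natDegree := by
        rw [← hA.natDegree_map (algebraMap K[X][X] (FractionRing K[X][X]))]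
        exact hirr.natDegree_pos
      exact absurd (Nat.le_of_dvd h2 hdvd) (by omega))
    rwa [Polynomial.map_map, ← IsScalarTower.algebraMap_eq] at h1
  have hirrP : Irreducible (P.map g) := by
    rw [hPE]
    exact irreducible_scaleRoots hirrE (pow_ne_zero _ hs0)
  rw [hPAB, Polynomial.map_mul] at hirrP
  rcases hirrP.isUnit_or_isUnit rfl with h | h
  · left
    have h1 := natDegree_eq_zero_of_isUnit h
    rw [hA'.natDegree_map] at h1
    exact (hA'.natDegree_eq_zero).1 h1
  · right
    have h1 := natDegree_eq_zero_of_isUnit h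
    rw [hB'.natDegree_map] at h1
    exact (hB'.natDegree_eq_zero).1 h1

/-- the specialized polynomial and the prime ideal -/
lemma isPrime_of_spec [IsAlgClosed K] {S : Type u} [CommRing S] [Algebra K[X][X] S]
    [Module.Free K[X][X] S] [Module.Finite K[X][X] S] (A : K[X][X][X]) (hA : A.Monic) (θ : S)
    (hroot : aeval θ A = 0) (hdeg : A.natDegree = Module.finrank K[X][X] S)
    (p : ℕ) (w : K[X][X]) (P : K[X][X][X]) (hPm : P.Monic) (m : ℕ)
    (hP : ∀ (B' : Type u) [CommRing B'] [Nontrivial B'] (g : K[X][X] →+* B') (v : B'),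
        g X * v = 1 → P.map g = (A.map (H p w g v)).scaleRoots (g X ^ m)) (μ : K)
    (hirr : Irreducible (P.map (mapRingHom (evalRingHom μ)))) (x : K[X][X])
    (hx : ∀ ν : K[X][X], x ∣ ν ↔ ∀ α : K, α ≠ 0 →
      H p w ((evalRingHom α).comp (mapRingHom (evalRingHom μ))) α⁻¹ ν = 0) :
    (Ideal.span {algebraMap K[X][X] S x}).IsPrime := by
  let Q := FractionRing K[X]
  let g : K[X][X] →+* Q := (algebraMap K[X] Q).comp (mapRingHom (evalRingHom μ))
  have hgX : g X = algebraMap K[X] Q X := by simp [g]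
  have hg0 : g X ≠ 0 := by
    rw [hgX]
    exact (map_ne_zero_iff _ (IsFractionRing.injective K[X] Q)).2 X_ne_zero
  have hgv : g X * (g X)⁻¹ = 1 := mul_inv_cancel₀ hg0
  let φ : K[X][X] →+* Q := H p w g (g X)⁻¹
  have hirr1 : Irreducible (P.map g) := by
    rw [← Polynomial.map_map]
    exact ((hPm.map _).irreducible_iff_irreducible_map_fraction_map).1 hirr
  have hirr2 : Irreducible (A.map φ) := by
    rw [hP Q g (g X)⁻¹ hgv] at hirr1
    exact irreducible_of_scaleRoots (pow_ne_zero _ hg0) hirr1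
  refine isPrime_of_irreducible φ x ?_ θ A hA hroot hdeg hirr2
  intro ν
  rw [hx ν]
  obtain ⟨q, n, hq⟩ := exists_num p w ν
  have h1 := hq Q g (g X)⁻¹ hgv
  have h2 : ∀ α : K, α ≠ 0 → H p w ((evalRingHom α).comp (mapRingHom (evalRingHom μ))) α⁻¹ ν *
      α ^ n = (q.map (evalRingHom μ)).eval α := by
    intro α hα
    have h3 := hq K ((evalRingHom α).comp (mapRingHom (evalRingHom μ))) α⁻¹ (by
      simp [hα])
    have h4 : ((evalRingHom α).comp (mapRingHom (evalRingHom μ))) (X : K[X][X]) = α := by simp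
    rw [h4] at h3
    rw [h3]
    rfl
  have h5 : g q = algebraMap K[X] Q (q.map (evalRingHom μ)) := rfl
  constructor
  · intro h α hα
    have h6 : φ ν * g X ^ n = 0 := by rw [h, zero_mul]
    have h7 : algebraMap K[X] Q (q.map (evalRingHom μ)) = 0 := by
      rw [← h5, ← h1]
      exact h6
    have h8 : q.map (evalRingHom μ) = 0 := (map_eq_zero_iff _ (IsFractionRing.injective K[X] Q)).1 h7
    have h9 := h2 α hα
    rw [h8, eval_zero] at h9
    exact (mul_eq_zero.1 h9).resolve_right (pow_ne_zero _ hα)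
  · intro h
    have h6 : q.map (evalRingHom μ) = 0 := by
      apply eq_zero_of_infinite_isRoot
      have h7 : ({0}ᶜ : Set K) ⊆ {x | (q.map (evalRingHom μ)).IsRoot x} := by
        intro α hα
        have hα' : α ≠ 0 := hα
        show (q.map (evalRingHom μ)).eval α = 0
        rw [← h2 α hα', h α hα', zero_mul]
      exact (Set.Finite.infinite_compl (Set.finite_singleton 0)).mono h7
    have h7 : φ ν * g X ^ n = 0 := by
      have h8 : φ ν * g X ^ n = g q := h1
      rw [h8, h5, h6, map_zero]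
    exact (mul_eq_zero.1 h7).resolve_right (pow_ne_zero _ hg0)

end BertiniMod

open BertiniMod

/-- Module BERTINI -/
theorem bertini {K : Type u} [Field K] [CharZero K] [IsAlgClosed K] : BertiniStatement K := by
  intro G F hF S _ _ _ _ _ hN
  have hp := G.hp
  obtain ⟨θ, A, hA, hdeg, hroot, hirr⟩ := exists_primitive K[X][X] S
  obtain ⟨δ, hδ, hsep⟩ := exists_disc hirr
  obtain ⟨s₀, y₀, hs₀, hη, hδ₀⟩ := exists_param G hδ
  let c : K := y₀ - (s₀ ^ G.p)⁻¹ - G.eta.eval s₀
  let w : K[X][X] := C (C c) + C X * (X ^ G.p - C (C (s₀ ^ G.p))) + G.eta.map C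
  obtain ⟨P, m, hPm, hPdeg, hP⟩ := exists_P A hA G.p w
  have hpos : 0 < A.natDegree := by
    rw [← hA.natDegree_map (algebraMap K[X][X] (FractionRing K[X][X]))]
    exact hirr.natDegree_pos
  -- the specialization at `s₀`
  have hsep₀ : (A.map (evalEvalRingHom (s₀ ^ G.p) y₀)).Separable :=
    hsep K (evalEvalRingHom (s₀ ^ G.p) y₀) hδ₀
  have hsep₁ := separable_scaleRoots hsep₀ (pow_ne_zero m hs₀)
  have hspec₀ : P.map (evalRingHom (C s₀)) =
      ((A.map (evalEvalRingHom (s₀ ^ G.p) y₀)).scaleRoots (s₀ ^ m)).map C := by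
    have h1 : evalRingHom (C s₀) (X : K[X][X]) * C s₀⁻¹ = 1 := by
      rw [coe_evalRingHom, eval_X, ← C_mul, mul_inv_cancel₀ hs₀, C_1]
    have h2 := hP K[X] (evalRingHom (C s₀)) (C s₀⁻¹) h1
    have h3 : H G.p w (evalRingHom (C s₀)) (C s₀⁻¹) =
        (C : K →+* K[X]).comp (evalEvalRingHom (s₀ ^ G.p) y₀) := by
      apply hom_ext
      · intro a
        rw [H_CC]
        simp [evalEval]
      · rw [H_CX]
        simp [evalEval]
      · rw [H_X]
        have h4 : eval (C s₀) (G.eta.map C) = C (G.eta.eval s₀) := by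
          rw [eval_map, eval₂_at_apply]
        simp only [w, c, coe_evalRingHom, eval_add, eval_mul, eval_C, eval_X, eval_sub, eval_pow,
          h4, RingHom.comp_apply, coe_evalEvalRingHom, evalEval_X]
        rw [← C_pow, ← C_pow, sub_self, mul_zero, add_zero, ← C_add, ← C_add]
        congr 1
        rw [inv_pow]
        ring
    rw [h2, h3, ← Polynomial.map_map, coe_evalRingHom, eval_X, ← C_pow, map_scaleRoots]
    rw [(hA.map _).leadingCoeff, map_one]
    exact one_ne_zero
  have hfin := spec (K := K) P s₀ _ hPm (by rw [hPdeg]; exact hpos) hsep₁ hspec₀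
    (irreducible_P A hA hirr G.p hp (by rw [hdeg]; exact hN) s₀ c G.eta P m hP)
  refine ⟨s₀, c, hs₀, hη, hfin.subset ?_⟩
  intro μ hμ hirrμ
  apply hμ
  apply isPrime_of_spec A hA θ hroot hdeg G.p w P hPm m hP μ hirrμ
  intro ν
  rw [hF]
  have key : ∀ α : K, α ≠ 0 → H G.p w ((evalRingHom α).comp (mapRingHom (evalRingHom μ))) α⁻¹ ν =
      G.ev (C c + C μ * (X - C (s₀ ^ G.p))) α ν := by
    intro α hα
    have h1 : H G.p w ((evalRingHom α).comp (mapRingHom (evalRingHom μ))) α⁻¹ =
        evalEvalRingHom (α ^ G.p) (G.yy (C c + C μ * (X - C (s₀ ^ G.p))) α) := by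
      apply hom_ext
      · intro a
        rw [H_CC]
        simp [evalEval]
      · rw [H_CX]
        simp [evalEval]
      · rw [H_X]
        have h4 : eval α ((G.eta.map C).map (evalRingHom μ)) = G.eta.eval α := by
          rw [Polynomial.map_map]
          have h5 : (evalRingHom μ).comp (C : K →+* K[X]) = RingHom.id K := by
            apply RingHom.ext
            intro a
            simp
          rw [h5, Polynomial.map_id]
        simp only [w, RingHom.comp_apply, coe_evalRingHom, coe_mapRingHom, Polynomial.map_add,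
          Polynomial.map_mul, Polynomial.map_sub, Polynomial.map_pow, map_X, map_C, eval_add,
          eval_mul, eval_C, eval_X, eval_sub, eval_pow, h4, coe_evalEvalRingHom, evalEval_X,
          Glue.yy]
        rw [inv_pow]
        ring
    rw [h1]
    rfl
  constructor
  · intro h α hα
    rw [key α hα]
    exact h α hα
  · intro h α hα
    rw [← key α hα]
    exact h α hα

end IdealChomp
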