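import Mathlib

/-!
# Module BERTINI, field theory

By helper27.
-/

open Polynomial

universe u

namespace IdealChomp

namespace BertiniMod

/-- irreducible polynomials stay irreducible in extensions of degree coprime to their degree -/
lemma irreducible_map_of_coprime {k E : Type*} [Field k] [Field E] [Algebra k E]
    [FiniteDimensional k E] {A : k[X]} (hA : Irreducible A)
    (hcop : Nat.Coprime A.natDegree (Module.finrank k E)) :
    Irreducible (A.map (algebraMap k E)) := by
  have hA0 : A.map (algebraMap k E) ≠ 0 := (Polynomial.map_ne_zero_iff (algebraMap k E).injective).2 hA.ne_zero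
  have hnu : ¬ IsUnit (A.map (algebraMap k E)) := by
    intro h
    have h1 := natDegree_eq_zero_of_isUnit h
    rw [natDegree_map] at h1
    exact hA.natDegree_pos.ne' h1
  obtain ⟨f, hf, hdvd⟩ := WfDvdMonoid.exists_irreducible_factor hnu hA0
  have := Fact.mk hf
  let L := AdjoinRoot f
  have hroot : aeval (AdjoinRoot.root f) A = 0 := by
    obtain ⟨q, hq⟩ := hdvd
    have h1 : aeval (AdjoinRoot.root f) (A.map (algebraMap k E)) = 0 := by
      rw [hq, map_mul]
      rw [aeval_def, AdjoinRoot.algebraMap_eq, AdjoinRoot.eval₂_root, zero_mul]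
    rwa [aeval_map_algebraMap] at h1
  have hfin : FiniteDimensional E L := (AdjoinRoot.powerBasis hf.ne_zero).finite
  have hfin2 : FiniteDimensional k L := FiniteDimensional.trans k E L
  have hdegL : Module.finrank E L = f.natDegree := by
    rw [(AdjoinRoot.powerBasis hf.ne_zero).finrank, AdjoinRoot.powerBasis_dim]
  have hmin : (minpoly k (AdjoinRoot.root f : L)).natDegree = A.natDegree := by
    rw [← minpoly.eq_of_irreducible hA hroot]
    rw [natDegree_mul_C]
    exact inv_ne_zero (leadingCoeff_ne_zero.2 hA.ne_zero)
  have hdiv : A.natDegree ∣ Module.finrank k L := by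
    rw [← hmin]
    exact minpoly.degree_dvd (Algebra.IsIntegral.isIntegral _)
  rw [← Module.finrank_mul_finrank k E L, hdegL] at hdiv
  have hdiv2 : A.natDegree ∣ f.natDegree := hcop.dvd_of_dvd_mul_left hdiv
  have hle : A.natDegree ≤ f.natDegree := Nat.le_of_dvd hf.natDegree_pos hdiv2
  have hass : Associated f (A.map (algebraMap k E)) := by
    obtain ⟨q, hq⟩ := hdvd
    have hq0 : q ≠ 0 := by
      rintro rfl
      rw [mul_zero] at hq
      exact hA0 hq
    have h1 := congrArg natDegree hq
    rw [natDegree_map, natDegree_mul hf.ne_zero hq0] at h1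
    have h2 : q.natDegree = 0 := by omega
    have h3 : IsUnit q := by
      rw [eq_C_of_natDegree_eq_zero h2, isUnit_C, isUnit_iff_ne_zero]
      intro h4
      apply hq0
      rw [eq_C_of_natDegree_eq_zero h2, h4, C_0]
    rw [hq]
    exact associated_mul_unit_right f q h3
  exact hass.irreducible hf

/-- a finite dimensional algebra which contains a root of an irreducible polynomial of full degree
is a domain -/
lemma isDomain_of_root {k W : Type*} [Field k] [CommRing W] [Nontrivial W] [Algebra k W]
    [FiniteDimensional k W] {f : k[X]} (hf : Irreducible f) (hdeg : f.natDegree = Module.finrank k W)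
    (θ : W) (hθ : aeval θ f = 0) : IsDomain W := by
  have := Fact.mk hf
  let ρ : AdjoinRoot f →ₐ[k] W := AdjoinRoot.liftAlgHom f (Algebra.ofId k W) θ (by
    rw [← hθ]; rfl)
  have hinj : Function.Injective ρ := (ρ : AdjoinRoot f →+* W).injective
  have hfin : FiniteDimensional k (AdjoinRoot f) := (AdjoinRoot.powerBasis hf.ne_zero).finite
  have hdegL : Module.finrank k (AdjoinRoot f) = f.natDegree := by
    rw [(AdjoinRoot.powerBasis hf.ne_zero).finrank, AdjoinRoot.powerBasis_dim]
  have hsurj : Function.Surjective ρ := by
    have := (LinearMap.injective_iff_surjective_of_finrank_eq_finrank (f := ρ.toLinearMap)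
      (hdegL.trans hdeg)).1 hinj
    exact this
  let e : AdjoinRoot f ≃+* W := RingEquiv.ofBijective (ρ : AdjoinRoot f →+* W) ⟨hinj, hsurj⟩
  exact MulEquiv.isDomain (AdjoinRoot f) e.symm.toMulEquiv

end BertiniMod

end IdealChomp
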