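import Pool.Agent.Lib.MP_69b5dd_co.Game

/-!
# Classification of the positions `∏ P i ^ n i`
-/

namespace IdealChomp

open Ideal

/-! ## Combinatorial game: elementary facts -/

section Comb

variable {ι : Type*}

theorem CMove.le {n n' : ι → ℕ} (h : CMove n n') : n' ≤ n := by
  obtain ⟨_, _, c, hc⟩ := h
  intro j
  rcases hc j with h | ⟨h, h'⟩
  · exact h.le
  · rw [h]; exact h'.le

theorem CMove.sum_lt [Fintype ι] {n n' : ι → ℕ} (h : CMove n n') : ∑ i, n' i < ∑ i, n i := by
  have hle := h.le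
  obtain ⟨j, hj⟩ : ∃ j, n' j ≠ n j := by
    by_contra hcon
    push Not at hcon
    exact h.2.1 (funext hcon)
  exact Finset.sum_lt_sum (fun i _ => hle i) ⟨j, Finset.mem_univ j, lt_of_le_of_ne (hle j) hj⟩

theorem cWins_or_cP [Fintype ι] (n : ι → ℕ) : CWins n ∨ CP n := by
  induction hN : ∑ i, n i using Nat.strong_induction_on generalizing n with
  | _ N ih =>
    by_cases hP : CP n
    · exact Or.inr hP
    · left
      unfold CP at hP
      push Not at hP
      obtain ⟨n', hn', hw⟩ := hP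
      rcases ih _ (by rw [← hN]; exact hn'.sum_lt) n' rfl with h | h
      · exact absurd h hw
      · exact CWins.intro n n' hn' h

theorem CWins.exists_cP {n : ι → ℕ} (h : CWins n) : ∃ n', CMove n n' ∧ CP n' := by
  cases h with
  | intro _ n' h1 h2 => exact ⟨n', h1, h2⟩

end Comb

/-! ## Ideals -/

section Main

variable {A : Type*} [CommRing A] {ι : Type*} [Fintype ι]

/-- `I_n = ∏ P i ^ n i`. -/
def II (P : ι → Ideal A) (n : ι → ℕ) : Ideal A := ∏ i, P i ^ n i

/-- The abstract situation in which the classification holds. -/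
structure Config (P : ι → Ideal A) (a : A) : Prop where
  nzd : ∀ x, a * x = 0 → x = 0
  prod : ∏ i, P i = span {a}
  prime : ∀ i, (P i).IsPrime
  dim : ∀ i (Q : Ideal A), Q.IsPrime → P i < Q → Q.IsMaximal
  inc : ∀ i j, i ≠ j → ¬ P i ≤ P j
  h3 : ∀ (n : ι → ℕ) (T : Finset ι) (c : ℕ), (∀ j ∈ T, n j = c) →
    ∃ x ∈ II P n, ∀ j ∈ T, II P n ≤ span {x} ⊔ P j * II P n
  h4 : ∀ (n : ι → ℕ) (x : A) (j k : ι), j ≠ k → x ∈ II P n →
    II P n ≤ span {x} ⊔ P j * II P n → II P n ≤ span {x} ⊔ P k * II P n → n j = n k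
  h5 : ∀ j (u : A), u ∉ P j → P j ⊔ span {u} ≠ ⊤ → ∃ M₁ M₂ : Ideal A,
    M₁.IsMaximal ∧ M₂.IsMaximal ∧ M₁ ≠ M₂ ∧ P j ⊔ span {u} ≤ M₁ ∧ P j ⊔ span {u} ≤ M₂

variable {P : ι → Ideal A} {a : A}

theorem II_add (n m : ι → ℕ) : II P (n + m) = II P n * II P m := by
  unfold II
  rw [← Finset.prod_mul_distrib]
  exact Finset.prod_congr rfl (fun i _ => by rw [Pi.add_apply, pow_add])

theorem II_zero : II P 0 = 1 := by simp [II]

theorem II_const (hP : ∏ i, P i = span {a}) (E : ℕ) : II P (fun _ => E) = span {a ^ E} := by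
  unfold II
  rw [Finset.prod_pow, hP, Ideal.span_singleton_pow]

theorem II_le (n : ι → ℕ) (j : ι) (hj : n j ≠ 0) : II P n ≤ P j := by
  classical
  unfold II
  refine (Ideal.prod_le_inf (s := Finset.univ)).trans ?_
  refine (Finset.inf_le (Finset.mem_univ j)).trans ?_
  exact Ideal.pow_le_self hj

theorem exists_le_of_II_le {Q : Ideal A} (hQ : Q.IsPrime) (n : ι → ℕ) (h : II P n ≤ Q) :
    ∃ j, n j ≠ 0 ∧ P j ≤ Q := by
  unfold II at h
  obtain ⟨j, _, hj⟩ := (hQ.prod_le).mp h
  by_cases h0 : n j = 0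
  · rw [h0, pow_zero, Ideal.one_eq_top] at hj
    exact absurd (top_le_iff.mp hj) hQ.ne_top
  · exact ⟨j, h0, (hQ.pow_le_iff h0).mp hj⟩

theorem cancel_le {c : A} (hc : ∀ x, c * x = 0 → x = 0) {I J : Ideal A}
    (h : span {c} * I ≤ span {c} * J) : I ≤ J := by
  intro x hx
  have : c * x ∈ span {c} * J :=
    h (Ideal.mul_mem_mul (Ideal.mem_span_singleton_self c) hx)
  obtain ⟨z, hz, hzx⟩ := Ideal.mem_span_singleton_mul.mp this
  have : x = z := by
    have h0 := hc (z - x) (by rw [mul_sub, hzx, sub_self])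
    exact (sub_eq_zero.mp h0).symm
  rw [this]; exact hz

theorem pow_nzd (ha : ∀ x, a * x = 0 → x = 0) (E : ℕ) : ∀ x, a ^ E * x = 0 → x = 0 := by
  induction E with
  | zero => intro x; simp
  | succ E ih =>
    intro x hx
    rw [pow_succ', mul_assoc] at hx
    exact ih x (ha _ hx)

/-- A complementary exponent. -/
theorem exists_compl (n : ι → ℕ) : ∃ (m : ι → ℕ) (E : ℕ), n + m = fun _ => E := by
  refine ⟨fun i => (∑ j, n j) - n i, ∑ j, n j, ?_⟩
  funext i
  have : n i ≤ ∑ j, n j := Finset.single_le_sum (fun _ _ => Nat.zero_le _) (Finset.mem_univ i)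
  simp only [Pi.add_apply]
  omega

theorem II_cancel (hnzd : ∀ x, a * x = 0 → x = 0) (hprod : ∏ i, P i = span {a})
    (n : ι → ℕ) {I J : Ideal A} (h : II P n * I ≤ II P n * J) : I ≤ J := by
  obtain ⟨m, E, hm⟩ := exists_compl n
  apply cancel_le (pow_nzd hnzd E)
  rw [← II_const hprod, ← hm, add_comm, II_add, mul_assoc, mul_assoc]
  exact Ideal.mul_mono_right h

theorem Config.cancel (hC : Config P a) (n : ι → ℕ) {I J : Ideal A}
    (h : II P n * I ≤ II P n * J) : I ≤ J :=
  II_cancel hC.nzd hC.prod n h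

theorem Config.factor (hC : Config P a) (n : ι → ℕ) {I : Ideal A} (h : I ≤ II P n) :
    ∃ J : Ideal A, I = II P n * J := by
  obtain ⟨m, E, hm⟩ := exists_compl n
  -- `J = {r | a ^ E * r ∈ I * II m}`
  let J : Ideal A :=
    { carrier := {r | a ^ E * r ∈ I * II P m}
      add_mem' := by
        intro x y hx hy
        simp only [Set.mem_ofPred_eq] at *
        rw [mul_add]; exact Ideal.add_mem _ hx hy
      zero_mem' := by simp
      smul_mem' := by
        intro c x hx
        simp only [Set.mem_ofPred_eq, smul_eq_mul] at *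
        have := Ideal.mul_mem_left _ c hx
        convert this using 1; ring }
  have hJ : span {a ^ E} * J = I * II P m := by
    apply le_antisymm
    · rw [Ideal.mul_le]
      intro r hr s hs
      obtain ⟨t, rfl⟩ := Ideal.mem_span_singleton.mp hr
      have hs' : a ^ E * s ∈ I * II P m := hs
      have := Ideal.mul_mem_left _ t hs'
      convert this using 1; ring
    · intro x hx
      have hx' : x ∈ span {a ^ E} := by
        rw [← II_const hC.prod, ← hm, II_add]
        exact Ideal.mul_mono_left h hx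
      obtain ⟨r, rfl⟩ := Ideal.mem_span_singleton.mp hx'
      exact Ideal.mul_mem_mul (Ideal.mem_span_singleton_self _) hx
  refine ⟨J, ?_⟩
  have key : span {a ^ E} * (II P n * J) = span {a ^ E} * I := by
    calc span {a ^ E} * (II P n * J) = II P n * (span {a ^ E} * J) := by ring
      _ = II P n * (I * II P m) := by rw [hJ]
      _ = (II P n * II P m) * I := by ring
      _ = span {a ^ E} * I := by rw [← II_add, hm, II_const hC.prod]
  exact le_antisymm (cancel_le (pow_nzd hC.nzd E) key.ge) (cancel_le (pow_nzd hC.nzd E) key.le)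

/-! ### Generators modulo ideals -/

/-- `x` generates `I` modulo `𝔞 I`. -/
def Gen (I : Ideal A) (x : A) (𝔞 : Ideal A) : Prop := I ≤ span {x} ⊔ 𝔞 * I

theorem Gen.mono {I : Ideal A} {x : A} {𝔞 𝔟 : Ideal A} (h : Gen I x 𝔞) (hle : 𝔞 ≤ 𝔟) :
    Gen I x 𝔟 :=
  le_trans h (sup_le_sup_left (Ideal.mul_mono_left hle) _)

theorem Gen.mul {I : Ideal A} {x : A} {𝔞 𝔟 : Ideal A} (h₁ : Gen I x 𝔞) (h₂ : Gen I x 𝔟) :
    Gen I x (𝔞 * 𝔟) := by
  refine le_trans h₁ (sup_le le_sup_left ?_)
  refine (Ideal.mul_mono_right h₂).trans ?_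
  rw [Ideal.mul_sup, mul_assoc]
  exact sup_le_sup_right (Ideal.mul_le_inf.trans inf_le_right) _

theorem gen_top (I : Ideal A) (x : A) : Gen I x ⊤ := by
  unfold Gen
  rw [Ideal.top_mul]
  exact le_sup_right

theorem Gen.pow {I : Ideal A} {x : A} {𝔞 : Ideal A} (h : Gen I x 𝔞) (k : ℕ) :
    Gen I x (𝔞 ^ k) := by
  induction k with
  | zero => rw [pow_zero, Ideal.one_eq_top]; exact gen_top I x
  | succ k ih => rw [pow_succ]; exact ih.mul h

theorem Gen.finset_prod {I : Ideal A} {x : A} {κ : Type*} (s : Finset κ) (f : κ → Ideal A)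
    (h : ∀ i ∈ s, Gen I x (f i)) : Gen I x (∏ i ∈ s, f i) := by
  classical
  induction s using Finset.induction_on with
  | empty => rw [Finset.prod_empty, Ideal.one_eq_top]; exact gen_top I x
  | insert i s his ih =>
    rw [Finset.prod_insert his]
    exact (h i (Finset.mem_insert_self i s)).mul
      (ih (fun j hj => h j (Finset.mem_insert_of_mem hj)))

theorem Gen.multiset_prod {I : Ideal A} {x : A} (s : Multiset (Ideal A))
    (h : ∀ 𝔞 ∈ s, Gen I x 𝔞) : Gen I x s.prod := by
  induction s using Multiset.induction with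
  | empty => rw [Multiset.prod_zero, Ideal.one_eq_top]; exact gen_top I x
  | cons 𝔞 s ih =>
    rw [Multiset.prod_cons]
    exact (h 𝔞 (Multiset.mem_cons_self 𝔞 s)).mul
      (ih (fun j hj => h j (Multiset.mem_cons_of_mem hj)))

/-- Changing the generator modulo `𝔞 I`. -/
theorem Gen.congr {I : Ideal A} {x y : A} {𝔞 : Ideal A} (h : Gen I x 𝔞)
    (hxy : y - x ∈ 𝔞 * I) : Gen I y 𝔞 := by
  refine le_trans h (sup_le ?_ le_sup_right)
  rw [span_singleton_le_iff_mem]
  have : x = y - (y - x) := by ring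
  rw [this]
  exact Ideal.sub_mem _ (Ideal.mem_sup_left (Ideal.mem_span_singleton_self y))
    (Ideal.mem_sup_right hxy)

theorem Config.local_gen (hC : Config P a) (n : ι → ℕ) {M : Ideal A} (hM : M.IsMaximal) :
    ∃ w ∈ II P n, Gen (II P n) w M := by
  by_cases h : ∃ j, P j ≤ M
  · obtain ⟨j, hj⟩ := h
    obtain ⟨x, hx, hgen⟩ := hC.h3 n {j} (n j) (by simp)
    exact ⟨x, hx, Gen.mono (hgen j (Finset.mem_singleton_self j)) hj⟩
  · have hn : ¬ II P n ≤ M := by
      intro hle
      obtain ⟨j, _, hj⟩ := exists_le_of_II_le hM.isPrime n hle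
      exact h ⟨j, hj⟩
    obtain ⟨w, hw, hwM⟩ := SetLike.not_le_iff_exists.mp hn
    refine ⟨w, hw, ?_⟩
    have htop : span {w} ⊔ M = ⊤ := by
      rw [sup_comm]
      exact (Ideal.isMaximal_def.mp hM).2 _ (lt_of_le_of_ne le_sup_left (fun h => hwM (by
        rw [h]; exact Ideal.mem_sup_right (Ideal.mem_span_singleton_self w))))
    unfold Gen
    calc II P n = (span {w} ⊔ M) * II P n := by rw [htop, Ideal.top_mul]
      _ = span {w} * II P n ⊔ M * II P n := by rw [Ideal.sup_mul]
      _ ≤ _ := sup_le_sup_right (Ideal.mul_le_inf.trans inf_le_left) _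

/-- The approximation lemma. -/
theorem Config.approx (hC : Config P a) (n : ι → ℕ) (Q : Ideal A) {x₀ : A} (hx₀ : x₀ ∈ II P n)
    (s : Finset (Ideal A)) (hs : ∀ M ∈ s, M.IsMaximal ∧ ¬ Q ≤ M) :
    ∃ x ∈ II P n, x - x₀ ∈ Q * II P n ∧ ∀ M ∈ s, Gen (II P n) x M := by
  classical
  induction s using Finset.induction_on with
  | empty => exact ⟨x₀, hx₀, by simp, by simp⟩
  | insert M s hMs ih =>
    obtain ⟨x, hx, hxQ, hgen⟩ := ih (fun M' hM' => hs M' (Finset.mem_insert_of_mem hM'))
    obtain ⟨hM, hQM⟩ := hs M (Finset.mem_insert_self M s)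
    obtain ⟨w, hw, hwM⟩ := hC.local_gen n hM
    have hcop : M ⊔ Q * ∏ M' ∈ s, M' = ⊤ := by
      apply (Ideal.isMaximal_def.mp hM).2
      refine lt_of_le_of_ne le_sup_left ?_
      intro h
      have hle : Q * ∏ M' ∈ s, M' ≤ M := by rw [h]; exact le_sup_right
      rcases (hM.isPrime.mul_le).mp hle with h | h
      · exact hQM h
      · obtain ⟨M', hM', hle'⟩ := (hM.isPrime.prod_le).mp h
        have := (hs M' (Finset.mem_insert_of_mem hM')).1.eq_of_le hM.ne_top hle'
        rw [this] at hM'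
        exact hMs hM'
    obtain ⟨u, hu, e, he, hsum⟩ := Submodule.mem_sup.mp
      (show (1 : A) ∈ M ⊔ Q * ∏ M' ∈ s, M' by rw [hcop]; trivial)
    have hxw : x + e * (w - x) - x ∈ (Q * ∏ M' ∈ s, M') * II P n := by
      have : x + e * (w - x) - x = e * (w - x) := by ring
      rw [this]
      exact Ideal.mul_mem_mul he (Ideal.sub_mem _ hw hx)
    refine ⟨x + e * (w - x), ?_, ?_, ?_⟩
    · exact Ideal.add_mem _ hx (Ideal.mul_mem_left _ _ (Ideal.sub_mem _ hw hx))
    · have : x + e * (w - x) - x₀ = (x + e * (w - x) - x) + (x - x₀) := by ring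
      rw [this]
      refine Ideal.add_mem _ ?_ hxQ
      exact Ideal.mul_mono_left (Ideal.mul_le_inf.trans inf_le_left) hxw
    · intro M' hM'
      rcases Finset.mem_insert.mp hM' with rfl | hM'
      · refine hwM.congr ?_
        have : x + e * (w - x) - w = u * (x - w) := by
          have : u = 1 - e := by rw [← hsum]; ring
          rw [this]; ring
        rw [this]
        exact Ideal.mul_mem_mul hu (Ideal.sub_mem _ hx hw)
      · refine (hgen M' hM').congr ?_
        refine Ideal.mul_mono_left ?_ hxw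
        refine (Ideal.mul_le_inf.trans inf_le_right).trans ?_
        refine (Ideal.prod_le_inf (s := s)).trans ?_
        exact Finset.inf_le hM'

variable [IsNoetherianRing A]

/-- Lemma M: the move from `I_{n''+d} J` to `I_{n''}`. -/
theorem Config.lemmaM (hC : Config P a) (n d : ι → ℕ) {J : Ideal A} (hJ : ZeroDim J) {x₀ : A}
    (hx₀ : x₀ ∈ II P n) (hgen₀ : ∀ j, d j ≠ 0 → Gen (II P n) x₀ (P j)) :
    ∃ x : A, II P (n + d) * J ⊔ span {x} = II P n := by
  classical
  obtain ⟨Z, hZ, hprod⟩ := exists_prod_primes_le J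
  obtain ⟨x, hx, hxQ, hgen⟩ := hC.approx n (II P d) hx₀
    (Z.toFinset.filter (fun M => ¬ II P d ≤ M)) (by
      intro M hM
      obtain ⟨hM, hM'⟩ := Finset.mem_filter.mp hM
      have := hZ M (Multiset.mem_toFinset.mp hM)
      exact ⟨hJ M this.1 this.2, hM'⟩)
  have hgenj : ∀ j, d j ≠ 0 → Gen (II P n) x (P j) := by
    intro j hj
    refine (hgen₀ j hj).congr (Ideal.mul_mono_left (II_le d j hj) hxQ)
  have hgenZ : ∀ M ∈ Z, Gen (II P n) x M := by
    intro M hM
    by_cases h : II P d ≤ M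
    · obtain ⟨j, hj, hjM⟩ := exists_le_of_II_le (hZ M hM).1 d h
      exact (hgenj j hj).mono hjM
    · exact hgen M (Finset.mem_filter.mpr ⟨Multiset.mem_toFinset.mpr hM, h⟩)
  have h1 : Gen (II P n) x (II P d) := by
    refine Gen.finset_prod _ _ ?_
    intro i _
    by_cases h0 : d i = 0
    · rw [h0, pow_zero, Ideal.one_eq_top]; exact gen_top _ _
    · exact (hgenj i h0).pow _
  have h2 : Gen (II P n) x J := (Gen.multiset_prod Z hgenZ).mono hprod
  have h3 : Gen (II P n) x (II P d * J) := h1.mul h2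
  refine ⟨x, le_antisymm (sup_le ?_ ?_) ?_⟩
  · rw [II_add, mul_assoc]
    exact Ideal.mul_le_inf.trans inf_le_left
  · rwa [span_singleton_le_iff_mem]
  · have : II P (n + d) * J = (II P d * J) * II P n := by rw [II_add]; ring
    rw [this, sup_comm]
    exact h3

omit [IsNoetherianRing A] in
theorem Config.II_ne_top (hC : Config P a) {n : ι → ℕ} (hn : n ≠ 0) : II P n ≠ ⊤ := by
  obtain ⟨j, hj⟩ : ∃ j, n j ≠ 0 := by
    by_contra h
    push Not at h
    exact hn (funext h)
  intro h
  apply (hC.prime j).ne_top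
  rw [eq_top_iff, ← h]
  exact II_le n j hj

/-- The induction statement: combinatorial `P`-positions below `N` are `P`-positions. -/
def GoodBelow (P : ι → Ideal A) (N : ℕ) : Prop :=
  ∀ n : ι → ℕ, ∑ i, n i < N → n ≠ 0 → CP n → PPos (II P n)

/-- moves of the form `I_{n''+d} J → I_{n''}` are legal unless `d = 0` and `J = ⊤`. -/
theorem Config.moverWins_of_move (hC : Config P a) {n d : ι → ℕ} {J : Ideal A} (hn : n ≠ 0)
    (hJ : ZeroDim J) (hdJ : II P d * J ≠ ⊤) {x₀ : A}
    (hx₀ : x₀ ∈ II P n) (hgen₀ : ∀ j, d j ≠ 0 → Gen (II P n) x₀ (P j))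
    (hP : PPos (II P n)) : MoverWins (II P (n + d) * J) := by
  obtain ⟨x, hx⟩ := hC.lemmaM n d hJ hx₀ hgen₀
  refine PPos.moverWins (a := x) ?_ (by rw [hx]; exact hC.II_ne_top hn) (by rw [hx]; exact hP)
  intro hmem
  apply hdJ
  have h1 : II P (n + d) * J ⊔ span {x} = II P (n + d) * J :=
    sup_eq_left.mpr ((span_singleton_le_iff_mem _).mpr hmem)
  rw [hx, II_add, mul_assoc] at h1
  rw [eq_top_iff]
  apply hC.cancel n
  rw [Ideal.mul_top]
  exact h1.le

omit [IsNoetherianRing A] in
theorem zeroDim_top : ZeroDim (⊤ : Ideal A) := by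
  intro Q hQ h
  exact absurd (top_le_iff.mp h) hQ.ne_top

theorem Config.moverWins_of_cMove (hC : Config P a) {n n' : ι → ℕ} (h : CMove n n')
    {J : Ideal A} (hJ : ZeroDim J) (hP : PPos (II P n')) : MoverWins (II P n * J) := by
  have hle := h.le
  obtain ⟨hn', hne, c, hc⟩ := h
  obtain ⟨d, rfl⟩ : ∃ d, n = n' + d := ⟨n - n', by
    funext i
    have : n' i ≤ n i := hle i
    simp only [Pi.add_apply, Pi.sub_apply]
    omega⟩
  obtain ⟨x₀, hx₀, hgen⟩ := hC.h3 n' (Finset.univ.filter (fun j => d j ≠ 0)) c (by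
    intro j hj
    have hj' := (Finset.mem_filter.mp hj).2
    rcases hc j with h | h
    · exfalso
      simp only [Pi.add_apply] at h
      omega
    · exact h.1)
  have hd : d ≠ 0 := by
    rintro rfl
    exact hne (by simp)
  refine hC.moverWins_of_move hn' hJ ?_ hx₀ (fun j hj => hgen j (by simpa using hj)) hP
  intro htop
  apply hC.II_ne_top hd
  rw [eq_top_iff, ← htop]
  exact Ideal.mul_le_inf.trans inf_le_left

theorem Config.zeroDim_moverWins (hC : Config P a) {n : ι → ℕ} (hn : n ≠ 0)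
    (ih : GoodBelow P (∑ i, n i + 1)) {J : Ideal A} (hJ : ZeroDim J) (hJt : J ≠ ⊤) :
    MoverWins (II P n * J) := by
  rcases cWins_or_cP n with h | h
  · obtain ⟨n', hn', hP⟩ := h.exists_cP
    exact hC.moverWins_of_cMove hn' hJ (ih n' (by have := hn'.sum_lt; omega) hn'.1 hP)
  · have hPP := ih n (by omega) hn h
    have := hC.moverWins_of_move (d := 0) hn hJ (by rw [II_zero, one_mul]; exact hJt)
      (x₀ := 0) (Ideal.zero_mem _) (fun j hj => absurd rfl hj) hPP
    rwa [add_zero] at this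

theorem Config.cWins_moverWins (hC : Config P a) {n : ι → ℕ}
    (ih : GoodBelow P (∑ i, n i)) (h : CWins n) : MoverWins (II P n) := by
  obtain ⟨n', hn', hP⟩ := h.exists_cP
  have := hC.moverWins_of_cMove hn' (J := ⊤) zeroDim_top (ih n' hn'.sum_lt hn'.1 hP)
  rwa [Ideal.mul_top] at this

theorem Config.pPos_step (hC : Config P a) {n : ι → ℕ} (hn : n ≠ 0)
    (ih : GoodBelow P (∑ i, n i)) (hCP : CP n) : PPos (II P n) := by
  classical
  intro g hg hne
  -- a maximal `n' ≤ n` with `g ∈ I_{n'}`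
  obtain ⟨n', ⟨hn'le, hgn'⟩, hmax⟩ : ∃ n' : ι → ℕ, (n' ≤ n ∧ g ∈ II P n') ∧
      ∀ n'' : ι → ℕ, n'' ≤ n → g ∈ II P n'' → ∑ i, n'' i ≤ ∑ i, n' i := by
    have hfin : ({n' : ι → ℕ | n' ≤ n ∧ g ∈ II P n'}).Finite :=
      (Set.finite_Iic n).subset (fun n' h => h.1)
    have hnonempty : ({n' : ι → ℕ | n' ≤ n ∧ g ∈ II P n'}).Nonempty :=
      ⟨0, fun i => Nat.zero_le _, by rw [II_zero, Ideal.one_eq_top]; trivial⟩
    obtain ⟨n', hn', hmax⟩ := Set.exists_max_image _ (fun n' : ι → ℕ => ∑ i, n' i) hfin hnonempty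
    exact ⟨n', hn', fun n'' h1 h2 => hmax n'' ⟨h1, h2⟩⟩
  obtain ⟨d, hd⟩ : ∃ d, n = n' + d := ⟨n - n', by
    funext i
    have : n' i ≤ n i := hn'le i
    simp only [Pi.add_apply, Pi.sub_apply]
    omega⟩
  have hIle : II P n ⊔ span {g} ≤ II P n' := by
    refine sup_le ?_ ((span_singleton_le_iff_mem _).mpr hgn')
    rw [hd, II_add]
    exact Ideal.mul_le_inf.trans inf_le_left
  obtain ⟨J, hJ⟩ := hC.factor n' hIle
  have hdJ : II P d ≤ J := by
    apply hC.cancel n'
    rw [← hJ, ← II_add, ← hd]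
    exact le_sup_left
  have hd0 : d ≠ 0 := by
    rintro rfl
    rw [add_zero] at hd
    rw [← hd] at hgn'
    exact hg hgn'
  -- maximality
  have hmax' : ∀ j, d j ≠ 0 → g ∉ II P (n' + Pi.single j 1) := by
    intro j hj hmem
    have hle : n' + Pi.single j 1 ≤ n := by
      intro i
      show (n' + Pi.single j 1 : ι → ℕ) i ≤ n i
      rw [hd, Pi.add_apply, Pi.add_apply]
      by_cases hij : i = j
      · subst hij
        rw [Pi.single_eq_same]
        omega
      · rw [Pi.single_eq_of_ne hij]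
        omega
    have := hmax _ hle hmem
    simp only [Pi.add_apply, Finset.sum_add_distrib, Finset.sum_pi_single', Finset.mem_univ,
      if_true] at this
    omega
  have hsingle : ∀ j, II P (Pi.single j 1) = P j := by
    intro j
    unfold II
    rw [Finset.prod_eq_single j]
    · simp
    · intro i _ hij
      simp [Pi.single_eq_of_ne hij]
    · simp
  have hJP : ∀ j, ¬ J ≤ P j := by
    intro j hle
    by_cases hj : d j = 0
    · obtain ⟨i, hi, hij⟩ := exists_le_of_II_le (hC.prime j) d (hdJ.trans hle)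
      have hne' : i ≠ j := by rintro rfl; exact hi hj
      exact hC.inc i j hne' hij
    · apply hmax' j hj
      have : g ∈ II P n' * J := by
        rw [← hJ]; exact Ideal.mem_sup_right (Ideal.mem_span_singleton_self g)
      rw [II_add, hsingle]
      exact Ideal.mul_mono_right hle this
  have hJ0 : ZeroDim J := by
    intro Q hQ hJQ
    obtain ⟨i, _, hiQ⟩ := exists_le_of_II_le hQ d (hdJ.trans hJQ)
    refine hC.dim i Q hQ (lt_of_le_of_ne hiQ ?_)
    rintro rfl
    exact hJP i hJQ
  by_cases hn'0 : n' = 0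
  · -- zero-dimensional case
    subst hn'0
    rw [II_zero, one_mul] at hJ
    rw [zero_add] at hd
    rw [hJ] at hne ⊢
    obtain ⟨M, hM, hJM⟩ := Ideal.exists_le_maximal J hne
    obtain ⟨j, hj, hjM⟩ := exists_le_of_II_le hM.isPrime d (hdJ.trans hJM)
    have hgM : g ∈ M := by
      apply hJM
      rw [← hJ]; exact Ideal.mem_sup_right (Ideal.mem_span_singleton_self g)
    have hgP : g ∉ P j := by
      have := hmax' j hj
      rwa [zero_add, hsingle] at this
    have hne' : P j ⊔ span {g} ≠ ⊤ := by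
      intro htop
      apply hM.ne_top
      rw [eq_top_iff, ← htop]
      exact sup_le hjM ((span_singleton_le_iff_mem _).mpr hgM)
    obtain ⟨M₁, M₂, hM₁, hM₂, hM12, h1, h2⟩ := hC.h5 j g hgP hne'
    have hJle : J ≤ P j ⊔ span {g} := by
      rw [← hJ]
      refine sup_le_sup_right ?_ _
      rw [hd]
      exact II_le d j hj
    exact hJ0.moverWins hM₁ hM₂ hM12 (hJle.trans h1) (hJle.trans h2)
  · by_cases hJt : J = ⊤
    · subst hJt
      rw [Ideal.mul_top] at hJ
      have hgen : ∀ j, d j ≠ 0 → II P n' ≤ span {g} ⊔ P j * II P n' := by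
        intro j hj
        rw [← hJ]
        refine sup_le ?_ le_sup_left
        rw [hJ]
        refine le_sup_of_le_right ?_
        rw [hd, II_add, mul_comm]
        exact Ideal.mul_mono_left (II_le d j hj)
      obtain ⟨j₀, hj₀⟩ : ∃ j, d j ≠ 0 := by
        by_contra h
        push Not at h
        exact hd0 (funext h)
      have hmove : CMove n n' := by
        refine ⟨hn'0, ?_, n' j₀, ?_⟩
        · intro h
          apply hd0
          rw [h] at hd
          simpa using hd
        · intro k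
          by_cases hk : d k = 0
          · left
            rw [hd, Pi.add_apply, hk, add_zero]
          · right
            have hk' : n' k = n' j₀ := by
              by_cases hkj : k = j₀
              · rw [hkj]
              · exact hC.h4 n' g k j₀ hkj hgn' (hgen k hk) (hgen j₀ hj₀)
            refine ⟨hk', ?_⟩
            rw [hd, Pi.add_apply]
            omega
      rw [hJ]
      refine hC.cWins_moverWins ?_ (hCP n' hmove)
      intro m hm
      exact ih m (hm.trans hmove.sum_lt)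
    · rw [hJ]
      refine hC.zeroDim_moverWins hn'0 ?_ hJ0 hJt
      intro m hm
      refine ih m ?_
      have h1 : ∑ i, n i = ∑ i, n' i + ∑ i, d i := by
        rw [hd]; simp [Finset.sum_add_distrib]
      have h2 : 0 < ∑ i, d i := by
        obtain ⟨j₀, hj₀⟩ : ∃ j, d j ≠ 0 := by
          by_contra h
          push Not at h
          exact hd0 (funext h)
        exact Finset.sum_pos' (fun _ _ => Nat.zero_le _) ⟨j₀, Finset.mem_univ _, Nat.pos_of_ne_zero hj₀⟩
      omega

theorem Config.goodBelow (hC : Config P a) (N : ℕ) : GoodBelow P N := by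
  induction N with
  | zero => intro n hn; omega
  | succ N ih =>
    intro n hnN hn hCP
    refine hC.pPos_step hn ?_ hCP
    intro m hm
    exact ih m (by omega)

/-- Combinatorial `P`-positions give `P`-positions of Ideal Chomp. -/
theorem Config.pPos (hC : Config P a) {n : ι → ℕ} (hn : n ≠ 0) (hCP : CP n) : PPos (II P n) :=
  hC.goodBelow _ n (Nat.lt_succ_self _) hn hCP

end Main

end IdealChomp
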