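import Pool.Agent.Lib.MP_69b5dd_co.Defs

/-!
# Ideal Chomp: the combinatorial game (module COMB)
-/

namespace IdealChomp

theorem CWins.not_cp {ι : Type*} {n : ι → ℕ} (h : CWins n) : ¬ CP n := by
  induction h with
  | intro n n' h h' ih =>
    intro hcp
    obtain ⟨_, n'', h1, h2⟩ := hcp n' h
    exact ih n'' h1 h2

theorem CMove.sum_lt {ι : Type*} [Fintype ι] {n n' : ι → ℕ} (h : CMove n n') :
    ∑ j, n' j < ∑ j, n j := by
  obtain ⟨_, hne, c, hc⟩ := h
  obtain ⟨j, hj⟩ := Function.ne_iff.1 hne
  apply Finset.sum_lt_sum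
  · intro i _
    rcases hc i with h | ⟨h1, h2⟩ <;> omega
  · exact ⟨j, Finset.mem_univ _, by rcases hc j with h | ⟨h1, h2⟩ <;> omega⟩

theorem cwins_or_cp {ι : Type*} [Fintype ι] :
    ∀ (N : ℕ) (n : ι → ℕ), ∑ j, n j = N → CWins n ∨ CP n := by
  intro N
  induction N using Nat.strong_induction_on with
  | _ N ih =>
    intro n hn
    by_cases h : ∃ n', CMove n n' ∧ CP n'
    · obtain ⟨n', h1, h2⟩ := h
      exact Or.inl (CWins.intro n n' h1 h2)
    · push Not at h
      refine Or.inr fun n' hn' => ?_
      rcases ih _ (hn ▸ hn'.sum_lt) n' rfl with h' | h'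
      · exact h'
      · exact absurd h' (h n' hn')

section transfer

variable {ι κ : Type*} {f : ι → κ}

theorem CMove.zero_of_zero {n n' : κ → ℕ} (h : CMove n n') {k : κ} (hk : n k = 0) : n' k = 0 := by
  obtain ⟨_, _, c, hc⟩ := h
  rcases hc k with h | ⟨h1, h2⟩ <;> omega

theorem CMove.comp {n n' : κ → ℕ} (h : CMove n n')
    (h0 : ∀ k, k ∉ Set.range f → n k = 0) : CMove (n ∘ f) (n' ∘ f) := by
  have h0' : ∀ k, k ∉ Set.range f → n' k = 0 := fun k hk => h.zero_of_zero (h0 k hk)
  obtain ⟨h1, h2, c, hc⟩ := h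
  refine ⟨fun h => h1 ?_, fun h => h2 ?_, c, fun j => hc (f j)⟩
  · funext k
    by_cases hk : k ∈ Set.range f
    · obtain ⟨j, rfl⟩ := hk
      exact congrFun h j
    · exact h0' k hk
  · funext k
    by_cases hk : k ∈ Set.range f
    · obtain ⟨j, rfl⟩ := hk
      exact congrFun h j
    · rw [h0 k hk, h0' k hk]

theorem extend_comp' (hf : Function.Injective f) (m : ι → ℕ) :
    Function.extend f m (0 : κ → ℕ) ∘ f = m := by
  funext j
  exact hf.extend_apply _ _ j

theorem extend_of_comp {n : κ → ℕ} (hf : Function.Injective f)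
    (h0 : ∀ k, k ∉ Set.range f → n k = 0) :
    Function.extend f (n ∘ f) (0 : κ → ℕ) = n := by
  funext k
  by_cases hk : k ∈ Set.range f
  · obtain ⟨j, rfl⟩ := hk
    exact hf.extend_apply _ _ j
  · rw [Function.extend_apply' _ _ _ (by simpa using hk), h0 k hk]
    rfl

theorem CMove.extend (hf : Function.Injective f) {m m' : ι → ℕ} (h : CMove m m') :
    CMove (Function.extend f m (0 : κ → ℕ)) (Function.extend f m' (0 : κ → ℕ)) := by
  obtain ⟨h1, h2, c, hc⟩ := h
  refine ⟨fun h => h1 ?_, fun h => h2 ?_, c, fun k => ?_⟩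
  · have := congrArg (· ∘ f) h
    simp only [extend_comp' hf] at this
    rw [this]
    rfl
  · have := congrArg (· ∘ f) h
    simpa only [extend_comp' hf] using this
  · by_cases hk : k ∈ Set.range f
    · obtain ⟨j, rfl⟩ := hk
      simpa only [hf.extend_apply] using hc j
    · left
      rw [Function.extend_apply' _ _ _ (by simpa using hk),
        Function.extend_apply' _ _ _ (by simpa using hk)]

theorem extend_off (m : ι → ℕ) (k : κ) (hk : k ∉ Set.range f) :
    Function.extend f m (0 : κ → ℕ) k = 0 := by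
  rw [Function.extend_apply' _ _ _ (by simpa using hk)]
  rfl

theorem CWins.comp (hf : Function.Injective f) {n : κ → ℕ} (h : CWins n) :
    (∀ k, k ∉ Set.range f → n k = 0) → CWins (n ∘ f) := by
  induction h with
  | intro n n' h h' ih =>
    intro h0
    refine CWins.intro _ (n' ∘ f) (h.comp h0) fun m'' hm'' => ?_
    have h0' : ∀ k, k ∉ Set.range f → n' k = 0 := fun k hk => h.zero_of_zero (h0 k hk)
    have h3 := hm''.extend (f := f) hf
    rw [extend_of_comp hf h0'] at h3
    have := ih _ h3 (extend_off m'')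
    rwa [extend_comp' hf] at this

theorem CWins.extend (hf : Function.Injective f) {m : ι → ℕ} (h : CWins m) :
    CWins (Function.extend f m (0 : κ → ℕ)) := by
  induction h with
  | intro m m' h h' ih =>
    refine CWins.intro _ (Function.extend f m' (0 : κ → ℕ)) (h.extend hf) fun n'' hn'' => ?_
    have h0 : ∀ k, k ∉ Set.range f → n'' k = 0 :=
      fun k hk => hn''.zero_of_zero (extend_off m' k hk)
    have h3 := hn''.comp (f := f) (extend_off m')
    rw [extend_comp' hf] at h3
    have := ih _ h3
    rwa [extend_of_comp hf h0] at this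

theorem CP.comp_iff (hf : Function.Injective f) {n : κ → ℕ}
    (h0 : ∀ k, k ∉ Set.range f → n k = 0) : CP (n ∘ f) ↔ CP n := by
  constructor
  · intro h n' hn'
    have h0' : ∀ k, k ∉ Set.range f → n' k = 0 := fun k hk => hn'.zero_of_zero (h0 k hk)
    have := (h (n' ∘ f) (hn'.comp h0)).extend (f := f) hf
    rwa [extend_of_comp hf h0'] at this
  · intro h m' hm'
    have h3 := hm'.extend (f := f) hf
    rw [extend_of_comp hf h0] at h3
    have := (h _ h3).comp hf (extend_off m')
    rwa [extend_comp' hf] at this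

end transfer

/-- standard form of the position with `v i` entries equal to `i + 1`. -/
def stdPos {e : ℕ} (v : Fin e → ℕ) : Fin e × ℕ → ℕ := fun k => if k.2 < v k.1 then k.1 + 1 else 0

/-- number of entries equal to `i + 1`. -/
def cnt {m : ℕ} (e : ℕ) (n : Fin m → ℕ) : Fin e → ℕ :=
  fun i => Fintype.card {j : Fin m // n j = i + 1}

theorem cp_iff_stdPos {m e : ℕ} (n : Fin m → ℕ) (hn : ∀ j, n j ≤ e) :
    CP n ↔ CP (stdPos (cnt e n)) := by
  classical
  -- restriction to nonzero entries
  have h1 : CP (n ∘ (Subtype.val : {j : Fin m // n j ≠ 0} → Fin m)) ↔ CP n := by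
    refine CP.comp_iff Subtype.val_injective fun k hk => ?_
    by_contra hk'
    exact hk ⟨⟨k, hk'⟩, rfl⟩
  let E : ∀ i : Fin e, {j : Fin m // n j = i + 1} ≃ Fin (cnt e n i) :=
    fun i => Fintype.equivFin _
  have hpos : ∀ j : {j : Fin m // n j ≠ 0}, n j - 1 < e := fun j => by
    have := hn j; have := j.2; omega
  let g : {j : Fin m // n j ≠ 0} → Fin e × ℕ := fun j =>
    (⟨n j - 1, hpos j⟩, (E ⟨n j - 1, hpos j⟩ ⟨j, by have := j.2; simp; omega⟩ : ℕ))
  have hginj : Function.Injective g := by
    intro j j' hjj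
    simp only [g, Prod.mk.injEq, Fin.mk.injEq] at hjj
    obtain ⟨ha, hb⟩ := hjj
    have hn' : n j = n j' := by
      have := j.2; have := j'.2; omega
    have key : ∀ (a b : Fin e) (hab : a = b) (p : {j : Fin m // n j = a + 1})
        (q : {j : Fin m // n j = b + 1}), (E a p : ℕ) = (E b q : ℕ) → (p : Fin m) = q := by
      rintro a _ rfl p q hpq
      have := (E a).injective (Fin.ext hpq)
      rw [this]
    exact Subtype.ext (key _ _ (Fin.ext ha) _ _ hb)
  have hgcomp : stdPos (cnt e n) ∘ g = n ∘ Subtype.val := by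
    funext j
    simp only [Function.comp, stdPos, g]
    rw [if_pos (Fin.isLt _)]
    have := j.2
    omega
  have h2 : CP (stdPos (cnt e n) ∘ g) ↔ CP (stdPos (cnt e n)) := by
    refine CP.comp_iff hginj fun k hk => ?_
    obtain ⟨i, t⟩ := k
    simp only [stdPos]
    rw [if_neg]
    intro ht
    apply hk
    obtain ⟨p, hp⟩ := (E i).surjective ⟨t, ht⟩
    have hp0 : n p ≠ 0 := by rw [p.2]; omega
    refine ⟨⟨p, hp0⟩, ?_⟩
    simp only [g, Prod.mk.injEq]
    have hi : (⟨n p - 1, hpos ⟨p, hp0⟩⟩ : Fin e) = i := by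
      apply Fin.ext
      simp [p.2]
    refine ⟨hi, ?_⟩
    have key : ∀ (a b : Fin e) (hab : a = b) (p : {j : Fin m // n j = a + 1})
        (q : {j : Fin m // n j = b + 1}), (p : Fin m) = q → (E a p : ℕ) = (E b q : ℕ) := by
      rintro a _ rfl p q hpq
      rw [Subtype.ext hpq]
    rw [key _ i hi _ p rfl, hp]
  rw [← h1, ← hgcomp, h2]

theorem comb : CombStatement := by
  classical
  intro e he
  by_contra hcon
  push Not at hcon
  -- the counts vector of `e^m`
  have hsum : ∀ {m : ℕ} (n : Fin m → ℕ), (∀ j, 1 ≤ n j) → (∀ j, n j ≤ e) →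
      ∑ i, cnt e n i = m := by
    intro m n h1 h2
    have : Fintype.card (Σ i : Fin e, {j : Fin m // n j = i + 1}) = m := by
      refine (Fintype.card_congr (β := Fin m)
        { toFun := fun x => x.2.1
          invFun := fun j => ⟨⟨n j - 1, by have := h1 j; have := h2 j; omega⟩, ⟨j, by
            have := h1 j; simp; omega⟩⟩
          left_inv := ?_
          right_inv := fun j => rfl }).trans (Fintype.card_fin m)
      rintro ⟨i, j, hj⟩
      have key : ∀ (a b : Fin e) (hab : a = b) (ha : n j = a + 1) (hb : n j = b + 1),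
          (⟨a, ⟨j, ha⟩⟩ : Σ i : Fin e, {j : Fin m // n j = i + 1}) = ⟨b, ⟨j, hb⟩⟩ := by
        rintro a _ rfl ha hb
        rfl
      exact key _ _ (Fin.ext (by simp [hj])) _ _
    rw [Fintype.card_sigma] at this
    exact this
  have key : ∀ m : ℕ, ∃ v : Fin e → ℕ, CP (stdPos v) ∧ ∑ i, v i = m + 1 := by
    intro m
    have h1 := hcon (m + 1) (by omega)
    have h2 : CWins (fun _ : Fin (m + 1) => e) := by
      rcases cwins_or_cp _ (fun _ : Fin (m + 1) => e) rfl with h | h
      · exact h
      · exact absurd h h1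
    obtain ⟨_, n', hm, hp⟩ := h2
    have hle : ∀ j, n' j ≤ e := by
      obtain ⟨_, _, c, hc⟩ := hm
      intro j
      rcases hc j with h | ⟨h1, h2⟩
      · exact h.le
      · exact h1.le.trans h2.le
    obtain ⟨hm1, hm2, c, hc⟩ := hm
    rcases Nat.eq_zero_or_pos c with hc0 | hc0
    · exfalso
      subst hc0
      -- entries `0` or `e`
      let s := {j : Fin (m + 1) // n' j ≠ 0}
      let k := Fintype.card s
      let F : Fin k → Fin (m + 1) := fun i => ((Fintype.equivFin s).symm i).1
      have hF : Function.Injective F :=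
        Subtype.val_injective.comp (Fintype.equivFin s).symm.injective
      have h3 : CP (n' ∘ F) := by
        rw [CP.comp_iff hF]
        · exact hp
        · intro j hj
          by_contra hj'
          exact hj ⟨Fintype.equivFin s ⟨j, hj'⟩, by simp [F]⟩
      have h4 : n' ∘ F = fun _ : Fin k => e := by
        funext i
        have h5 := ((Fintype.equivFin s).symm i).2
        rcases hc (F i) with h | ⟨h, _⟩
        · exact h
        · exact absurd h h5
      have hk : 1 ≤ k := by
        obtain ⟨j, hj⟩ := Function.ne_iff.1 hm1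
        exact Fintype.card_pos_iff.2 ⟨⟨j, hj⟩⟩
      rw [h4] at h3
      exact hcon k hk h3
    · refine ⟨cnt e n', (cp_iff_stdPos n' hle).1 hp, hsum n' (fun j => ?_) hle⟩
      rcases hc j with h | ⟨h1, h2⟩
      · exact he.trans h.ge
      · omega
  choose v hv1 hv2 using key
  obtain ⟨i, j, hij, hle⟩ := (wellQuasiOrdered_le (α := Fin e → ℕ)) v
  have hne : v i ≠ v j := fun h => by
    have := hv2 i
    rw [h, hv2 j] at this
    omega
  have hmove : CMove (stdPos (v j)) (stdPos (v i)) := by
    refine ⟨?_, ?_, 0, fun k => ?_⟩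
    · intro h0
      have hpos : 0 < ∑ a, v i a := by rw [hv2 i]; omega
      obtain ⟨a, _, ha⟩ := Finset.exists_ne_zero_of_sum_ne_zero hpos.ne'
      have := congrFun h0 (a, 0)
      simp [stdPos, Nat.pos_of_ne_zero ha] at this
    · intro h0
      apply hne
      funext a
      apply le_antisymm (hle a)
      by_contra hlt
      push Not at hlt
      have := congrFun h0 (a, v i a)
      simp [stdPos, hlt] at this
    · simp only [stdPos]
      by_cases h1 : k.2 < v i k.1
      · left
        rw [if_pos h1, if_pos (lt_of_lt_of_le h1 (hle k.1))]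
      · by_cases h2 : k.2 < v j k.1
        · right
          rw [if_neg h1, if_pos h2]
          exact ⟨rfl, Nat.succ_pos _⟩
        · left
          rw [if_neg h1, if_neg h2]
  exact (hv1 j _ hmove).not_cp (hv1 i)

end IdealChomp
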