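import Pool.Agent.Lib.MP_69b5dd_co.Defs

/-!
# Ideal Chomp: adapted coordinates (module COORD)

The first section is a copy of the (private) lemmas of
`Mathlib.RingTheory.NoetherNormalization` (Nagata's trick).
-/

universe u

namespace IdealChomp

namespace Nagata

open Polynomial MvPolynomial Ideal Nat RingHom List

variable {k : Type*} [Field k] {n : ℕ} (f : MvPolynomial (Fin (n + 1)) k)
variable (v w : Fin (n + 1) →₀ ℕ)

section equivT

variable {f v} in
theorem lt_up (vlt : ∀ i, v i < (2 + f.totalDegree)) : ∀ l ∈ ofFn v, l < (2 + f.totalDegree) := by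
  grind

/-- We construct an algebra map `T1 f c` which maps `X_i` into `X_i + c • X_0 ^ r_i` when `i ≠ 0`
and `X_0` to `X_0`. -/
noncomputable abbrev T1 (c : k) :
    MvPolynomial (Fin (n + 1)) k →ₐ[k] MvPolynomial (Fin (n + 1)) k :=
  aeval fun i ↦ if i = 0 then X 0 else X i + c • X 0 ^ ((2 + f.totalDegree) ^ i.1)

theorem t1_comp_t1_neg (c : k) : (T1 f c).comp (T1 f (-c)) = AlgHom.id _ _ := by
  rw [comp_aeval, ← MvPolynomial.aeval_X_left]
  ext i v
  cases i using Fin.cases <;> simp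

/-- `T1 f 1` leads to an algebra equiv `T f`. -/
noncomputable abbrev T := AlgEquiv.ofAlgHom (T1 f 1) (T1 f (-1))
  (t1_comp_t1_neg f 1) (by simpa using t1_comp_t1_neg f (-1))

theorem sum_r_mul_ne (vlt : ∀ i, v i < (2 + f.totalDegree)) (wlt : ∀ i, w i < (2 + f.totalDegree))
    (ne : v ≠ w) : ∑ x : Fin (n + 1), (2 + f.totalDegree) ^ x.1 * v x ≠
      ∑ x : Fin (n + 1), (2 + f.totalDegree) ^ x.1 * w x := by
  intro h
  refine ne <| Finsupp.ext <| congrFun <| ofFn_inj.mp ?_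
  apply ofDigits_inj_of_len_eq (Nat.lt_add_right f.totalDegree one_lt_two)
    (by simp) (lt_up vlt) (lt_up wlt)
  simpa only [ofDigits_eq_sum_mapIdx, mapIdx_eq_ofFn, get_ofFn, length_ofFn,
    Fin.val_cast, mul_comm, sum_ofFn] using! h

theorem degreeOf_zero_t {a : k} (ha : a ≠ 0) : ((T f) (monomial v a)).degreeOf 0 =
    ∑ i : Fin (n + 1), (2 + f.totalDegree) ^ i.1 * v i := by
  rw [← natDegree_finSuccEquiv, monomial_eq, Finsupp.prod_pow v fun a ↦ X a]
  simp only [Fin.prod_univ_succ, Fin.sum_univ_succ, map_mul, map_prod, map_pow,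
    AlgEquiv.ofAlgHom_apply, MvPolynomial.aeval_C, MvPolynomial.aeval_X, if_pos, Fin.succ_ne_zero,
    ite_false, one_smul, map_add, finSuccEquiv_X_zero, finSuccEquiv_X_succ, algebraMap_eq]
  have h (i : Fin n) :
      (Polynomial.C (X (R := k) i) + Polynomial.X ^ ((2 + f.totalDegree) ^ i.succ.1)) ^ v i.succ ≠ 0 :=
    pow_ne_zero (v i.succ) (leadingCoeff_ne_zero.mp <| by simp [add_comm, leadingCoeff_X_pow_add_C])
  rw [natDegree_mul (by simp [ha]) (mul_ne_zero (by simp) (Finset.prod_ne_zero_iff.mpr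
    (fun i _ ↦ h i))), natDegree_mul (by simp) (Finset.prod_ne_zero_iff.mpr (fun i _ ↦ h i)),
    natDegree_prod _ _ (fun i _ ↦ h i), natDegree_finSuccEquiv, degreeOf_C]
  simpa only [natDegree_pow, zero_add, natDegree_X, mul_one, Fin.val_zero, pow_zero, one_mul,
    add_right_inj] using Finset.sum_congr rfl (fun i _ ↦ by
    rw [add_comm (Polynomial.C _), natDegree_X_pow_add_C, mul_comm])

/-- `T` maps different monomials of `f` to polynomials with different degrees in `X_0`. -/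
theorem degreeOf_t_ne_of_ne (hv : v ∈ f.support) (hw : w ∈ f.support) (ne : v ≠ w) :
    (T f <| monomial v <| coeff v f).degreeOf 0 ≠
    (T f <| monomial w <| coeff w f).degreeOf 0 := by
  rw [degreeOf_zero_t _ _ <| mem_support_iff.mp hv, degreeOf_zero_t _ _ <| mem_support_iff.mp hw]
  refine sum_r_mul_ne f v w (fun i ↦ ?_) (fun i ↦ ?_) ne <;>
  exact lt_of_le_of_lt ((monomial_le_degreeOf i ‹_›).trans (degreeOf_le_totalDegree f i))
    (by lia)

theorem leadingCoeff_finSuccEquiv_t :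
    (finSuccEquiv k n ((T f) ((monomial v) (coeff v f)))).leadingCoeff =
    algebraMap k _ (coeff v f) := by
  rw [monomial_eq, Finsupp.prod_fintype]
  · simp only [map_mul, map_prod, leadingCoeff_mul, leadingCoeff_prod]
    rw [AlgEquiv.ofAlgHom_apply, algHom_C, algebraMap_eq, finSuccEquiv_apply,
      eval₂Hom_C, coe_comp]
    simp only [AlgEquiv.ofAlgHom_apply, Function.comp_apply, leadingCoeff_C, map_pow,
      leadingCoeff_pow, algebraMap_eq]
    have : ∀ j, ((finSuccEquiv k n) ((T1 f) 1 (X j))).leadingCoeff = 1 := fun j ↦ by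
      by_cases h : j = 0
      · simp [h, finSuccEquiv_apply]
      · simp only [aeval_eq_bind₁, bind₁_X_right, if_neg h, one_smul, map_add, map_pow]
        obtain ⟨i, rfl⟩ := Fin.exists_succ_eq.mpr h
        simp [finSuccEquiv_X_succ, finSuccEquiv_X_zero, add_comm]
    simp only [this, one_pow, Finset.prod_const_one, mul_one]
  exact fun i ↦ pow_zero _

/-- `T` maps `f` into some polynomial in `X_0` such that the leading coefficient is invertible. -/
theorem T_leadingcoeff_isUnit (fne : f ≠ 0) :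
    IsUnit (finSuccEquiv k n (T f f)).leadingCoeff := by
  obtain ⟨v, vin, vs⟩ := Finset.exists_max_image f.support
    (fun v ↦ (T f ((monomial v) (coeff v f))).degreeOf 0) (support_nonempty.mpr fne)
  set h := fun w ↦ (MvPolynomial.monomial w) (coeff w f)
  simp only [← natDegree_finSuccEquiv] at vs
  replace vs : ∀ x ∈ f.support \ {v}, (finSuccEquiv k n ((T f) (h x))).degree <
      (finSuccEquiv k n ((T f) (h v))).degree := by
    intro x hx
    obtain ⟨h1, h2⟩ := Finset.mem_sdiff.mp hx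
    apply degree_lt_degree <| lt_of_le_of_ne (vs x h1) ?_
    simpa only [natDegree_finSuccEquiv]
      using degreeOf_t_ne_of_ne f _ _ h1 vin <| ne_of_not_mem_cons h2
  have coeff : (finSuccEquiv k n ((T f) (h v + ∑ x ∈ f.support \ {v}, h x))).leadingCoeff =
      (finSuccEquiv k n ((T f) (h v))).leadingCoeff := by
    simp only [map_add, map_sum]
    rw [add_comm]
    apply leadingCoeff_add_of_degree_lt <| (lt_of_le_of_lt <| degree_sum_le _ _) ?_
    have h2 : h v ≠ 0 := by simpa [h] using mem_support_iff.mp vin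
    replace h2 : (finSuccEquiv k n ((T f) (h v))) ≠ 0 := fun eq ↦ h2 <|
      by simpa only [map_eq_zero_iff _ (AlgEquiv.injective _)] using eq
    exact (Finset.sup_lt_iff <| Ne.bot_lt (fun x ↦ h2 <| degree_eq_bot.mp x)).mpr vs
  nth_rw 2 [← f.support_sum_monomial_coeff]
  rw [Finset.sum_eq_add_sum_sdiff_singleton_of_mem vin h]
  rw [leadingCoeff_finSuccEquiv_t] at coeff
  simpa only [coeff, algebraMap_eq] using (mem_support_iff.mp vin).isUnit.map MvPolynomial.C

end equivT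

end Nagata

open Polynomial

/-- Nagata's trick. -/
theorem exists_unit_leadingCoeff {k : Type*} [Field k] (n : ℕ) (f : MvPolynomial (Fin (n + 1)) k)
    (hf : f ≠ 0) : ∃ T : MvPolynomial (Fin (n + 1)) k ≃ₐ[k] MvPolynomial (Fin (n + 1)) k,
      IsUnit (MvPolynomial.finSuccEquiv k n (T f)).leadingCoeff :=
  ⟨Nagata.T f, Nagata.T_leadingcoeff_isUnit f hf⟩

theorem exists_const {A : Type*} [CommRing A] [IsDomain A] (a b : A[X]) (ha : a.Monic)
    (hp : Prime a) (hab : ¬ a ∣ b) : ∃ (β : A) (r s : A[X]), β ≠ 0 ∧ C β = r * a + s * b := by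
  have := AdjoinRoot.isDomain_of_prime hp
  have := ha.finite_adjoinRoot
  have hb : AdjoinRoot.mk a b ≠ 0 := by
    rwa [Ne, AdjoinRoot.mk_eq_zero]
  have hint : IsIntegral A (AdjoinRoot.mk a b) := Algebra.IsIntegral.isIntegral _
  obtain ⟨β, hβ, h⟩ := hint.isAlgebraic.exists_nonzero_dvd (mem_nonZeroDivisors_of_ne_zero hb)
  obtain ⟨t, ht⟩ := h
  obtain ⟨s, rfl⟩ := AdjoinRoot.mk_surjective t
  have h1 : AdjoinRoot.mk a (C β - b * s) = 0 := by
    rw [map_sub, map_mul, ← ht]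
    simp [AdjoinRoot.algebraMap_eq]
  rw [AdjoinRoot.mk_eq_zero] at h1
  obtain ⟨r, hr⟩ := h1
  exact ⟨β, r, s, hβ, by linear_combination hr⟩

/-- `K[x₁, x₂] ≃ K[x][y]`, from `finSuccEquiv`. -/
noncomputable def biv (K : Type u) [Field K] : MvPolynomial (Fin 2) K ≃ₐ[K] K[X][X] :=
  (MvPolynomial.finSuccEquiv K 1).trans
    (Polynomial.mapAlgEquiv (MvPolynomial.uniqueAlgEquiv K (Fin 1)))

theorem coord {K : Type u} [Field K] : CoordStatement K := by
  intro f hf hfu
  obtain ⟨p, hp, hpf⟩ := WfDvdMonoid.exists_irreducible_factor hfu hf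
  have hprime : Prime p := hp.prime
  have hfin : FiniteMultiplicity p f := FiniteMultiplicity.of_prime_left hprime hf
  obtain ⟨q, hq, hpq⟩ := hfin.exists_eq_pow_mul_and_not_dvd
  set e := multiplicity p f with he
  have he1 : 1 ≤ e := by
    rw [Nat.one_le_iff_ne_zero, he, multiplicity_ne_zero]
    exact hpf
  obtain ⟨T, hT⟩ := exists_unit_leadingCoeff 2 p hp.ne_zero
  set Φ₁ : MvPolynomial (Fin 3) K ≃ₐ[K] (MvPolynomial (Fin 2) K)[X] :=
    T.trans (MvPolynomial.finSuccEquiv K 2) with hΦ₁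
  obtain ⟨u, hu⟩ := hT
  set a₁ : (MvPolynomial (Fin 2) K)[X] := C (↑u⁻¹ : MvPolynomial (Fin 2) K) * Φ₁ p with ha₁
  set b₁ : (MvPolynomial (Fin 2) K)[X] := C ((u : MvPolynomial (Fin 2) K) ^ e) * Φ₁ q with hb₁
  have hCu : C (↑u⁻¹ : MvPolynomial (Fin 2) K) * C (u : MvPolynomial (Fin 2) K) = 1 := by
    rw [← C_mul, Units.inv_mul, C_1]
  have hunit : IsUnit (C (↑u⁻¹ : MvPolynomial (Fin 2) K)) := by
    rw [Polynomial.isUnit_C]
    exact Units.isUnit _
  have hmon : a₁.Monic := by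
    rw [Monic, ha₁, leadingCoeff_mul, leadingCoeff_C]
    have : (Φ₁ p).leadingCoeff = u := by rw [hu]; rfl
    rw [this, Units.inv_mul]
  have hpa : Prime a₁ := by
    have h1 : Prime (Φ₁ p) := (MulEquiv.prime_iff Φ₁).2 hprime
    have h2 : Associated (Φ₁ p) a₁ := (associated_unit_mul_right _ _ hunit)
    exact h2.prime h1
  have hΦf : Φ₁ f = a₁ ^ e * b₁ := by
    rw [hq, map_mul, map_pow, ha₁, hb₁, mul_pow, C_pow]
    have : (C (↑u⁻¹ : MvPolynomial (Fin 2) K)) ^ e * C (u : MvPolynomial (Fin 2) K) ^ e = 1 := by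
      rw [← mul_pow, hCu, one_pow]
    linear_combination (-(Φ₁ p ^ e * Φ₁ q)) * this
  have hab : ¬ a₁ ∣ b₁ := by
    intro h
    apply hpq
    have h1 : Φ₁ p ∣ Φ₁ q := by
      have h2 : Φ₁ p ∣ a₁ := Dvd.intro_left _ rfl
      have h3 : b₁ ∣ Φ₁ q := by
        refine ⟨C (↑u⁻¹ : MvPolynomial (Fin 2) K) ^ e, ?_⟩
        rw [hb₁, C_pow]
        have : (C (↑u⁻¹ : MvPolynomial (Fin 2) K)) ^ e * C (u : MvPolynomial (Fin 2) K) ^ e = 1 := by
          rw [← mul_pow, hCu, one_pow]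
        linear_combination (-(Φ₁ q)) * this
      exact h2.trans (h.trans h3)
    exact (map_dvd_iff Φ₁).1 h1
  obtain ⟨β₁, r₁, s₁, hβ₁, heq⟩ := exists_const a₁ b₁ hmon hpa hab
  obtain ⟨T₂, hT₂⟩ := exists_unit_leadingCoeff 1 β₁ hβ₁
  obtain ⟨w, hw⟩ := hT₂
  set Ψ : MvPolynomial (Fin 2) K ≃ₐ[K] K[X][X] := T₂.trans (biv K) with hΨ
  have hlc : IsUnit (Ψ β₁).leadingCoeff := by
    have h1 : Ψ β₁ = (MvPolynomial.finSuccEquiv K 1 (T₂ β₁)).map
        (MvPolynomial.uniqueAlgEquiv K (Fin 1) : MvPolynomial (Fin 1) K →+* K[X]) := rfl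
    rw [h1, leadingCoeff_map_of_injective (MvPolynomial.uniqueAlgEquiv K (Fin 1)).injective, ← hw]
    exact w.isUnit.map _
  obtain ⟨c, hc⟩ := hlc
  have hne : Ψ β₁ ≠ 0 := by
    rw [Ne, EmbeddingLike.map_eq_zero_iff]
    exact hβ₁
  set M : (MvPolynomial (Fin 2) K)[X] ≃ₐ[K] K[X][X][X] := Polynomial.mapAlgEquiv Ψ with hM
  refine ⟨((Φ₁.trans M) : MvPolynomial (Fin 3) K ≃+* K[X][X][X]),
    M a₁,
    M b₁, e,
    C (↑c⁻¹ : K[X]) * Ψ β₁ * X,
    C (C (↑c⁻¹ : K[X]) * X) * M r₁,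
    C (C (↑c⁻¹ : K[X]) * X) * M s₁,
    he1, ?_, ?_, ?_, ?_, ?_, ?_⟩
  · change M (Φ₁ f) = _
    rw [hΦf, map_mul, map_pow]
  · exact comap_prime (M.symm : K[X][X][X] →+* (MvPolynomial (Fin 2) K)[X])
      (M : (MvPolynomial (Fin 2) K)[X] →+* K[X][X][X]) (by simp) (by simpa using hpa)
  · exact hmon.map _
  · rw [Monic, leadingCoeff_mul, leadingCoeff_mul, leadingCoeff_C, leadingCoeff_X, ← hc]
    simp
  · rw [natDegree_mul_X]
    · omega
    · refine mul_ne_zero ?_ hne
      rw [Ne, C_eq_zero]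
      exact Units.ne_zero _
  · have h1 := congrArg (M) heq
    rw [map_add, map_mul _ r₁ a₁, map_mul _ s₁ b₁] at h1
    have h2 : M (C β₁) = C (Ψ β₁) := by
      simp [hM]
    rw [h2] at h1
    have h3 : (C (C (↑c⁻¹ : K[X]) * Ψ β₁ * X) : K[X][X][X]) =
        C (C (↑c⁻¹ : K[X]) * X) * C (Ψ β₁) := by
      rw [← C_mul]
      congr 1
      ring
    rw [h3, h1]
    ring

end IdealChomp
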