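import Pool.Agent.Lib.MP_69b5dd_co.Defs

/-!
# Elementary geometry: dimension, points, intersections of plane curves
-/

set_option linter.unusedSectionVars false

namespace IdealChomp

open Polynomial
open scoped Polynomial.Bivariate

universe u

section Dim

variable {R : Type*} [CommRing R]

theorem no_chain3 (hdim : ringKrullDim R ≤ 2) {p₀ p₁ p₂ p₃ : Ideal R} (h₀ : p₀.IsPrime)
    (h₁ : p₁.IsPrime) (h₂ : p₂.IsPrime) (h₃ : p₃.IsPrime) (h01 : p₀ < p₁) (h12 : p₁ < p₂)
    (h23 : p₂ < p₃) : False := by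
  let s : LTSeries (PrimeSpectrum R) :=
    ⟨3, ![⟨p₀, h₀⟩, ⟨p₁, h₁⟩, ⟨p₂, h₂⟩, ⟨p₃, h₃⟩], by
      intro i
      fin_cases i
      · exact h01
      · exact h12
      · exact h23⟩
  have h := (Order.LTSeries.length_le_krullDim s).trans hdim
  have : ((3 : ℕ) : WithBot ℕ∞) ≤ ((2 : ℕ) : WithBot ℕ∞) := h
  have h2 : (3 : ℕ) ≤ 2 := by exact_mod_cast this
  omega

theorem no_chain4 (hdim : ringKrullDim R ≤ 3) {p₀ p₁ p₂ p₃ p₄ : Ideal R} (h₀ : p₀.IsPrime)
    (h₁ : p₁.IsPrime) (h₂ : p₂.IsPrime) (h₃ : p₃.IsPrime) (h₄ : p₄.IsPrime) (h01 : p₀ < p₁)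
    (h12 : p₁ < p₂) (h23 : p₂ < p₃) (h34 : p₃ < p₄) : False := by
  let s : LTSeries (PrimeSpectrum R) :=
    ⟨4, ![⟨p₀, h₀⟩, ⟨p₁, h₁⟩, ⟨p₂, h₂⟩, ⟨p₃, h₃⟩, ⟨p₄, h₄⟩], by
      intro i
      fin_cases i
      · exact h01
      · exact h12
      · exact h23
      · exact h34⟩
  have h := (Order.LTSeries.length_le_krullDim s).trans hdim
  have : ((4 : ℕ) : WithBot ℕ∞) ≤ ((3 : ℕ) : WithBot ℕ∞) := h
  have h2 : (4 : ℕ) ≤ 3 := by exact_mod_cast this
  omega

theorem dim2 (K : Type u) [Field K] : ringKrullDim K[X][X] = 2 := by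
  rw [Polynomial.ringKrullDim_of_isNoetherianRing, Polynomial.ringKrullDim_of_isNoetherianRing,
    ringKrullDim_eq_zero_of_field]
  norm_num

theorem dim3 (K : Type u) [Field K] : ringKrullDim K[X][X][X] = 3 := by
  rw [Polynomial.ringKrullDim_of_isNoetherianRing, dim2]
  norm_num

end Dim

section Points

variable {K : Type u} [Field K] [IsAlgClosed K]

/-- Maximal ideals of `K[X][Y]` consist of functions vanishing at a point. -/
theorem null (M : Ideal K[X][Y]) (hM : M.IsMaximal) :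
    ∃ x y : K, ∀ ν ∈ M, ν.evalEval x y = 0 := by
  let _ := Ideal.Quotient.field M
  have hft : Algebra.FiniteType K (K[X][Y]) := by
    have h1 : Algebra.FiniteType K K[X] := inferInstance
    have h2 : Algebra.FiniteType K[X] K[X][Y] := inferInstance
    exact Algebra.FiniteType.trans h1 h2
  have hft' : Algebra.FiniteType K (K[X][Y] ⧸ M) :=
    Algebra.FiniteType.of_surjective (Ideal.Quotient.mkₐ K M) Ideal.Quotient.mk_surjective
  have hfin : Module.Finite K (K[X][Y] ⧸ M) := finite_of_finite_type_of_isJacobsonRing K _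
  have hbij := IsAlgClosed.algebraMap_bijective_of_isIntegral (k := K) (K := K[X][Y] ⧸ M)
  let e : K ≃+* (K[X][Y] ⧸ M) := RingEquiv.ofBijective (algebraMap K (K[X][Y] ⧸ M)) hbij
  let χ : K[X][Y] →+* K := (e.symm : (K[X][Y] ⧸ M) →+* K).comp (Ideal.Quotient.mk M)
  have hχC : ∀ c : K, χ (C (C c)) = c := by
    intro c
    show e.symm (Ideal.Quotient.mk M (C (C c))) = c
    rw [RingEquiv.symm_apply_eq]
    rfl
  have hχ : χ = evalEvalRingHom (χ (C X)) (χ X) := by
    apply Polynomial.ringHom_ext'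
    · apply Polynomial.ringHom_ext
      · intro c
        simp [hχC]
      · simp
    · simp
  refine ⟨χ (C X), χ X, ?_⟩
  intro ν hν
  rw [← coe_evalEvalRingHom, ← hχ]
  show e.symm (Ideal.Quotient.mk M ν) = 0
  rw [Ideal.Quotient.eq_zero_iff_mem.mpr hν, map_zero]

theorem ker_evalEval_isMaximal (x y : K) :
    (RingHom.ker (evalEvalRingHom x y)).IsMaximal := by
  apply RingHom.ker_isMaximal_of_surjective
  intro c
  exact ⟨C (C c), by simp⟩

theorem ker_evalEval_inj {x y x' y' : K}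
    (h : RingHom.ker (evalEvalRingHom x y) = RingHom.ker (evalEvalRingHom x' y')) :
    x = x' ∧ y = y' := by
  constructor
  · have h1 : (C (X - C x) : K[X][Y]) ∈ RingHom.ker (evalEvalRingHom x y) := by
      rw [RingHom.mem_ker]; simp
    rw [h, RingHom.mem_ker] at h1
    simp at h1
    exact (sub_eq_zero.mp h1).symm
  · have h1 : (X - C (C y) : K[X][Y]) ∈ RingHom.ker (evalEvalRingHom x y) := by
      rw [RingHom.mem_ker]; simp
    rw [h, RingHom.mem_ker] at h1
    simp at h1
    exact (sub_eq_zero.mp h1).symm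

/-- Two plane curves without common component have finitely many common points. -/
theorem finite_inter {A B : K[X][Y]} (hA : Prime A) (hB : ¬ A ∣ B) :
    {w : K × K | A.evalEval w.1 w.2 = 0 ∧ B.evalEval w.1 w.2 = 0}.Finite := by
  set I : Ideal K[X][Y] := Ideal.span {A} ⊔ Ideal.span {B} with hI
  have hfin := I.finite_minimalPrimes_of_isNoetherianRing
  refine Set.Finite.of_finite_image (f := fun w : K × K =>
    RingHom.ker (evalEvalRingHom w.1 w.2)) (hfin.subset ?_) ?_
  · rintro _ ⟨w, ⟨hwA, hwB⟩, rfl⟩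
    have hmax := ker_evalEval_isMaximal (K := K) w.1 w.2
    have hle : I ≤ RingHom.ker (evalEvalRingHom w.1 w.2) := by
      rw [hI, sup_le_iff, Ideal.span_singleton_le_iff_mem, Ideal.span_singleton_le_iff_mem]
      exact ⟨hwA, hwB⟩
    refine ⟨⟨hmax.isPrime, hle⟩, ?_⟩
    rintro q ⟨hq, hIq⟩ hqle
    by_contra hcon
    have hlt : q < RingHom.ker (evalEvalRingHom w.1 w.2) := lt_of_le_not_ge hqle hcon
    have hAprime : (Ideal.span {A}).IsPrime :=
      (Ideal.span_singleton_prime hA.ne_zero).mpr hA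
    refine no_chain3 (dim2 K).le (p₀ := ⊥) (p₁ := Ideal.span {A}) (p₂ := q) Ideal.isPrime_bot
      hAprime hq hmax.isPrime ?_ ?_ hlt
    · rw [bot_lt_iff_ne_bot]
      intro h
      exact hA.ne_zero (Ideal.span_singleton_eq_bot.mp h)
    · refine lt_of_le_of_ne (le_sup_left.trans hIq) ?_
      intro h
      apply hB
      rw [← Ideal.mem_span_singleton, h]
      exact hIq (Ideal.mem_sup_right (Ideal.mem_span_singleton_self B))
  · intro w _ w' _ h
    obtain ⟨h1, h2⟩ := ker_evalEval_inj h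
    exact Prod.ext h1 h2

end Points

end IdealChomp
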