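import Pool.Agent.Lib.MP_69b5dd_co.Norm
import Pool.Agent.Lib.MP_69b5dd_co.Geom

/-!
# The curves in a finite free extension `S` of `K[X][Y]`
-/

set_option linter.unusedSectionVars false

namespace IdealChomp

open Polynomial
open scoped Polynomial.Bivariate

universe u v

variable {K : Type u} [Field K] [CharZero K] [IsAlgClosed K] {G : Glue K} {F : K[X] → K[X][Y]}

theorem Glue.ev_mul (G : Glue K) (κ : K[X]) (s : K) (ν ν' : K[X][Y]) :
    G.ev κ s (ν * ν') = G.ev κ s ν * G.ev κ s ν' := evalEval_mul _ _ _ _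

theorem Glue.ev_add (G : Glue K) (κ : K[X]) (s : K) (ν ν' : K[X][Y]) :
    G.ev κ s (ν + ν') = G.ev κ s ν + G.ev κ s ν' := evalEval_add _ _ _ _

theorem Glue.ev_sub (G : Glue K) (κ : K[X]) (s : K) (ν ν' : K[X][Y]) :
    G.ev κ s (ν - ν') = G.ev κ s ν - G.ev κ s ν' := evalEval_sub _ _ _ _

theorem Glue.ev_pow (G : Glue K) (κ : K[X]) (s : K) (ν : K[X][Y]) (k : ℕ) :
    G.ev κ s (ν ^ k) = G.ev κ s ν ^ k := evalEval_pow _ _ _ _

theorem Glue.IsKer.ev_zero (hF : G.IsKer F) (κ : K[X]) {s : K} (hs : s ≠ 0) :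
    G.ev κ s (F κ) = 0 := (hF κ (F κ)).mp dvd_rfl s hs

theorem Glue.IsKer.dvd_of_dvd_pow (hF : G.IsKer F) (κ : K[X]) (ν : K[X][Y]) (k : ℕ)
    (h : F κ ∣ ν ^ k) : F κ ∣ ν := by
  rw [hF κ]
  intro s hs
  have h1 := (hF κ _).mp h s hs
  rw [G.ev_pow] at h1
  by_contra hne
  exact pow_ne_zero k hne h1

section S

variable {S : Type v} [CommRing S] [IsDomain S] [Algebra K[X][Y] S]
  {n : Type*} [Fintype n] [DecidableEq n] [Nonempty n] (b : Module.Basis n K[X][Y] S)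

/-- The ideal of the curve with index `κ` in `S`. -/
def cIdeal (F : K[X] → K[X][Y]) (S : Type v) [CommRing S] [Algebra K[X][Y] S] (κ : K[X]) :
    Ideal S := Ideal.span {algebraMap K[X][Y] S (F κ)}

include b in
theorem mem_cIdeal_iff (hF : G.IsKer F) (κ : K[X]) (ν : K[X][Y]) :
    algebraMap K[X][Y] S ν ∈ cIdeal F S κ ↔ F κ ∣ ν :=
  algebraMap_mem_span_iff b (fun ν k h => hF.dvd_of_dvd_pow κ ν k h) ν

include b in
theorem span_isPrime (hF : G.IsKer F) {κ : K[X]} (hprime : (cIdeal F S κ).IsPrime) :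
    (Ideal.span {F κ}).IsPrime := by
  have h : (cIdeal F S κ).comap (algebraMap K[X][Y] S) = Ideal.span {F κ} := by
    ext ν
    rw [Ideal.mem_comap, mem_cIdeal_iff b hF, Ideal.mem_span_singleton]
  rw [← h]
  exact Ideal.comap_isPrime _ _

include b in
/-- In the first case of LAURENT the norm is a unit modulo the curve. -/
theorem top_of_unit (hF : G.IsKer F) {κ : K[X]} {H : K[X][Y]} {ε : K} (hε : ε ≠ 0)
    (hFε : F κ = C (C ε) + C X * H) {u : S} {c : K} {k l : ℕ} (hc : c ≠ 0)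
    (h : ∀ s : K, s ≠ 0 → (s ^ G.p) ^ k * G.ev κ s (Algebra.norm K[X][Y] u) =
      c * (s ^ G.p) ^ l) : cIdeal F S κ ⊔ Ideal.span {u} = ⊤ := by
  by_contra hne
  obtain ⟨M, hM, hle⟩ := Ideal.exists_le_maximal _ hne
  set φ := algebraMap K[X][Y] S with hφ
  set ν := Algebra.norm K[X][Y] u with hν
  have h1 : F κ ∣ (C X) ^ k * ν - C (C c) * (C X) ^ l := by
    rw [hF κ]
    intro s hs
    rw [G.ev_sub, G.ev_mul, G.ev_mul, G.ev_pow, G.ev_pow]
    have e1 : G.ev κ s (C X) = s ^ G.p := by unfold Glue.ev; rw [evalEval_C, eval_X]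
    have e2 : G.ev κ s (C (C c)) = c := by unfold Glue.ev; simp
    rw [e1, e2, h s hs, sub_self]
  have hFM : φ (F κ) ∈ M := hle (Ideal.mem_sup_left (Ideal.mem_span_singleton_self _))
  have huM : u ∈ M := hle (Ideal.mem_sup_right (Ideal.mem_span_singleton_self _))
  have hνM : φ ν ∈ M := by
    obtain ⟨t, ht⟩ := dvd_algebraMap_norm b u
    rw [hφ, hν, ht]
    exact Ideal.mul_mem_right _ _ huM
  have h2 : φ ((C X) ^ k * ν - C (C c) * (C X) ^ l) ∈ M := by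
    obtain ⟨t, ht⟩ := h1
    rw [ht, map_mul]
    exact Ideal.mul_mem_right _ _ hFM
  have h3 : φ (C (C c) * (C X) ^ l) ∈ M := by
    have : φ (C (C c) * (C X) ^ l) =
        φ ((C X) ^ k) * φ ν - φ ((C X) ^ k * ν - C (C c) * (C X) ^ l) := by
      rw [map_sub, map_mul φ _ ν]; ring
    rw [this]
    exact Ideal.sub_mem _ (Ideal.mul_mem_left _ _ hνM) h2
  have hunit : ∀ d : K, d ≠ 0 → φ (C (C d)) ∉ M := by
    intro d hd hmem
    apply hM.ne_top
    rw [Ideal.eq_top_iff_one]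
    have : (1 : S) = φ (C (C d⁻¹)) * φ (C (C d)) := by
      rw [← map_mul, ← C_mul, ← C_mul, inv_mul_cancel₀ hd]
      simp
    rw [this]
    exact Ideal.mul_mem_left _ _ hmem
  have h4 : φ (C X) ∈ M := by
    rw [map_mul, map_pow] at h3
    rcases hM.isPrime.mem_or_mem h3 with h | h
    · exact absurd h (hunit c hc)
    · exact hM.isPrime.mem_of_pow_mem _ h
  apply hunit ε hε
  have : φ (C (C ε)) = φ (F κ) - φ (C X) * φ H := by
    rw [hFε, map_add, map_mul]; ring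
  rw [this]
  exact Ideal.sub_mem _ hFM (Ideal.mul_mem_right _ _ h4)

include b in
theorem curve_h5 (hL : LaurentStatement K) (hF : G.IsKer F) {κ : K[X]} {H : K[X][Y]} {ε : K}
    (hε : ε ≠ 0) (hFε : F κ = C (C ε) + C X * H) (hprime : (cIdeal F S κ).IsPrime) {u : S}
    (hu : u ∉ cIdeal F S κ) (hne : cIdeal F S κ ⊔ Ideal.span {u} ≠ ⊤) :
    ∃ M₁ M₂ : Ideal S, M₁.IsMaximal ∧ M₂.IsMaximal ∧ M₁ ≠ M₂ ∧
      cIdeal F S κ ⊔ Ideal.span {u} ≤ M₁ ∧ cIdeal F S κ ⊔ Ideal.span {u} ≤ M₂ := by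
  have hex : ∃ s : K, s ≠ 0 ∧ G.ev κ s (Algebra.norm K[X][Y] u) ≠ 0 := by
    by_contra hcon
    push Not at hcon
    apply hu
    exact mem_of_dvd_norm b (span_isPrime b hF hprime) hprime ((hF κ _).mpr hcon)
  rcases hL G κ _ hex with ⟨c, k, l, hc, h⟩ | ⟨s₁, s₂, h₁, h₂, hz₁, hz₂, hdist⟩
  · exact absurd (top_of_unit b hF hε hFε hc h) hne
  · obtain ⟨M₁, hM₁, hu₁, hk₁⟩ := exists_maximal_of_norm b
      (evalEvalRingHom (s₁ ^ G.p) (G.yy κ s₁)) u hz₁
    obtain ⟨M₂, hM₂, hu₂, hk₂⟩ := exists_maximal_of_norm b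
      (evalEvalRingHom (s₂ ^ G.p) (G.yy κ s₂)) u hz₂
    refine ⟨M₁, M₂, hM₁, hM₂, ?_, ?_, ?_⟩
    · intro heq
      have key : ∀ (ν : K[X][Y]) (c₁ c₂ : K), c₁ ≠ c₂ →
          evalEvalRingHom (s₁ ^ G.p) (G.yy κ s₁) ν = c₁ →
          evalEvalRingHom (s₂ ^ G.p) (G.yy κ s₂) ν = c₂ → False := by
        intro ν c₁ c₂ hcc hc₁ hc₂
        have m₁ := hk₁ (ν - C (C c₁)) (by rw [map_sub, hc₁]; simp)
        have m₂ := hk₂ (ν - C (C c₂)) (by rw [map_sub, hc₂]; simp)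
        rw [← heq] at m₂
        have m₃ := Ideal.sub_mem _ m₁ m₂
        rw [← map_sub] at m₃
        have e : (ν - C (C c₁)) - (ν - C (C c₂)) = C (C (c₂ - c₁)) := by
          rw [C_sub, C_sub]; ring
        rw [e] at m₃
        apply hM₁.ne_top
        rw [Ideal.eq_top_iff_one]
        have : (1 : S) = algebraMap K[X][Y] S (C (C (c₂ - c₁)⁻¹)) *
            algebraMap K[X][Y] S (C (C (c₂ - c₁))) := by
          rw [← map_mul, ← C_mul, ← C_mul, inv_mul_cancel₀ (sub_ne_zero.mpr hcc.symm)]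
          simp
        rw [this]
        exact Ideal.mul_mem_left _ _ m₃
      rcases hdist with hd | hd
      · exact key (C X) _ _ hd (by simp) (by simp)
      · exact key X _ _ hd (by simp) (by simp)
    · rw [sup_le_iff, cIdeal, Ideal.span_singleton_le_iff_mem, Ideal.span_singleton_le_iff_mem]
      exact ⟨hk₁ _ (hF.ev_zero κ h₁), hu₁⟩
    · rw [sup_le_iff, cIdeal, Ideal.span_singleton_le_iff_mem, Ideal.span_singleton_le_iff_mem]
      exact ⟨hk₂ _ (hF.ev_zero κ h₂), hu₂⟩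

theorem mulMat_cIdeal (hF : G.IsKer F) {κ : K[X]} {s : K} (hs : s ≠ 0) {x : S}
    (hx : x ∈ cIdeal F S κ) :
    mulMat b (evalEvalRingHom (s ^ G.p) (G.yy κ s)) x = 0 := by
  obtain ⟨t, rfl⟩ := Ideal.mem_span_singleton.mp hx
  have h0 : evalEvalRingHom (s ^ G.p) (G.yy κ s) (F κ) = 0 := hF.ev_zero κ hs
  rw [map_mul, mulMat_algebraMap, h0, map_zero, zero_mul]

include b in
/-- Norms of units modulo the curve have equal nonzero values at points with the same `X`. -/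
theorem norm_unit (hL : LaurentStatement K) (hF : G.IsKer F) {κ : K[X]} {u v : S}
    (huv : 1 - u * v ∈ cIdeal F S κ) {s s' : K} (hs : s ≠ 0) (hs' : s' ≠ 0)
    (hss' : s ^ G.p = s' ^ G.p) :
    G.ev κ s (Algebra.norm K[X][Y] u) ≠ 0 ∧
      G.ev κ s (Algebra.norm K[X][Y] u) = G.ev κ s' (Algebra.norm K[X][Y] u) := by
  have hne : ∀ s : K, s ≠ 0 → G.ev κ s (Algebra.norm K[X][Y] u) ≠ 0 := by
    intro s hs h0
    have h1 := mulMat_cIdeal b hF hs huv
    rw [map_sub, map_mul, map_one, sub_eq_zero] at h1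
    have h2 := congrArg Matrix.det h1
    rw [Matrix.det_mul, Matrix.det_one, mulMat_det] at h2
    have h3 : evalEvalRingHom (s ^ G.p) (G.yy κ s) (Algebra.norm K[X][Y] u) = 0 := h0
    rw [h3, zero_mul] at h2
    exact one_ne_zero h2
  refine ⟨hne s hs, ?_⟩
  rcases hL G κ _ ⟨s, hs, hne s hs⟩ with ⟨c, k, l, hc, h⟩ | ⟨s₁, s₂, h₁, h₂, hz₁, hz₂, hdist⟩
  · have e1 := h s hs
    have e2 := h s' hs'
    rw [← hss'] at e2
    have e3 := e1.trans e2.symm
    exact mul_left_cancel₀ (pow_ne_zero _ (pow_ne_zero _ hs)) e3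
  · exact absurd hz₁ (hne s₁ h₁)

include b in
/-- Property `hU` on `S`. -/
theorem curve_hU (hL : LaurentStatement K) (hF : G.IsKer F) {κ κ' : K[X]} {s₀ : K}
    (hs₀ : s₀ ≠ 0) (hκ : κ.eval (s₀ ^ G.p) = κ'.eval (s₀ ^ G.p)) {h₀ : K[X][Y]} {h : S}
    (hh : h - algebraMap K[X][Y] S h₀ ∈ cIdeal F S κ) (h2 : G.ev κ s₀ h₀ = 2)
    (h1 : G.ev κ (G.ζ * s₀) h₀ = 1) {u v u' v' : S} {N N' : ℕ}
    (huv : 1 - u * v ∈ cIdeal F S κ) (huv' : 1 - u' * v' ∈ cIdeal F S κ')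
    (hcomb : h ^ N' * u - h ^ N * u' ∈ cIdeal F S κ ⊔ cIdeal F S κ') : N = N' := by
  have hζ0 : G.ζ ≠ 0 := G.hζ.ne_zero G.hp.ne_zero
  have hs₁ : G.ζ * s₀ ≠ 0 := mul_ne_zero hζ0 hs₀
  have hpow : (G.ζ * s₀) ^ G.p = s₀ ^ G.p := by rw [mul_pow, G.hζ.pow_eq_one, one_mul]
  have hyy : ∀ s : K, s ^ G.p = s₀ ^ G.p → G.yy κ s = G.yy κ' s := by
    intro s hs
    unfold Glue.yy
    rw [hs, hκ]
  have hev : ∀ s : K, s ^ G.p = s₀ ^ G.p → ∀ ν, G.ev κ s ν = G.ev κ' s ν := by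
    intro s hs ν
    unfold Glue.ev
    rw [hyy s hs]
  -- relation at a point
  have rel : ∀ s : K, s ≠ 0 → s ^ G.p = s₀ ^ G.p →
      (G.ev κ s h₀ ^ N') ^ Fintype.card n * G.ev κ s (Algebra.norm K[X][Y] u) =
      (G.ev κ s h₀ ^ N) ^ Fintype.card n * G.ev κ s (Algebra.norm K[X][Y] u') := by
    intro s hs hsp
    set φ := evalEvalRingHom (s ^ G.p) (G.yy κ s) with hφ
    have hzero : ∀ x ∈ cIdeal F S κ ⊔ cIdeal F S κ', mulMat b φ x = 0 := by
      intro x hx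
      obtain ⟨y, hy, z, hz, rfl⟩ := Submodule.mem_sup.mp hx
      have hz0 : mulMat b φ z = 0 := by
        rw [hφ, hyy s hsp]
        exact mulMat_cIdeal b hF hs hz
      rw [map_add, mulMat_cIdeal b hF hs hy, hz0, add_zero]
    have hh0 : mulMat b φ h = algebraMap K (Matrix n n K) (G.ev κ s h₀) := by
      have := mulMat_cIdeal b hF hs hh
      rw [map_sub, sub_eq_zero, mulMat_algebraMap] at this
      exact this
    have h3 := hzero _ hcomb
    rw [map_sub, sub_eq_zero, map_mul, map_mul, map_pow, map_pow, hh0, ← map_pow, ← map_pow] at h3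
    have h4 := congrArg Matrix.det h3
    rw [Matrix.det_mul, Matrix.det_mul, mulMat_det, mulMat_det,
      Matrix.algebraMap_eq_diagonal, Matrix.algebraMap_eq_diagonal, Matrix.det_diagonal,
      Matrix.det_diagonal] at h4
    simp only [Pi.algebraMap_apply, Algebra.algebraMap_self, RingHom.id_apply, Finset.prod_const,
      Finset.card_univ] at h4
    exact h4
  obtain ⟨hne, heq⟩ := norm_unit b hL hF huv hs₀ hs₁ hpow.symm
  obtain ⟨hne', heq'⟩ := norm_unit b hL hF huv' hs₀ hs₁ hpow.symm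
  rw [← hev _ rfl] at hne' heq'
  rw [← hev _ hpow] at heq'
  have r0 := rel s₀ hs₀ rfl
  have r1 := rel (G.ζ * s₀) hs₁ hpow
  rw [h1, one_pow, one_pow, one_pow, one_pow, one_mul, one_mul, ← heq, ← heq'] at r1
  rw [h2, ← r1, ← pow_mul, ← pow_mul] at r0
  have r2 := mul_right_cancel₀ hne r0
  have r3 : (2 : ℕ) ^ (N' * Fintype.card n) = 2 ^ (N * Fintype.card n) := by exact_mod_cast r2
  have r4 := Nat.pow_right_injective le_rfl r3
  exact (Nat.eq_of_mul_eq_mul_right Fintype.card_pos r4).symm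

include b in
/-- Coprimality on `S`. -/
theorem curve_cop {κ κ' : K[X]} {h₀ : K[X][Y]} {h : S}
    (hh : h - algebraMap K[X][Y] S h₀ ∈ cIdeal F S κ)
    (hne : ∀ x y : K, (F κ).evalEval x y = 0 → (F κ').evalEval x y = 0 → h₀.evalEval x y ≠ 0) :
    Ideal.span {h} ⊔ cIdeal F S κ ⊔ cIdeal F S κ' = ⊤ := by
  have := Module.Finite.of_basis b
  by_contra hcon
  obtain ⟨M, hM, hle⟩ := Ideal.exists_le_maximal _ hcon
  have hM' : (M.comap (algebraMap K[X][Y] S)).IsMaximal :=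
    Ideal.isMaximal_comap_of_isIntegral_of_isMaximal M
  obtain ⟨x, y, hxy⟩ := null _ hM'
  have hle1 : Ideal.span {h} ≤ M := (le_sup_left.trans le_sup_left).trans hle
  have hle2 : cIdeal F S κ ≤ M := (le_sup_right.trans le_sup_left).trans hle
  have hle3 : cIdeal F S κ' ≤ M := le_sup_right.trans hle
  refine hne x y (hxy _ ?_) (hxy _ ?_) (hxy _ ?_)
  · exact hle2 (Ideal.mem_span_singleton_self _)
  · exact hle3 (Ideal.mem_span_singleton_self _)
  · rw [Ideal.mem_comap]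
    have : algebraMap K[X][Y] S h₀ = h - (h - algebraMap K[X][Y] S h₀) := by ring
    rw [this]
    exact Ideal.sub_mem _ (hle1 (Ideal.mem_span_singleton_self _)) (hle2 hh)

end S

end IdealChomp
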