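import Mathlib

/-!
# Ideal Chomp on `K[x,y,z]`: basic definitions and module statements

See the team database, `ideas` (problem `MP_69b5dd_co`, seat helper44) for the paper proof.
-/

open Polynomial
open scoped Polynomial.Bivariate

universe u

namespace IdealChomp

/-! ## The game -/

/-- `MoverWins I` : at the position `I` of the Ideal Chomp game, the player about to move
can force a win: there is a legal move `a ∉ I` which does not lose at once
(`I + (a) ≠ R`), and every reply `b` of the opponent either produces the whole ring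
(the opponent loses) or leads to a position where the original player can force a win. -/
inductive MoverWins {R : Type*} [CommRing R] : Ideal R → Prop
  | intro (I : Ideal R) (a : R) (ha : a ∉ I) (hne : I ⊔ Ideal.span {a} ≠ ⊤)
      (h : ∀ b : R, b ∉ I ⊔ Ideal.span {a} → I ⊔ Ideal.span {a} ⊔ Ideal.span {b} ≠ ⊤ →
        MoverWins (I ⊔ Ideal.span {a} ⊔ Ideal.span {b})) : MoverWins I

/-- `PPos I` : at the position `I`, the player who has just moved can force a win: every move
from `I` either produces the whole ring or a position at which the next mover wins. -/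
def PPos {R : Type*} [CommRing R] (I : Ideal R) : Prop :=
  ∀ b : R, b ∉ I → I ⊔ Ideal.span {b} ≠ ⊤ → MoverWins (I ⊔ Ideal.span {b})

/-! ## The combinatorial game (module COMB) -/

/-- A move of the combinatorial game: choose `c` and replace some (at least one) of the entries
which are larger than `c` by `c`; the result must not be `0`. -/
def CMove {ι : Type*} (n n' : ι → ℕ) : Prop :=
  n' ≠ 0 ∧ n' ≠ n ∧ ∃ c : ℕ, ∀ j, n' j = n j ∨ (n' j = c ∧ c < n j)

/-- The player about to move wins the combinatorial game at `n`. -/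
inductive CWins {ι : Type*} : (ι → ℕ) → Prop
  | intro (n n' : ι → ℕ) (h : CMove n n') (h' : ∀ n'', CMove n' n'' → CWins n'') : CWins n

/-- The previous player wins the combinatorial game at `n`. -/
def CP {ι : Type*} (n : ι → ℕ) : Prop := ∀ n', CMove n n' → CWins n'

/-- Module COMB: for each `e ≥ 1` there is `m ≥ 1` such that `(e, …, e)` (`m` entries) is a
P-position of the combinatorial game. -/
def CombStatement : Prop := ∀ e : ℕ, 1 ≤ e → ∃ m : ℕ, 1 ≤ m ∧ CP (fun _ : Fin m => e)

/-! ## The curves -/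

/-- Parameters of the family of curves. `p` is an odd prime, `ζ` a primitive `p`-th root of `1`,
`τ` is transcendental over `ℚ`, and `η(s) = s² + (lam s^p + mu) s` satisfies
`η(α) = η(ζ α)` for `α = 1, τ`. -/
structure Glue (K : Type*) [Field K] [CharZero K] where
  p : ℕ
  hp : p.Prime
  hp2 : 2 < p
  ζ : K
  hζ : IsPrimitiveRoot ζ p
  τ : K
  hτ : Transcendental ℚ τ
  lam : K
  mu : K
  h1 : 1 + ζ = -(lam + mu)
  h2 : (1 + ζ) * τ = -(lam * τ ^ p + mu)

variable {K : Type*} [Field K] [CharZero K]

/-- `η(s) = s² + (lam s^p + mu) s`. -/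
noncomputable def Glue.eta (G : Glue K) : K[X] := X ^ 2 + (C G.lam * X ^ G.p + C G.mu) * X

/-- second coordinate of the point with parameter `s ≠ 0` on the curve with index `κ`;
the first coordinate is `s ^ p`. -/
noncomputable def Glue.yy (G : Glue K) (κ : K[X]) (s : K) : K :=
  (s ^ G.p)⁻¹ + κ.eval (s ^ G.p) + G.eta.eval s

/-- Evaluation of `ν ∈ K[X][Y]` at the point with parameter `s` of the curve with index `κ`. -/
noncomputable def Glue.ev (G : Glue K) (κ : K[X]) (s : K) (ν : K[X][Y]) : K :=
  ν.evalEval (s ^ G.p) (G.yy κ s)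

/-- `F` is a family of generators of the kernels of the parametrizations:
`F κ ∣ ν` iff `ν` vanishes on the curve with index `κ`. -/
def Glue.IsKer (G : Glue K) (F : K[X] → K[X][Y]) : Prop :=
  ∀ κ ν, F κ ∣ ν ↔ ∀ s : K, s ≠ 0 → G.ev κ s ν = 0

/-- Module KER: existence of the kernel generators `F κ`, they are `≡` unit mod `X`, and
different `κ` give different curves. -/
def KerStatement (K : Type*) [Field K] [CharZero K] : Prop :=
  ∀ G : Glue K, ∃ F : K[X] → K[X][Y], G.IsKer F ∧
    (∀ κ, ∃ (H : K[X][Y]) (ε : K), ε ≠ 0 ∧ F κ = C (C ε) + C X * H) ∧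
    (∀ κ κ', κ ≠ κ' → ∃ s : K, s ≠ 0 ∧ G.ev κ s (F κ') ≠ 0)

/-- Module LAURENT: a function on the curve which does not vanish identically is either
a constant times a power of `X` or vanishes at two distinct points of the curve. -/
def LaurentStatement (K : Type*) [Field K] [CharZero K] : Prop :=
  ∀ (G : Glue K) (κ : K[X]) (ν : K[X][Y]), (∃ s : K, s ≠ 0 ∧ G.ev κ s ν ≠ 0) →
    (∃ (c : K) (k l : ℕ), c ≠ 0 ∧ ∀ s : K, s ≠ 0 → (s ^ G.p) ^ k * G.ev κ s ν = c * (s ^ G.p) ^ l) ∨
    (∃ s₁ s₂ : K, s₁ ≠ 0 ∧ s₂ ≠ 0 ∧ G.ev κ s₁ ν = 0 ∧ G.ev κ s₂ ν = 0 ∧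
      (s₁ ^ G.p ≠ s₂ ^ G.p ∨ G.yy κ s₁ ≠ G.yy κ s₂))

/-- Module BERTINI: for the pencil `κ = c + μ (X - s₀^p)` the ideal generated by `F κ` in a
domain `S` which is finite free over `K[X][Y]`, of rank less than `p`, is prime for all but
finitely many `μ`. -/
def BertiniStatement (K : Type u) [Field K] [CharZero K] : Prop :=
  ∀ (G : Glue K) (F : K[X] → K[X][Y]), G.IsKer F →
  ∀ (S : Type u) [CommRing S] [IsDomain S] [Algebra K[X][Y] S] [Module.Free K[X][Y] S]
    [Module.Finite K[X][Y] S], Module.finrank K[X][Y] S < G.p →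
  ∃ (s₀ c : K), s₀ ≠ 0 ∧ G.eta.eval s₀ ≠ G.eta.eval (G.ζ * s₀) ∧
    {μ : K | ¬ (Ideal.span {algebraMap K[X][Y] S (F (C c + C μ * (X - C (s₀ ^ G.p))))}).IsPrime}.Finite

/-- Module SPEC (used for BERTINI). `P ∈ K[μ][s][T]` (inner variable `μ`, middle variable `s`,
outer variable `T`) is monic in `T`, its specialization at `s = s₀` is a separable polynomial
with coefficients in `K` (independent of `μ`), and `P` is not the product of two monic
polynomials of positive degree. Then for all but finitely many `μ₀ ∈ K` the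
specialization `P(μ₀, s, T) ∈ K[s][T]` is irreducible. -/
def SpecStatement (K : Type u) [Field K] : Prop :=
  ∀ (P : K[X][X][X]) (s₀ : K) (P₀ : K[X]), P.Monic → 0 < P.natDegree → P₀.Separable →
    P.map (Polynomial.evalRingHom (C s₀)) = P₀.map C →
    (∀ A B : K[X][X][X], A.Monic → B.Monic → P = A * B → A = 1 ∨ B = 1) →
    {μ₀ : K | ¬ Irreducible (P.map (Polynomial.mapRingHom (Polynomial.evalRingHom μ₀)))}.Finite

/-- Module COORD: coordinates adapted to an opening move `f`. In `K[X][X][X]` the inner variable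
is `x`, the middle one is `y`, the outer one is `z`. -/
def CoordStatement (K : Type u) [Field K] : Prop :=
  ∀ f : MvPolynomial (Fin 3) K, f ≠ 0 → ¬ IsUnit f →
  ∃ (Φ : MvPolynomial (Fin 3) K ≃+* K[X][X][X]) (a b : K[X][X][X]) (e : ℕ) (β : K[X][X])
    (r s : K[X][X][X]), 1 ≤ e ∧ Φ f = a ^ e * b ∧ Prime a ∧ a.Monic ∧ β.Monic ∧
      0 < β.natDegree ∧ C β = r * a + s * b

/-- The homomorphism `K[X][Y] → K[x][y]`, `X ↦ β`, `Y ↦ x`. -/
noncomputable def coordHom {K : Type u} [Field K] (β : K[X][X]) : K[X][Y] →+* K[X][X] :=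
  Polynomial.eval₂RingHom (Polynomial.eval₂RingHom (C.comp C) β) (C X)

/-- The homomorphism `K[X][Y] → K[x][y][z]/(a)`, `X ↦ β`, `Y ↦ x`. -/
noncomputable def coordHom' {K : Type u} [Field K] (a : K[X][X][X]) (β : K[X][X]) :
    K[X][Y] →+* AdjoinRoot a := (AdjoinRoot.mk a).comp (C.comp (coordHom β))

/-- Module FREE: `K[x][y][z]/(a)` is a finite free module over `K[X][Y]`. -/
def FreeStatement (K : Type u) [Field K] : Prop :=
  ∀ (a : K[X][X][X]) (β : K[X][X]), a.Monic → β.Monic → 0 < β.natDegree →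
    letI := (coordHom' a β).toAlgebra
    Module.Free K[X][Y] (AdjoinRoot a) ∧ Module.Finite K[X][Y] (AdjoinRoot a)

end IdealChomp
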