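import Pool.Agent.Lib.MP_69b5dd_co.Defs

/-!
# Ideal Chomp: `K[x][y][z]/(a)` is finite free over `K[X][Y]` (module FREE)
-/

open Polynomial
open scoped Polynomial.Bivariate

universe u

namespace IdealChomp

/-- `S` is finite and free over `R` via `f`. -/
def FF {R S : Type*} [CommRing R] [CommRing S] (f : R →+* S) : Prop :=
  ∃ (n : ℕ) (b : Fin n → S), Function.Bijective (fun c : Fin n → R => ∑ i, f (c i) * b i)

theorem ff_iff {R S : Type*} [CommRing R] [CommRing S] (f : R →+* S)
    (ι : Type*) [Fintype ι] (b : ι → S)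
    (h : Function.Bijective (fun c : ι → R => ∑ i, f (c i) * b i)) : FF f := by
  classical
  refine ⟨Fintype.card ι, b ∘ (Fintype.equivFin ι).symm, ?_⟩
  have : (fun c : Fin (Fintype.card ι) → R =>
      ∑ i, f (c i) * (b ∘ (Fintype.equivFin ι).symm) i) =
      (fun c : ι → R => ∑ i, f (c i) * b i) ∘ (fun c => c ∘ Fintype.equivFin ι) := by
    funext c
    simp only [Function.comp]
    rw [← (Fintype.equivFin ι).sum_comp]
    simp
  rw [this]
  refine h.comp ⟨fun c c' h => ?_, fun c => ⟨c ∘ (Fintype.equivFin ι).symm, ?_⟩⟩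
  · funext i
    have := congrFun h ((Fintype.equivFin ι).symm i)
    simpa using this
  · funext i
    simp

theorem FF.comp {R S T : Type*} [CommRing R] [CommRing S] [CommRing T] {g : S →+* T}
    {f : R →+* S} (hg : FF g) (hf : FF f) : FF (g.comp f) := by
  obtain ⟨m, b', hb'⟩ := hg
  obtain ⟨n, b, hb⟩ := hf
  apply ff_iff (g.comp f) (Fin m × Fin n) (fun i => g (b i.2) * b' i.1)
  have : (fun c : Fin m × Fin n → R => ∑ i, (g.comp f) (c i) * (g (b i.2) * b' i.1)) =
      (fun c : Fin m → S => ∑ i, g (c i) * b' i) ∘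
      (fun c : Fin m × Fin n → R => fun i' : Fin m => ∑ i, f (c (i', i)) * b i) := by
    funext c
    simp only [Function.comp, Fintype.sum_prod_type, map_sum, map_mul, Finset.sum_mul,
      RingHom.comp_apply, mul_assoc]
  rw [this]
  refine hb'.comp ⟨fun c c' h => ?_, fun d => ?_⟩
  · funext ⟨i', i⟩
    have h1 := congrFun h i'
    have h2 := @hb.1 (fun i => c (i', i)) (fun i => c' (i', i)) h1
    exact congrFun h2 i
  · choose c hc using fun i' => hb.2 (d i')
    exact ⟨fun i => c i.1 i.2, funext hc⟩

theorem ff_of_bijective {R S : Type*} [CommRing R] [CommRing S] {f : R →+* S}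
    (hf : Function.Bijective f) : FF f := by
  apply ff_iff f Unit (fun _ => 1)
  have : (fun c : Unit → R => ∑ i, f (c i) * 1) = f ∘ (fun c : Unit → R => c ()) := by
    funext c
    simp
  rw [this]
  refine hf.comp ⟨fun c c' h => ?_, fun d => ⟨fun _ => d, rfl⟩⟩
  funext i
  exact h

theorem ff_of_monic {R : Type*} [CommRing R] {g : R[X]} (hg : g.Monic) :
    FF (AdjoinRoot.of g) := by
  apply ff_iff _ (Fin (AdjoinRoot.powerBasis' hg).dim) (AdjoinRoot.powerBasis' hg).basis
  have : (fun c : Fin (AdjoinRoot.powerBasis' hg).dim → R =>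
      ∑ i, AdjoinRoot.of g (c i) * (AdjoinRoot.powerBasis' hg).basis i) =
      (AdjoinRoot.powerBasis' hg).basis.equivFun.symm := by
    funext c
    rw [Module.Basis.equivFun_symm_apply]
    simp only [Algebra.smul_def, AdjoinRoot.algebraMap_eq]
  rw [this]
  exact (AdjoinRoot.powerBasis' hg).basis.equivFun.symm.bijective

theorem FF.free_finite {R S : Type*} [CommRing R] [CommRing S] {f : R →+* S} (hf : FF f) :
    letI := f.toAlgebra
    Module.Free R S ∧ Module.Finite R S := by
  let _ := f.toAlgebra
  obtain ⟨n, b, hb⟩ := hf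
  let L : (Fin n → R) →ₗ[R] S :=
    { toFun := fun c => ∑ i, f (c i) * b i
      map_add' := fun x y => by
        simp [add_mul, Finset.sum_add_distrib]
      map_smul' := fun r x => by
        simp only [Pi.smul_apply, smul_eq_mul, map_mul, RingHom.id_apply, Algebra.smul_def,
          Finset.mul_sum, mul_assoc]
        rfl }
  let E : (Fin n → R) ≃ₗ[R] S := LinearEquiv.ofBijective L hb
  exact ⟨Module.Free.of_equiv E, Module.Finite.equiv E⟩

section

variable {B : Type*} [CommRing B] (β : B[X])

/-- `β(T) - X`. -/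
noncomputable def gg : B[X][X] := β.map C - C X

theorem gg_monic (hβ : β.Monic) (hd : 0 < β.natDegree) : (gg β).Monic := by
  rcases subsingleton_or_nontrivial B with h | h
  · have : Subsingleton B[X][X] := inferInstance
    exact Subsingleton.elim _ _
  · apply Monic.sub_of_left (hβ.map C)
    rw [hβ.degree_map]
    calc degree (C (X : B[X])) ≤ 0 := degree_C_le
      _ < β.degree := natDegree_pos_iff_degree_pos.1 hd

theorem gg_eval : eval₂ (eval₂RingHom (C : B →+* B[X]) β) X (gg β) = 0 := by
  rw [gg, eval₂_sub, eval₂_map, eval₂_C]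
  have : (eval₂RingHom (C : B →+* B[X]) β).comp C = C := by
    ext1 b
    simp
  rw [this]
  simp

/-- forward map -/
noncomputable def fwd : AdjoinRoot (gg β) →+* B[X] :=
  AdjoinRoot.lift (eval₂RingHom (C : B →+* B[X]) β) X (gg_eval β)

/-- backward map -/
noncomputable def bwd : B[X] →+* AdjoinRoot (gg β) :=
  eval₂RingHom ((AdjoinRoot.of (gg β)).comp C) (AdjoinRoot.root (gg β))

theorem fwd_bwd : (fwd β).comp (bwd β) = RingHom.id _ := by
  apply Polynomial.ringHom_ext
  · intro b
    simp [fwd, bwd]
  · simp [fwd, bwd]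

theorem bwd_fwd : (bwd β).comp (fwd β) = RingHom.id _ := by
  have key : eval₂ ((AdjoinRoot.of (gg β)).comp C) (AdjoinRoot.root (gg β)) β =
      AdjoinRoot.of (gg β) X := by
    have h1 : AdjoinRoot.mk (gg β) (gg β) = 0 := AdjoinRoot.mk_self
    have h2 : AdjoinRoot.mk (gg β) (β.map C) = AdjoinRoot.of (gg β) X := by
      have h3 : AdjoinRoot.mk (gg β) (β.map C - C X) = 0 := h1
      rw [map_sub, sub_eq_zero] at h3
      exact h3
    rw [← h2, ← eval₂_map]
    rw [← AdjoinRoot.aeval_eq, aeval_def, AdjoinRoot.algebraMap_eq]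
  have h1 : ((bwd β).comp (fwd β)).comp (AdjoinRoot.of (gg β)) = AdjoinRoot.of (gg β) := by
    apply Polynomial.ringHom_ext
    · intro b
      simp [fwd, bwd]
    · simp [fwd, bwd, key]
  have h2 : ((bwd β).comp (fwd β)) (AdjoinRoot.root (gg β)) = AdjoinRoot.root (gg β) := by
    simp [fwd, bwd]
  refine RingHom.ext fun x => ?_
  induction x using AdjoinRoot.induction_on with
  | ih p =>
    induction p using Polynomial.induction_on' with
    | add p q hp hq => rw [map_add, map_add, hp, hq, map_add]
    | monomial n a =>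
      have h3 : AdjoinRoot.mk (gg β) (monomial n a) =
          AdjoinRoot.of (gg β) a * AdjoinRoot.root (gg β) ^ n := by
        rw [← C_mul_X_pow_eq_monomial, map_mul, map_pow]
        rfl
      rw [h3, map_mul, map_pow, h2]
      congr 1
      exact DFunLike.congr_fun h1 a

theorem ff_eval (hβ : β.Monic) (hd : 0 < β.natDegree) :
    FF (eval₂RingHom (C : B →+* B[X]) β) := by
  have h1 : (fwd β).comp (AdjoinRoot.of (gg β)) = eval₂RingHom (C : B →+* B[X]) β := by
    refine RingHom.ext fun b => ?_
    simp [fwd]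
  rw [← h1]
  refine FF.comp (ff_of_bijective ?_) (ff_of_monic (gg_monic β hβ hd))
  refine Function.bijective_iff_has_inverse.2 ⟨bwd β, fun x => ?_, fun x => ?_⟩
  · exact DFunLike.congr_fun (bwd_fwd β) x
  · exact DFunLike.congr_fun (fwd_bwd β) x

end

theorem coordHom_eq {K : Type u} [Field K] (β : K[X][X]) :
    coordHom β = (eval₂RingHom (C : K[X] →+* K[X][X]) β).comp
      ((Bivariate.swap (R := K) : K[X][Y] ≃ₐ[K] K[X][Y]) : K[X][Y] →+* K[X][Y]) := by
  apply Polynomial.ringHom_ext'
  · apply Polynomial.ringHom_ext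
    · intro a
      simp [coordHom, Bivariate.swap_apply]
    · simp [coordHom, Bivariate.swap_apply]
  · simp [coordHom, Bivariate.swap_apply]

theorem free {K : Type u} [Field K] : FreeStatement K := by
  intro a β ha hβ hd
  have h1 : FF (coordHom β) := by
    rw [coordHom_eq]
    exact (ff_eval β hβ hd).comp (ff_of_bijective (Bivariate.swap (R := K)).bijective)
  have h2 : FF (coordHom' a β) := (ff_of_monic ha).comp h1
  exact h2.free_finite

end IdealChomp
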