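import Mathlib
import Pool.Agent.Lib.MP_69b5dd_co.Defs

set_option autoImplicit false

/-!
# Module KER: generators of the kernels of the parametrizations
-/

open Polynomial
open scoped Polynomial.Bivariate

universe u

namespace IdealChomp

variable {K : Type*} [Field K] [CharZero K]

section Gen

variable {k : Type*} [Field k]

/-- A copy of `k[s]`, an algebra over `k[X]` through `X ↦ s ^ p`. -/
def Ks (k : Type*) [Field k] (_p : ℕ) : Type _ := k[X]

noncomputable instance (p : ℕ) : CommRing (Ks k p) := inferInstanceAs (CommRing k[X])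
instance (p : ℕ) : IsDomain (Ks k p) := inferInstanceAs (IsDomain k[X])
noncomputable instance (p : ℕ) : Algebra k[X] (Ks k p) :=
  ((expand k p : k[X] →+* k[X])).toAlgebra

lemma exists_minimal {p : ℕ} (hp : 0 < p) (η : k[X]) : ∃ E : k[X][Y], E.Monic ∧
    ∀ Q : k[X][Y], E ∣ Q ↔ Q.eval₂ (expand k p : k[X] →+* k[X]) η = 0 := by
  have hinj : Function.Injective (algebraMap k[X] (Ks k p)) := expand_injective hp
  have : Module.IsTorsionFree k[X] (Ks k p) :=
    Module.isTorsionFree_iff_algebraMap_injective.2 hinj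
  have hX : IsIntegral k[X] (show Ks k p from (X : k[X])) := by
    refine ⟨X ^ p - C X, monic_X_pow_sub_C _ hp.ne', ?_⟩
    rw [eval₂_sub, eval₂_pow, eval₂_X, eval₂_C]
    change (X : k[X]) ^ p - expand k p X = 0
    rw [expand_X, sub_self]
  have hC : ∀ c : k, IsIntegral k[X] (show Ks k p from (C c : k[X])) := by
    intro c
    have h : algebraMap k[X] (Ks k p) (C c) = (show Ks k p from (C c : k[X])) := by
      change expand k p (C c) = C c
      exact expand_C _ _
    rw [← h]
    exact isIntegral_algebraMap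
  have hall : ∀ f : k[X], IsIntegral k[X] (show Ks k p from f) := by
    intro f
    induction f using Polynomial.induction_on' with
    | add f g hf hg => exact hf.add hg
    | monomial n c =>
      have h1 : (monomial n c : k[X]) = C c * X ^ n := (C_mul_X_pow_eq_monomial).symm
      rw [h1]
      exact (hC c).mul (hX.pow n)
  refine ⟨minpoly k[X] (show Ks k p from η), minpoly.monic (hall η), fun Q => ?_⟩
  exact (minpoly.isIntegrallyClosed_dvd_iff (hall η) Q).symm

lemma eval_eval₂_expand (p : ℕ) (η : k[X]) (Q : k[X][Y]) (s : k) :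
    (Q.eval₂ (expand k p : k[X] →+* k[X]) η).eval s = Q.evalEval (s ^ p) (η.eval s) := by
  rw [← eval₂_evalRingHom, ← coe_evalRingHom, hom_eval₂]
  congr 1
  ext a
  · simp
  · simp

/-- bivariate polynomials which agree for `x ≠ 0` are equal. -/
lemma ext_evalEval [Infinite k] {P Q : k[X][Y]}
    (h : ∀ x : k, x ≠ 0 → ∀ y : k, P.evalEval x y = Q.evalEval x y) : P = Q := by
  rw [← sub_eq_zero]
  set D := P - Q with hD
  have h1 : ∀ x : k, x ≠ 0 → D.map (evalRingHom x) = 0 := by
    intro x hx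
    apply Polynomial.funext
    intro y
    rw [eval_zero, eval_map, eval₂_evalRingHom, hD, evalEval_sub, h x hx y, sub_self]
  ext1 n
  rw [coeff_zero]
  have h2 : ∀ x ∈ ({0}ᶜ : Set k), (D.coeff n).IsRoot x := by
    intro x hx
    have := congrArg (fun P => P.coeff n) (h1 x hx)
    simpa [coeff_map] using this
  apply eq_zero_of_infinite_isRoot
  exact Set.Infinite.mono h2 (Set.finite_singleton (0 : k)).infinite_compl

lemma evalEval_comp (Q R : k[X][Y]) (x y : k) :
    (Q.comp R).evalEval x y = Q.evalEval x (R.evalEval x y) := by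
  rw [← eval₂_evalRingHom, comp, ← coe_eval₂RingHom, hom_eval₂]
  congr 1
  ext a <;> simp

lemma evalEval_scale (Q : k[X][Y]) (x : k) (y : k) (R : k[X][Y]) (r : k)
    (hR : R.evalEval x y = x * r) :
    ((scaleRoots Q X).comp R).evalEval x y = x ^ Q.natDegree * Q.evalEval x r := by
  rw [evalEval_comp, hR, ← eval₂_evalRingHom]
  have h2 := scaleRoots_eval₂_mul (p := Q) (evalRingHom x) r X
  simpa using h2

end Gen

/-- the generator of the kernel -/
noncomputable def kerGen {k : Type*} [Field k] (E : k[X][Y]) (κ : k[X]) : k[X][Y] :=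
  (scaleRoots E X).comp (C X * (Y - C κ) - 1)

section Gen2

variable {k : Type*} [Field k]

lemma evalEval_kerGen (E : k[X][Y]) (κ : k[X]) {x : k} (hx : x ≠ 0) (y : k) :
    (kerGen E κ).evalEval x y = x ^ E.natDegree * E.evalEval x (y - κ.eval x - x⁻¹) := by
  apply evalEval_scale
  rw [evalEval_sub, evalEval_mul, evalEval_C, evalEval_sub, evalEval_C, evalEval_X, evalEval_one,
    eval_X]
  field_simp

lemma kerGen_eq {E : k[X][Y]} (hE : E.Monic) (κ : k[X]) :
    ∃ H : k[X][Y], kerGen E κ = C (C ((-1) ^ E.natDegree)) + C X * H := by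
  have h1 : (C X : k[X][Y]) ∣ scaleRoots E X - Y ^ E.natDegree := by
    rw [C_dvd_iff_dvd_coeff]
    intro i
    rw [coeff_sub, coeff_scaleRoots, coeff_X_pow]
    rcases lt_trichotomy i E.natDegree with h | h | h
    · rw [if_neg h.ne, sub_zero]
      exact Dvd.dvd.mul_left (dvd_pow_self _ (by omega)) _
    · rw [if_pos h, h, hE.coeff_natDegree]
      simp
    · rw [if_neg h.ne', coeff_eq_zero_of_natDegree_lt h]
      simp
  obtain ⟨G, hG⟩ := h1
  have h2 : (C X * (Y - C κ) - 1 : k[X][Y]) - (-1) ∣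
      (C X * (Y - C κ) - 1 : k[X][Y]) ^ E.natDegree - (-1) ^ E.natDegree := sub_dvd_pow_sub_pow _ _ _
  obtain ⟨G2, hG2⟩ := h2
  refine ⟨(Y - C κ) * G2 + G.comp (C X * (Y - C κ) - 1), ?_⟩
  have h3 : kerGen E κ = (C X * (Y - C κ) - 1 : k[X][Y]) ^ E.natDegree +
      C X * G.comp (C X * (Y - C κ) - 1) := by
    have h4 : scaleRoots E X = Y ^ E.natDegree + C X * G := by
      rw [← hG]; ring
    rw [kerGen, h4, add_comp, mul_comp, X_pow_comp, C_comp]
  have h5 : (C (C ((-1 : k) ^ E.natDegree)) : k[X][Y]) = (-1) ^ E.natDegree := by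
    rw [map_pow, map_pow, map_neg, map_neg, map_one, map_one]
  rw [h3, h5]
  linear_combination hG2

lemma kerGen_dvd [Infinite k] {E : k[X][Y]} {p : ℕ} {η : k[X]} (hE : E.Monic)
    (hdvd : ∀ Q : k[X][Y], (∀ s : k, s ≠ 0 → Q.evalEval (s ^ p) (η.eval s) = 0) → E ∣ Q)
    (κ : k[X]) (ν : k[X][Y])
    (h : ∀ s : k, s ≠ 0 → ν.evalEval (s ^ p) ((s ^ p)⁻¹ + κ.eval (s ^ p) + η.eval s) = 0) :
    kerGen E κ ∣ ν := by
  set ν' : k[X][Y] := (scaleRoots ν X).comp (C X * (Y + C κ) + 1) with hν'
  have hev : ∀ x : k, x ≠ 0 → ∀ y : k, ν'.evalEval x y =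
      x ^ ν.natDegree * ν.evalEval x (x⁻¹ + κ.eval x + y) := by
    intro x hx y
    apply evalEval_scale
    rw [evalEval_add, evalEval_mul, evalEval_C, evalEval_add, evalEval_C, evalEval_X, evalEval_one,
      eval_X]
    field_simp
    ring
  have h1 : E ∣ ν' := by
    apply hdvd
    intro s hs
    rw [hev _ (pow_ne_zero _ hs), h s hs, mul_zero]
  have h2 : scaleRoots E X ∣ scaleRoots ν' X := scaleRoots_dvd _ _ h1
  have h3 : kerGen E κ ∣ kerGen ν' κ := by
    obtain ⟨G, hG⟩ := h2
    exact ⟨G.comp (C X * (Y - C κ) - 1), by rw [kerGen, kerGen, hG, mul_comp]⟩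
  have h4 : kerGen ν' κ = C X ^ (ν'.natDegree + ν.natDegree) * ν := by
    apply ext_evalEval
    intro x hx y
    rw [evalEval_kerGen _ _ hx, hev x hx, evalEval_mul, evalEval_pow, evalEval_C, eval_X, pow_add,
      mul_assoc]
    congr 3
    ring
  rw [h4] at h3
  obtain ⟨H, hH⟩ := kerGen_eq hE κ
  have hε : ((-1 : k) ^ E.natDegree) * (-1 : k) ^ E.natDegree = 1 := by
    rw [← mul_pow]; simp
  have hcop : IsCoprime (kerGen E κ) (C X ^ (ν'.natDegree + ν.natDegree)) := by
    apply IsCoprime.pow_right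
    refine ⟨C (C ((-1 : k) ^ E.natDegree)), -(C (C ((-1 : k) ^ E.natDegree)) * H), ?_⟩
    have h5 : (C (C ((-1 : k) ^ E.natDegree)) : k[X][Y]) * C (C ((-1 : k) ^ E.natDegree)) = 1 := by
      rw [← map_mul, ← map_mul, hε, map_one, map_one]
    rw [hH]
    linear_combination h5
  exact hcop.dvd_of_dvd_mul_left h3

end Gen2

theorem ker [IsAlgClosed K] : KerStatement K := by
  intro G
  obtain ⟨E, hE, hdvd⟩ := exists_minimal G.hp.pos G.eta
  have hdvd1 : ∀ Q : K[X][Y], E ∣ Q → ∀ s : K, Q.evalEval (s ^ G.p) (G.eta.eval s) = 0 := by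
    intro Q hQ s
    rw [← eval_eval₂_expand, (hdvd Q).1 hQ, eval_zero]
  have hdvd2 : ∀ Q : K[X][Y], (∀ s : K, s ≠ 0 → Q.evalEval (s ^ G.p) (G.eta.eval s) = 0) →
      E ∣ Q := by
    intro Q hQ
    rw [hdvd]
    apply eq_zero_of_infinite_isRoot
    refine Set.Infinite.mono ?_ (Set.finite_singleton (0 : K)).infinite_compl
    intro s hs
    change IsRoot _ s
    rw [IsRoot.def, eval_eval₂_expand]
    exact hQ s hs
  have hev : ∀ κ κ' s, s ≠ 0 → G.ev κ s (kerGen E κ') = (s ^ G.p) ^ E.natDegree *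
      E.evalEval (s ^ G.p) (G.eta.eval s + (κ - κ').eval (s ^ G.p)) := by
    intro κ κ' s hs
    rw [Glue.ev, evalEval_kerGen _ _ (pow_ne_zero _ hs), Glue.yy]
    congr 2
    rw [eval_sub]
    ring
  refine ⟨kerGen E, ?_, ?_, ?_⟩
  · intro κ ν
    constructor
    · rintro ⟨Q, rfl⟩ s hs
      have h1 := hev κ κ s hs
      rw [sub_self, eval_zero, add_zero, hdvd1 E dvd_rfl s, mul_zero] at h1
      rw [Glue.ev] at h1 ⊢
      rw [evalEval_mul, h1, zero_mul]
    · intro h
      exact kerGen_dvd hE hdvd2 κ ν h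
  · intro κ
    obtain ⟨H, hH⟩ := kerGen_eq hE κ
    exact ⟨H, _, pow_ne_zero _ (by simp), hH⟩
  · intro κ κ' hne
    by_contra hcon
    push Not at hcon
    set δ := κ - κ' with hδ
    have hδ0 : δ ≠ 0 := sub_ne_zero.2 hne
    -- `E(X, W + δ)` is divisible by `E`
    have h1 : E ∣ E.comp (Y + C δ) := by
      apply hdvd2
      intro s hs
      have h2 := hcon s hs
      rw [hev κ κ' s hs] at h2
      have h3 := (mul_eq_zero.1 h2).resolve_left (pow_ne_zero _ (pow_ne_zero _ hs))
      rw [evalEval_comp, evalEval_add, evalEval_X, evalEval_C]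
      exact h3
    have h2 : E.comp (Y + C δ) = E := by
      refine eq_of_monic_of_dvd_of_natDegree_le hE (hE.comp_X_add_C δ) h1 ?_
      rw [natDegree_comp, natDegree_X_add_C, mul_one]
    obtain ⟨x, hx⟩ : ∃ x : K, δ.eval x ≠ 0 := by
      by_contra hx
      push Not at hx
      exact hδ0 (Polynomial.funext (by simpa using hx))
    have h3 : ∀ y : K, E.evalEval x (y + δ.eval x) = E.evalEval x y := by
      intro y
      have := congrArg (evalEval x y) h2
      rwa [evalEval_comp, evalEval_add, evalEval_X, evalEval_C] at this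
    have h4 : ∀ n : ℕ, E.evalEval x (n * δ.eval x) = E.evalEval x 0 := by
      intro n
      induction n with
      | zero => simp
      | succ n ih => rw [← ih, ← h3 (n * δ.eval x)]; push_cast; ring_nf
    set P := E.map (evalRingHom x) with hP
    have hPev : ∀ y, P.eval y = E.evalEval x y := by
      intro y
      rw [hP, eval_map, eval₂_evalRingHom]
    have h5 : P - C (P.eval 0) = 0 := by
      apply eq_zero_of_infinite_isRoot
      refine Set.Infinite.mono ?_ (Set.infinite_range_of_injective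
        (f := fun n : ℕ => (n : K) * δ.eval x) ?_)
      · rintro _ ⟨n, rfl⟩
        change IsRoot _ _
        rw [IsRoot.def, eval_sub, eval_C, hPev, hPev, h4, sub_self]
      · intro m n hmn
        exact Nat.cast_injective (mul_right_cancel₀ hx hmn)
    have h6 : P.natDegree = 0 := by
      rw [sub_eq_zero.1 h5, natDegree_C]
    have h7 : E.natDegree = 0 := by
      rw [← h6, hP, hE.natDegree_map]
    have h8 : E = 1 := Polynomial.eq_one_of_monic_natDegree_zero hE h7
    have h9 := hdvd1 E dvd_rfl 1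
    rw [h8, evalEval_one] at h9
    exact one_ne_zero h9

end IdealChomp
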