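import Mathlib
import Pool.Agent.Lib.MP_69b5dd_co.Defs

set_option autoImplicit false

/-!
# Module LAURENT: zeros of functions on the curves
-/

open Polynomial
open scoped Polynomial.Bivariate

universe u

namespace IdealChomp

variable {K : Type*} [Field K] [CharZero K]

/-- A function on the curve is a polynomial in the parameter over a power of `s ^ p`. -/
lemma Glue.exists_num (G : Glue K) (κ : K[X]) (ν : K[X][Y]) : ∃ (n : ℕ) (q : K[X]),
    ∀ s : K, s ≠ 0 → (s ^ G.p) ^ n * G.ev κ s ν = q.eval s := by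
  refine ⟨ν.natDegree, ((scaleRoots ν X).comp
    (1 + C X * (C κ + Y))).eval₂ (expand K G.p : K[X] →+* K[X]) G.eta, ?_⟩
  intro s hs
  have hx : s ^ G.p ≠ 0 := pow_ne_zero _ hs
  set x := s ^ G.p with hxdef
  have h0 : ∀ Q : K[X][Y], (Q.eval₂ (expand K G.p : K[X] →+* K[X]) G.eta).eval s =
      Q.evalEval x (G.eta.eval s) := by
    intro Q
    rw [← eval₂_evalRingHom, ← coe_evalRingHom, hom_eval₂]
    congr 1
    ext a
    · simp
    · simp [hxdef]
  have h1 : ∀ (Q R : K[X][Y]) (y : K), (Q.comp R).evalEval x y = Q.evalEval x (R.evalEval x y) := by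
    intro Q R y
    rw [← eval₂_evalRingHom, comp, ← coe_eval₂RingHom, hom_eval₂]
    congr 1
    ext a <;> simp
  rw [h0, h1]
  have h2 : (1 + C X * (C κ + Y) : K[X][Y]).evalEval x (G.eta.eval s) = x * G.yy κ s := by
    rw [evalEval_add, evalEval_mul, evalEval_C, evalEval_add, evalEval_C, evalEval_X, evalEval_one,
      eval_X, Glue.yy, ← hxdef]
    field_simp
    ring
  rw [h2, ← eval₂_evalRingHom]
  have h3 := scaleRoots_eval₂_mul (p := ν) (evalRingHom x) (G.yy κ s) X
  simp only [coe_evalRingHom, eval_X] at h3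
  rw [h3, Glue.ev, ← hxdef, eval₂_evalRingHom]

/-- A nonzero polynomial with algebraic coefficients has only algebraic roots. -/
lemma isAlgebraic_of_lifts {D : K[X]} (hD : D ≠ 0)
    (hl : D ∈ liftsRing (algebraMap (algebraicClosure ℚ K) K)) {t : K} (ht : D.eval t = 0) :
    IsAlgebraic ℚ t := by
  obtain ⟨D', hD'⟩ := hl
  have hD'0 : D' ≠ 0 := by
    rintro rfl
    apply hD
    rw [← hD', map_zero]
  have h1 : IsAlgebraic (algebraicClosure ℚ K) t := by
    refine ⟨D', hD'0, ?_⟩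
    rw [← hD'] at ht
    rw [coe_mapRingHom, eval_map] at ht
    exact ht
  by_contra h2
  exact (Transcendental.algebraicClosure (F := ℚ) (E := K) h2) h1

theorem laurent [IsAlgClosed K] : LaurentStatement K := by
  rintro G κ ν ⟨s, hs, hν⟩
  obtain ⟨n, q, hq⟩ := G.exists_num κ ν
  have hp0 : 0 < G.p := G.hp.pos
  have hζ0 : G.ζ ≠ 0 := G.hζ.ne_zero hp0.ne'
  have hζp : G.ζ ^ G.p = 1 := G.hζ.pow_eq_one
  have hζ1 : G.ζ ≠ 1 := G.hζ.ne_one G.hp.one_lt
  have hτ0 : G.τ ≠ 0 := by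
    intro h
    exact G.hτ (h ▸ isAlgebraic_zero)
  have hq0 : q ≠ 0 := by
    rintro rfl
    have := hq s hs
    rw [eval_zero] at this
    exact (mul_eq_zero.1 this).elim (pow_ne_zero _ (pow_ne_zero _ hs)) hν
  by_cases hno : ∃ s₁ s₂ : K, s₁ ≠ 0 ∧ s₂ ≠ 0 ∧ G.ev κ s₁ ν = 0 ∧ G.ev κ s₂ ν = 0 ∧
      (s₁ ^ G.p ≠ s₂ ^ G.p ∨ G.yy κ s₁ ≠ G.yy κ s₂)
  · exact Or.inr hno
  left
  push Not at hno
  have hzero : ∀ ρ : K, ρ ≠ 0 → q.eval ρ = 0 → G.ev κ ρ ν = 0 := by
    intro ρ hρ h
    have := hq ρ hρ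
    rw [h] at this
    exact (mul_eq_zero.1 this).resolve_left (pow_ne_zero _ (pow_ne_zero _ hρ))
  -- symmetry at `1` and `τ`
  have hsym : ∀ α : K, α ≠ 0 → G.eta.eval (G.ζ * α) = G.eta.eval α →
      q.eval (G.ζ * α) = q.eval α := by
    intro α hα h
    rw [← hq _ (mul_ne_zero hζ0 hα), ← hq _ hα, Glue.ev, Glue.ev, Glue.yy, Glue.yy, h, mul_pow,
      hζp, one_mul]
  have heta : ∀ α : K, G.eta.eval α = α ^ 2 + (G.lam * α ^ G.p + G.mu) * α := by
    intro α
    simp [Glue.eta]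
  have hs1 : q.eval (G.ζ * 1) = q.eval 1 := by
    apply hsym 1 one_ne_zero
    rw [heta, heta, mul_pow, mul_pow, hζp, one_pow, one_pow]
    linear_combination (G.ζ - 1) * G.h1
  have hsτ : q.eval (G.ζ * G.τ) = q.eval G.τ := by
    apply hsym G.τ hτ0
    rw [heta, heta, mul_pow, mul_pow, hζp]
    linear_combination (G.ζ - 1) * G.τ * G.h2
  have hsplit : q.Splits := IsAlgClosed.splits q
  have hprod := hsplit.eq_prod_roots
  -- no nonzero root
  have hroot : ∀ ρ ∈ q.roots, ρ = 0 := by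
    intro s₁ hs₁
    by_contra hs₁0
    have hs₁r : q.eval s₁ = 0 := by simpa using (mem_roots hq0).1 hs₁
    have hρ : ∀ ρ : K, ρ ≠ 0 → q.eval ρ = 0 → ρ ^ G.p = s₁ ^ G.p ∧
        G.eta.eval ρ = G.eta.eval s₁ := by
      intro ρ hρ0 hρr
      obtain ⟨h1, h2⟩ := hno ρ s₁ hρ0 hs₁0 (hzero _ hρ0 hρr) (hzero _ hs₁0 hs₁r)
      refine ⟨h1, ?_⟩
      rw [Glue.yy, Glue.yy, h1] at h2
      exact add_left_cancel h2
    set Q : K[X] := (q.roots.map (fun ρ => X - C (ρ / s₁))).prod with hQ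
    have hQev : ∀ t : K, q.eval (s₁ * t) = q.leadingCoeff * s₁ ^ (Multiset.card q.roots) *
        Q.eval t := by
      intro t
      conv_lhs => rw [hprod]
      rw [eval_mul, eval_C, mul_assoc]
      congr 1
      rw [hQ, eval_multiset_prod, eval_multiset_prod, Multiset.map_map, Multiset.map_map]
      have h1 : ∀ m : Multiset K, (m.map (eval (s₁ * t) ∘ fun a => X - C a)).prod =
          s₁ ^ (Multiset.card m) * (m.map (eval t ∘ fun ρ => X - C (ρ / s₁))).prod := by
        intro m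
        induction m using Multiset.induction with
        | empty => simp
        | cons a m ih =>
          rw [Multiset.map_cons, Multiset.prod_cons, Multiset.map_cons, Multiset.prod_cons, ih,
            Multiset.card_cons, pow_succ]
          have h2 : (eval (s₁ * t) ∘ fun a => X - C a) a =
              s₁ * (eval t ∘ fun ρ => X - C (ρ / s₁)) a := by
            simp only [Function.comp_apply, eval_sub, eval_X, eval_C]
            field_simp
          rw [h2]
          ring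
      exact h1 _
    have hlc : q.leadingCoeff * s₁ ^ (Multiset.card q.roots) ≠ 0 :=
      mul_ne_zero (leadingCoeff_ne_zero.2 hq0) (pow_ne_zero _ hs₁0)
    -- coefficients of `Q` are algebraic
    have hζalg : IsAlgebraic ℚ G.ζ := by
      refine ⟨X ^ G.p - 1, ?_, by simp [hζp]⟩
      exact (monic_X_pow_sub_C (1 : ℚ) hp0.ne').ne_zero
    have hC : ∀ c : K, IsAlgebraic ℚ c →
        (C c : K[X]) ∈ liftsRing (algebraMap (algebraicClosure ℚ K) K) := by
      intro c hc
      exact ⟨C ⟨c, mem_algebraicClosure_iff.2 hc⟩, by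
        rw [coe_mapRingHom, map_C]; rfl⟩
    have hXl : (X : K[X]) ∈ liftsRing (algebraMap (algebraicClosure ℚ K) K) :=
      ⟨X, by rw [coe_mapRingHom, map_X]⟩
    have hρalg : ∀ ρ ∈ q.roots, IsAlgebraic ℚ (ρ / s₁) := by
      intro ρ hρm
      by_cases hρ0 : ρ = 0
      · rw [hρ0, zero_div]; exact isAlgebraic_zero
      · have h1 := (hρ ρ hρ0 (by simpa using (mem_roots hq0).1 hρm)).1
        refine ⟨X ^ G.p - 1, (monic_X_pow_sub_C (1 : ℚ) hp0.ne').ne_zero, ?_⟩
        simp [div_pow, h1, div_self (pow_ne_zero G.p hs₁0)]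
    have hQl : Q ∈ liftsRing (algebraMap (algebraicClosure ℚ K) K) := by
      rw [hQ]
      apply Subring.multiset_prod_mem
      intro P hP
      obtain ⟨ρ, hρm, rfl⟩ := Multiset.mem_map.1 hP
      exact sub_mem hXl (hC _ (hρalg ρ hρm))
    set D : K[X] := Q.comp (C G.ζ * X) - Q with hD
    have hDl : D ∈ liftsRing (algebraMap (algebraicClosure ℚ K) K) := by
      refine sub_mem ?_ hQl
      obtain ⟨Q', hQ'⟩ := hQl
      obtain ⟨R', hR'⟩ := mul_mem (hC _ hζalg) hXl
      refine ⟨Q'.comp R', ?_⟩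
      rw [coe_mapRingHom] at hQ' hR' ⊢
      rw [map_comp, hQ', hR']
    have hDev : ∀ α : K, q.eval (G.ζ * α) = q.eval α → D.eval (α / s₁) = 0 := by
      intro α hα
      have h1 := hQev (G.ζ * (α / s₁))
      have h2 := hQev (α / s₁)
      have h3 : s₁ * (G.ζ * (α / s₁)) = G.ζ * α := by field_simp
      have h4 : s₁ * (α / s₁) = α := by field_simp
      rw [h3, hα] at h1
      rw [h4, h1] at h2
      rw [hD, eval_sub, eval_comp, eval_mul, eval_C, eval_X, mul_left_cancel₀ hlc h2, sub_self]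
    have hD0 : D = 0 := by
      by_contra hne
      have h1 := isAlgebraic_of_lifts hne hDl (hDev 1 hs1)
      have h2 := isAlgebraic_of_lifts hne hDl (hDev G.τ hsτ)
      apply G.hτ
      have h3 : G.τ = (G.τ / s₁) * (1 / s₁)⁻¹ := by field_simp
      rw [h3]
      exact h2.mul h1.inv
    have hcl : ∀ x : K, Q.eval (G.ζ * x) = Q.eval x := by
      intro x
      have := congrArg (eval x) hD0
      rw [hD, eval_sub, eval_comp, eval_mul, eval_C, eval_X, eval_zero] at this
      exact sub_eq_zero.1 this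
    have hQ1 : Q.eval 1 = 0 := by
      have := hQev 1
      rw [mul_one, hs₁r] at this
      exact (mul_eq_zero.1 this.symm).resolve_left hlc
    have hQζ : Q.eval G.ζ = 0 := by
      have := hcl 1
      rwa [mul_one, hQ1] at this
    have hQζ2 : Q.eval (G.ζ * G.ζ) = 0 := by rw [hcl, hQζ]
    have hr1 : q.eval (s₁ * G.ζ) = 0 := by rw [hQev, hQζ, mul_zero]
    have hr2 : q.eval (s₁ * (G.ζ * G.ζ)) = 0 := by rw [hQev, hQζ2, mul_zero]
    have he1 := (hρ _ (mul_ne_zero hs₁0 hζ0) hr1).2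
    have he2 := (hρ _ (mul_ne_zero hs₁0 (mul_ne_zero hζ0 hζ0)) hr2).2
    rw [heta, heta, mul_pow, mul_pow, hζp] at he1
    have hpw : (s₁ * (G.ζ * G.ζ)) ^ G.p = s₁ ^ G.p := by rw [mul_pow, mul_pow, hζp]; ring
    rw [heta, heta, hpw] at he2
    have hl1 : s₁ * (G.ζ - 1) * ((G.ζ + 1) * s₁ + (G.lam * s₁ ^ G.p + G.mu)) = 0 := by
      linear_combination he1
    have hζ2 : G.ζ ^ 2 ≠ 1 := by
      rw [Ne, G.hζ.pow_eq_one_iff_dvd]
      intro h
      have := Nat.le_of_dvd (by norm_num) h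
      have := G.hp2
      omega
    have hl2 : s₁ * (G.ζ ^ 2 - 1) * ((G.ζ ^ 2 + 1) * s₁ + (G.lam * s₁ ^ G.p + G.mu)) = 0 := by
      linear_combination he2
    have hm1 := (mul_eq_zero.1 hl1).resolve_left (mul_ne_zero hs₁0 (sub_ne_zero.2 hζ1))
    have hm2 := (mul_eq_zero.1 hl2).resolve_left (mul_ne_zero hs₁0 (sub_ne_zero.2 hζ2))
    have hm3 : s₁ * (G.ζ * (G.ζ - 1)) = 0 := by linear_combination hm2 - hm1
    exact (mul_ne_zero hs₁0 (mul_ne_zero hζ0 (sub_ne_zero.2 hζ1))) hm3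
  -- conclusion
  have hrep : q.roots = Multiset.replicate (Multiset.card q.roots) 0 :=
    Multiset.eq_replicate_card.2 hroot
  set a := Multiset.card q.roots with ha
  have hq1 : q = C q.leadingCoeff * X ^ a := by
    conv_lhs => rw [hprod, hrep]
    rw [Multiset.map_replicate, Multiset.prod_replicate, C_0, sub_zero]
  have hqe : ∀ x, q.eval x = q.leadingCoeff * x ^ a := by
    intro x
    conv_lhs => rw [hq1]
    simp
  have hdvd : G.p ∣ a := by
    rw [mul_one, hqe, hqe, one_pow] at hs1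
    rw [← G.hζ.pow_eq_one_iff_dvd]
    exact mul_left_cancel₀ (leadingCoeff_ne_zero.2 hq0) hs1
  obtain ⟨l, hl⟩ := hdvd
  refine ⟨q.leadingCoeff, n, l, leadingCoeff_ne_zero.2 hq0, fun x hx => ?_⟩
  rw [hq x hx, hqe, ← pow_mul, hl]

end IdealChomp
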