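import Pool.Agent.Lib.MP_69b5dd_co.Curves
import Pool.Agent.Lib.MP_69b5dd_co.Bertini
import Pool.Agent.Lib.MP_69b5dd_co.Comb
import Pool.Agent.Lib.MP_69b5dd_co.Coord
import Pool.Agent.Lib.MP_69b5dd_co.Free
import Pool.Agent.Lib.MP_69b5dd_co.Ker
import Pool.Agent.Lib.MP_69b5dd_co.Laurent

/-!
# Final assembly: player B wins on `K[x,y,z]`
-/

set_option linter.unusedSectionVars false

namespace IdealChomp

open Polynomial
open scoped Polynomial.Bivariate

universe u

variable {K : Type u} [Field K] [CharZero K] [IsAlgClosed K]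

section ToSetup

variable {G : Glue K} {F : K[X] → K[X][Y]}
  {R S : Type u} [CommRing R] [IsDomain R] [IsNoetherianRing R] [CommRing S] [IsDomain S]
  [Algebra K[X][Y] S] {n : Type*} [Fintype n] [DecidableEq n] [Nonempty n]
  (b : Module.Basis n K[X][Y] S)
  (π : R →+* S) (hπ : Function.Surjective π) (ψ : K[X][Y] →+* R)
  (hπψ : ∀ ν, π (ψ ν) = algebraMap K[X][Y] S ν)
  {a : R} (hker : ∀ x, π x = 0 ↔ a ∣ x)
  {ι : Type*} [Fintype ι] {κ : ι → K[X]}

include hπ hπψ hker in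
theorem comap_cIdeal (κ : K[X]) :
    (cIdeal F S κ).comap π = Ideal.span {a} ⊔ Ideal.span {ψ (F κ)} := by
  have h1 := comap_sup_span π hπ ⊥ (ψ (F κ))
  rw [bot_sup_eq, hπψ] at h1
  unfold cIdeal
  rw [h1]
  congr 1
  ext x
  rw [Ideal.mem_comap, Ideal.mem_bot, hker, Ideal.mem_span_singleton]

include b hπ hπψ hker in
theorem setup_of (ha : Prime a) (hdim : ringKrullDim R ≤ 3) (hF : G.IsKer F)
    (hFε : ∀ κ, ∃ (H : K[X][Y]) (ε : K), ε ≠ 0 ∧ F κ = C (C ε) + C X * H)
    (hFne : ∀ κ κ', κ ≠ κ' → ∃ s : K, s ≠ 0 ∧ G.ev κ s (F κ') ≠ 0)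
    (hκinj : Function.Injective κ)
    (hprime : ∀ i, (cIdeal F S (κ i)).IsPrime)
    {s₀ : K} (hs₀ : s₀ ≠ 0) (hκs : ∀ i j, (κ i).eval (s₀ ^ G.p) = (κ j).eval (s₀ ^ G.p))
    {h₀ : K[X][Y]} {h : R}
    (hh : ∀ i, π h - algebraMap K[X][Y] S h₀ ∈ cIdeal F S (κ i))
    (h2 : ∀ i, G.ev (κ i) s₀ h₀ = 2) (h1 : ∀ i, G.ev (κ i) (G.ζ * s₀) h₀ = 1)
    (hne : ∀ i j, i ≠ j → ∀ x y : K, (F (κ i)).evalEval x y = 0 →
      (F (κ j)).evalEval x y = 0 → h₀.evalEval x y ≠ 0) :
    Setup a h (fun i => ψ (F (κ i))) := by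
  classical
  have hF0 : ∀ κ, F κ ≠ 0 := by
    intro κ h0
    obtain ⟨H, ε, hε, he⟩ := hFε κ
    have := congrArg (fun ν : K[X][Y] => ν.evalEval 0 0) he
    simp only [h0, evalEval_zero, evalEval_add, evalEval_mul, evalEval_C, eval_C, eval_X,
      zero_mul, add_zero] at this
    exact hε this.symm
  have hinjS : ∀ ν : K[X][Y], algebraMap K[X][Y] S ν = 0 → ν = 0 := by
    intro ν hν
    have := Module.Free.of_basis b
    have := Module.Finite.of_basis b
    have h1 := congrArg (Algebra.norm K[X][Y]) hν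
    rw [Algebra.norm_algebraMap, Algebra.norm_zero] at h1
    by_contra hne
    exact pow_ne_zero _ hne h1
  have hcomap : ∀ i, (cIdeal F S (κ i)).comap π = PI a (fun i => ψ (F (κ i))) i :=
    fun i => comap_cIdeal π hπ ψ hπψ hker (κ i)
  have hmem : ∀ i x, x ∈ PI a (fun i => ψ (F (κ i))) i ↔ π x ∈ cIdeal F S (κ i) := by
    intro i x
    rw [← hcomap i, Ideal.mem_comap]
  have hprimeR : ∀ i, (PI a (fun i => ψ (F (κ i))) i).IsPrime := by
    intro i
    rw [← hcomap i]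
    have := hprime i
    exact Ideal.comap_isPrime π _
  have hnmem : ∀ i j, i ≠ j → ψ (F (κ i)) ∉ PI a (fun i => ψ (F (κ i))) j := by
    intro i j hij hm
    rw [hmem, hπψ, mem_cIdeal_iff b hF] at hm
    obtain ⟨s, hs, hev⟩ := hFne (κ j) (κ i) (fun h => hij (hκinj h.symm))
    exact hev ((hF (κ j) _).mp hm s hs)
  refine ⟨ha, ?_, ?_, hprimeR, ?_, hnmem, ?_, ?_⟩
  · intro hdvd
    have h0 := (hker _).mpr hdvd
    rw [map_prod, Finset.prod_eq_zero_iff] at h0
    obtain ⟨i, _, hi⟩ := h0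
    rw [hπψ] at hi
    exact hF0 _ (hinjS _ hi)
  · intro j k hjk
    have h3 := curve_cop b (hh j) (hne j k hjk)
    have h4 := congrArg (Ideal.comap π) h3
    rw [Ideal.comap_top] at h4
    have e1 : (Ideal.span {π h}).comap π = Ideal.span {a} ⊔ Ideal.span {h} := by
      have h1 := comap_sup_span π hπ ⊥ h
      rw [bot_sup_eq] at h1
      rw [h1]
      congr 1
      ext x
      rw [Ideal.mem_comap, Ideal.mem_bot, hker, Ideal.mem_span_singleton]
    have e2 : (Ideal.span {π h} ⊔ cIdeal F S (κ j) ⊔ cIdeal F S (κ k)).comap π =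
        Ideal.span {a} ⊔ Ideal.span {h} ⊔ Ideal.span {ψ (F (κ j))} ⊔
          Ideal.span {ψ (F (κ k))} := by
      unfold cIdeal
      rw [← hπψ, ← hπψ, comap_sup_span π hπ, comap_sup_span π hπ, e1]
    rw [← e2, h4]
  · intro i Q hQ hlt
    by_contra hnm
    obtain ⟨M, hM, hle⟩ := Ideal.exists_le_maximal Q hQ.ne_top
    have hQM : Q < M := by
      refine lt_of_le_of_ne hle ?_
      rintro rfl
      exact hnm hM
    have hPi := hprimeR i
    refine no_chain4 hdim (p₀ := ⊥) (p₁ := Ideal.span {a})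
      (p₂ := PI a (fun i => ψ (F (κ i))) i) (p₃ := Q) (p₄ := M) Ideal.isPrime_bot
      ((Ideal.span_singleton_prime ha.ne_zero).mpr ha) hPi hQ hM.isPrime ?_ ?_ hlt hQM
    · rw [bot_lt_iff_ne_bot]
      intro h
      exact ha.ne_zero (Ideal.span_singleton_eq_bot.mp h)
    · refine lt_of_le_of_ne le_sup_left ?_
      intro heq
      have : ψ (F (κ i)) ∈ Ideal.span {a} := by
        rw [heq]; exact F_mem_PI i
      rw [Ideal.mem_span_singleton, ← hker, hπψ] at this
      exact hF0 _ (hinjS _ this)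
  · intro j u hu hne'
    rw [hmem] at hu
    have e1 : (cIdeal F S (κ j) ⊔ Ideal.span {π u}).comap π =
        PI a (fun i => ψ (F (κ i))) j ⊔ Ideal.span {u} := by
      rw [comap_sup_span π hπ, hcomap]
    have hne'' : cIdeal F S (κ j) ⊔ Ideal.span {π u} ≠ ⊤ := by
      intro h
      apply hne'
      rw [← e1, h, Ideal.comap_top]
    obtain ⟨H, ε, hε, he⟩ := hFε (κ j)
    obtain ⟨M₁, M₂, hM₁, hM₂, h12, hl1, hl2⟩ :=
      curve_h5 b laurent hF hε he (hprime j) hu hne''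
    refine ⟨M₁.comap π, M₂.comap π, Ideal.comap_isMaximal_of_surjective π hπ,
      Ideal.comap_isMaximal_of_surjective π hπ, ?_, ?_, ?_⟩
    · intro h
      exact h12 (Ideal.comap_injective_of_surjective π hπ h)
    · rw [← e1]; exact Ideal.comap_mono hl1
    · rw [← e1]; exact Ideal.comap_mono hl2
  · intro j k hjk u v u' v' N N' huv huv' hcomb
    rw [hmem, map_sub, map_one, map_mul] at huv huv'
    have e1 : (cIdeal F S (κ j) ⊔ cIdeal F S (κ k)).comap π =
        PI a (fun i => ψ (F (κ i))) j ⊔ PI a (fun i => ψ (F (κ i))) k := by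
      have h3 := comap_sup_span π hπ (cIdeal F S (κ j)) (ψ (F (κ k)))
      rw [hπψ, hcomap j] at h3
      unfold cIdeal at h3 ⊢
      rw [h3]
      unfold PI
      apply le_antisymm
      · refine sup_le le_sup_left (le_sup_of_le_right le_sup_right)
      · refine sup_le le_sup_left (sup_le ?_ le_sup_right)
        exact le_sup_left.trans le_sup_left
    rw [← e1, Ideal.mem_comap, map_sub, map_mul, map_mul, map_pow, map_pow] at hcomb
    exact curve_hU b laurent hF hs₀ (hκs j k) (hh j) (h2 j) (h1 j) huv huv' hcomb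

end ToSetup

/-- The choice of `h₀`. -/
theorem exists_h0 {V : Set (K × K)} (hV : V.Finite) {x₀ y₀ x₁ y₁ : K} (h : y₀ ≠ y₁) :
    ∃ h₀ : K[X][Y], h₀.evalEval x₀ y₀ = 2 ∧ h₀.evalEval x₁ y₁ = 1 ∧
      ∀ w ∈ V, h₀.evalEval w.1 w.2 ≠ 0 := by
  classical
  -- bad values of `t`
  set B : Set K := (fun w : K × K =>
    -(1 + (y₀ - y₁)⁻¹ * (w.2 - y₁)) / ((w.2 - y₀) * (w.2 - y₁))) '' V with hB
  have hBfin : B.Finite := hV.image _
  obtain ⟨t, ht⟩ := hBfin.infinite_compl.nonempty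
  have hd : y₀ - y₁ ≠ 0 := sub_ne_zero.mpr h
  refine ⟨C (C 1) + C (C (y₀ - y₁)⁻¹) * (X - C (C y₁)) +
    C (C t) * ((X - C (C y₀)) * (X - C (C y₁))), ?_, ?_, ?_⟩
  · simp only [evalEval_add, evalEval_mul, evalEval_sub, evalEval_C, evalEval_X, eval_C]
    rw [inv_mul_cancel₀ hd]
    ring
  · simp only [evalEval_add, evalEval_mul, evalEval_sub, evalEval_C, evalEval_X, eval_C]
    ring
  · intro w hw
    simp only [evalEval_add, evalEval_mul, evalEval_sub, evalEval_C, evalEval_X, eval_C]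
    by_cases h0 : w.2 = y₀
    · rw [h0, sub_self, zero_mul, mul_zero, add_zero, inv_mul_cancel₀ hd]
      norm_num
    by_cases h1 : w.2 = y₁
    · rw [h1, sub_self, mul_zero, mul_zero, mul_zero, add_zero, add_zero]
      exact one_ne_zero
    intro hz
    apply ht
    refine ⟨w, hw, ?_⟩
    have h2 : (w.2 - y₀) * (w.2 - y₁) ≠ 0 :=
      mul_ne_zero (sub_ne_zero.mpr h0) (sub_ne_zero.mpr h1)
    show -(1 + (y₀ - y₁)⁻¹ * (w.2 - y₁)) / ((w.2 - y₀) * (w.2 - y₁)) = t
    rw [div_eq_iff h2]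
    linear_combination -hz

/-- The gluing data exist. -/
theorem exists_glue {τ : K} (hτ : Transcendental ℚ τ) (N : ℕ) : ∃ G : Glue K, N < G.p := by
  obtain ⟨p, hpN, hp⟩ := Nat.exists_infinite_primes (N + 3)
  have hne : NeZero (p : K) := ⟨by exact_mod_cast hp.ne_zero⟩
  obtain ⟨ζ, hζ⟩ := HasEnoughRootsOfUnity.exists_primitiveRoot K p
  have h1 : τ ^ p - 1 ≠ 0 := by
    intro h
    apply hτ
    refine ⟨X ^ p - 1, ?_, by simpa using h⟩
    exact Polynomial.X_pow_sub_C_ne_zero hp.pos 1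
  refine ⟨{ p := p, hp := hp, hp2 := by omega, ζ := ζ, hζ := hζ, τ := τ, hτ := hτ,
            lam := -(1 + ζ) * (τ - 1) / (τ ^ p - 1),
            mu := -(1 + ζ) + (1 + ζ) * (τ - 1) / (τ ^ p - 1),
            h1 := ?_, h2 := ?_ }, by show N < p; omega⟩
  · field_simp
    ring
  · field_simp
    ring

theorem alg_h {R : Type*} [CommRing R] {a r s b β Γ H₀ εi εr P : R} (hβ : β = r * a + s * b)
    (hP : P = εr + β * Γ) (hεε : εi * εr = 1) :
    (Γ * r - εi * (H₀ - Γ * r) * (s * b * Γ)) - H₀ =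
      -(εi * (H₀ - Γ * r) * P) + a * (εi * (H₀ - Γ * r) * (r * Γ)) := by
  rw [hP, hβ]
  linear_combination (H₀ - Γ * r) * hεε

theorem alg_g {R : Type*} [CommRing R] {a r s b β Γ H₀ εi εr P : R} (hβ : β = r * a + s * b)
    (hP : P = εr + β * Γ) :
    P - a * (Γ * r - εi * (H₀ - Γ * r) * (s * b * Γ)) =
      εr + b * (s * Γ + εi * a * (H₀ - Γ * r) * s * Γ) := by
  rw [hP, hβ]
  ring

theorem alg_e {R : Type*} [CommRing R] {a b t εi εr : R} {e : ℕ} (hεε : εi * εr = 1) :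
    a ^ e = (εi * a ^ e) * (εr + b * t) - (εi * t) * (a ^ e * b) := by
  linear_combination (-(a ^ e)) * hεε

/-- If `gg ≡ unit` modulo `b`, then the answer `gg` to `a ^ e * b` gives the position
`(a ^ e, gg)`. -/
theorem ideal_eq {R : Type*} [CommRing R] {a b t εi εr gg : R} {e : ℕ} (hεε : εi * εr = 1)
    (hg : gg = εr + b * t) :
    Ideal.span {a ^ e * b} ⊔ Ideal.span {gg} = Ideal.span {a ^ e} ⊔ Ideal.span {gg} := by
  apply le_antisymm
  · refine sup_le ?_ le_sup_right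
    rw [Ideal.span_singleton_le_iff_mem]
    exact Ideal.mem_sup_left (Ideal.mem_span_singleton.mpr (Dvd.intro _ rfl))
  · refine sup_le ?_ le_sup_right
    rw [Ideal.span_singleton_le_iff_mem]
    have e3 : a ^ e = (εi * a ^ e) * gg - (εi * t) * (a ^ e * b) := by
      rw [hg]
      exact alg_e hεε
    rw [e3]
    refine Ideal.sub_mem _ ?_ ?_
    · exact Ideal.mem_sup_right (Ideal.mul_mem_left _ _ (Ideal.mem_span_singleton_self _))
    · rw [← e3]
      exact Ideal.mem_sup_left (Ideal.mul_mem_left _ _ (Ideal.mem_span_singleton_self _))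

/-- The mover wins at `(a ^ e b)` by answering `∏ F i - a h`. -/
theorem Setup.moverWins {R : Type*} [CommRing R] [IsDomain R] [IsNoetherianRing R]
    {m : ℕ} (hm : 1 ≤ m) {a h : R} {Fs : Fin m → R} (hS : Setup a h Fs) {e : ℕ} (he : 1 ≤ e)
    (hCP : CP (fun _ : Fin m => e)) {b t εi εr : R} (hεε : εi * εr = 1)
    (hg : ∏ i, Fs i - a * h = εr + b * t) :
    MoverWins (Ideal.span {a ^ e * b}) := by
  have hne_fin : Nonempty (Fin m) := ⟨⟨0, hm⟩⟩
  have hP := hS.pPos he hCP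
  have hideal := ideal_eq (a := a) (e := e) hεε hg
  have hle : Ideal.span {a ^ e} ⊔ Ideal.span {∏ i, Fs i - a * h} ≤ PI a Fs ⟨0, hm⟩ := by
    rw [sup_le_iff, Ideal.span_singleton_le_iff_mem, Ideal.span_singleton_le_iff_mem]
    constructor
    · exact Ideal.pow_mem_of_mem _ (a_mem_PI _) _ (by omega)
    · refine Ideal.sub_mem _ ?_ (Ideal.mul_mem_right _ _ (a_mem_PI _))
      obtain ⟨t', ht'⟩ := Finset.dvd_prod_of_mem Fs (Finset.mem_univ (⟨0, hm⟩ : Fin m))
      rw [ht']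
      exact Ideal.mul_mem_right _ _ (F_mem_PI _)
  refine PPos.moverWins (a := ∏ i, Fs i - a * h) ?_ ?_ (by rw [hideal]; exact hP)
  · intro hmem
    apply hS.ndvd
    have h1 : a ∣ ∏ i, Fs i - a * h := by
      have h2 := Ideal.mem_span_singleton.mp hmem
      refine dvd_trans ?_ h2
      exact Dvd.dvd.mul_right (dvd_pow_self a (by omega)) _
    have h3 : ∏ i, Fs i = (∏ i, Fs i - a * h) + a * h := by ring
    rw [h3]
    exact dvd_add h1 (Dvd.intro _ rfl)
  · rw [hideal]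
    intro htop
    apply (hS.prime ⟨0, hm⟩).ne_top
    rw [eq_top_iff, ← htop]
    exact hle

/-- The opening `a ^ e * b` loses; abstract version. -/
theorem opening_abs {τ : K} (hτ : Transcendental ℚ τ) {R S : Type u} [CommRing R] [IsDomain R]
    [IsNoetherianRing R] [CommRing S] [IsDomain S] [Algebra K[X][Y] S]
    [Module.Free K[X][Y] S] [Module.Finite K[X][Y] S]
    (π : R →+* S) (hsurj : Function.Surjective π) (ψ : K[X][Y] →+* R)
    (hπψ : ∀ ν, π (ψ ν) = algebraMap K[X][Y] S ν) {a : R} (hker : ∀ x, π x = 0 ↔ a ∣ x)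
    (ha : Prime a) (hdim : ringKrullDim R ≤ 3) {b r s : R} {e : ℕ} (he : 1 ≤ e)
    (hβ : ψ (C X) = r * a + s * b) : MoverWins (Ideal.span {a ^ e * b}) := by
  classical
  obtain ⟨G, hGN⟩ := exists_glue hτ (Module.finrank K[X][Y] S)
  obtain ⟨F, hF, hFε, hFne⟩ := ker G
  obtain ⟨s₀, c, hs₀, hη, hbad⟩ := bertini G F hF S hGN
  obtain ⟨m, hm, hCP⟩ := comb e he
  set bs := Module.Free.chooseBasis K[X][Y] S with hbs
  have hne_idx : Nonempty (Module.Free.ChooseBasisIndex K[X][Y] S) := bs.index_nonempty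
  -- the parameters `μ`
  have hK : Infinite K := inferInstance
  set Bad := {μ : K | ¬ (Ideal.span {algebraMap K[X][Y] S
    (F (C c + C μ * (X - C (s₀ ^ G.p))))}).IsPrime} with hBad
  have hgood : (Badᶜ).Infinite := hbad.infinite_compl
  let g := hgood.natEmbedding
  set κ : Fin m → K[X] := fun i => C c + C ((g i.val : K)) * (X - C (s₀ ^ G.p)) with hκ
  have hκinj : Function.Injective κ := by
    intro i j hij
    have h1 := congrArg (fun q : K[X] => q.eval (s₀ ^ G.p + 1)) hij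
    simp only [hκ, eval_add, eval_mul, eval_sub, eval_C, eval_X, add_sub_cancel_left, mul_one,
      add_right_inj] at h1
    have h2 : g i.val = g j.val := Subtype.ext h1
    exact Fin.ext (g.injective h2)
  have hprime : ∀ i, (cIdeal F S (κ i)).IsPrime := by
    intro i
    exact not_not.mp (g i.val).2
  have hκs : ∀ i, (κ i).eval (s₀ ^ G.p) = c := by
    intro i
    simp only [hκ, eval_add, eval_mul, eval_sub, eval_C, eval_X, sub_self, mul_zero, add_zero]
  have hF0 : ∀ κ, F κ ≠ 0 := by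
    intro κ h0
    obtain ⟨H, ε, hε, he⟩ := hFε κ
    have := congrArg (fun ν : K[X][Y] => ν.evalEval 0 0) he
    simp only [h0, evalEval_zero, evalEval_add, evalEval_mul, evalEval_C, eval_C, eval_X,
      zero_mul, add_zero] at this
    exact hε this.symm
  have hFprime : ∀ i, Prime (F (κ i)) := by
    intro i
    exact (Ideal.span_singleton_prime (hF0 _)).mp (span_isPrime bs hF (hprime i))
  -- intersection points
  set V : Set (K × K) := ⋃ i, ⋃ j, {w | i ≠ j ∧ (F (κ i)).evalEval w.1 w.2 = 0 ∧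
    (F (κ j)).evalEval w.1 w.2 = 0} with hV
  have hVfin : V.Finite := by
    refine Set.finite_iUnion (fun i => Set.finite_iUnion (fun j => ?_))
    by_cases hij : i = j
    · refine Set.Finite.subset Set.finite_empty ?_
      rintro w ⟨h, _⟩
      exact absurd hij h
    · refine (finite_inter (hFprime i) (B := F (κ j)) ?_).subset ?_
      · intro hdvd
        obtain ⟨s, hs, hev⟩ := hFne (κ i) (κ j) (fun h => hij (hκinj h))
        exact hev ((hF (κ i) _).mp hdvd s hs)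
      · rintro w ⟨_, h⟩
        exact h
  have hζ0 : G.ζ ≠ 0 := G.hζ.ne_zero G.hp.ne_zero
  have hpow : (G.ζ * s₀) ^ G.p = s₀ ^ G.p := by rw [mul_pow, G.hζ.pow_eq_one, one_mul]
  set y₀ := (s₀ ^ G.p)⁻¹ + c + G.eta.eval s₀ with hy₀
  set y₁ := (s₀ ^ G.p)⁻¹ + c + G.eta.eval (G.ζ * s₀) with hy₁
  have hyne : y₀ ≠ y₁ := by
    intro h
    exact hη (add_left_cancel h)
  obtain ⟨h₀, h₀2, h₀1, h₀V⟩ := exists_h0 hVfin (x₀ := s₀ ^ G.p) (x₁ := s₀ ^ G.p) hyne
  -- the product of the `F (κ i)`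
  obtain ⟨G₀, ε, hε, hprod⟩ : ∃ (G₀ : K[X][Y]) (ε : K), ε ≠ 0 ∧
      ∏ i, F (κ i) = C (C ε) + C X * G₀ := by
    have : ∀ T : Finset (Fin m), ∃ (G₀ : K[X][Y]) (ε : K), ε ≠ 0 ∧
        ∏ i ∈ T, F (κ i) = C (C ε) + C X * G₀ := by
      intro T
      induction T using Finset.induction_on with
      | empty => exact ⟨0, 1, one_ne_zero, by simp⟩
      | insert i T hi ih =>
        obtain ⟨G₁, ε₁, hε₁, h₁⟩ := ih
        obtain ⟨G₂, ε₂, hε₂, h₂⟩ := hFε (κ i)
        refine ⟨C (C ε₂) * G₁ + G₂ * C (C ε₁) + G₂ * (C X * G₁), ε₂ * ε₁,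
          mul_ne_zero hε₂ hε₁, ?_⟩
        rw [Finset.prod_insert hi, h₁, h₂, C_mul, C_mul]
        ring
    exact this Finset.univ
  -- everything in `R`
  have hψprod : ∏ i, ψ (F (κ i)) = ψ (C (C ε)) + ψ (C X) * ψ G₀ := by
    rw [← map_prod, hprod, map_add, map_mul]
  have hεε : ψ (C (C ε⁻¹)) * ψ (C (C ε)) = 1 := by
    rw [← map_mul, ← C_mul, ← C_mul, inv_mul_cancel₀ hε, C_1, C_1, map_one]
  obtain ⟨h, hh⟩ : ∃ h : R, h = ψ G₀ * r - ψ (C (C ε⁻¹)) * (ψ h₀ - ψ G₀ * r) * (s * b * ψ G₀) :=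
    ⟨_, rfl⟩
  have hsetup : Setup a h (fun i => ψ (F (κ i))) := by
    refine setup_of (G := G) (F := F) (κ := κ) bs π hsurj ψ hπψ hker ha hdim hF hFε hFne
      hκinj hprime hs₀ (fun i j => by rw [hκs, hκs]) (h₀ := h₀) ?_ ?_ ?_ ?_
    · intro i
      have e0 := alg_h (H₀ := ψ h₀) hβ hψprod hεε
      have e1 : π h - algebraMap K[X][Y] S h₀ = π (h - ψ h₀) := by
        rw [map_sub, hπψ]
      have e2 : π a = 0 := (hker a).mpr dvd_rfl
      rw [e1, hh, e0, map_add, map_mul π a, e2, zero_mul, add_zero, map_neg, map_mul, map_prod]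
      refine (Ideal.neg_mem_iff _).mpr (Ideal.mul_mem_left _ _ ?_)
      obtain ⟨t, ht⟩ := Finset.dvd_prod_of_mem (fun i => π (ψ (F (κ i)))) (Finset.mem_univ i)
      rw [ht]
      refine Ideal.mul_mem_right _ _ ?_
      rw [hπψ]
      exact Ideal.mem_span_singleton_self _
    · intro i
      unfold Glue.ev Glue.yy
      rw [hκs]
      exact h₀2
    · intro i
      unfold Glue.ev Glue.yy
      rw [hpow, hκs]
      exact h₀1
    · intro i j hij x y hx hy
      refine h₀V (x, y) ?_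
      rw [hV]
      exact Set.mem_iUnion.mpr ⟨i, Set.mem_iUnion.mpr ⟨j, hij, hx, hy⟩⟩
  refine hsetup.moverWins hm he hCP hεε (t := s * ψ G₀ + ψ (C (C ε⁻¹)) * a *
    (ψ h₀ - ψ G₀ * r) * s * ψ G₀) ?_
  rw [hh]
  exact alg_g hβ hψprod

/-- In the coordinates of COORD: the opening `a ^ e * b` loses. -/
theorem opening_coord {τ : K} (hτ : Transcendental ℚ τ) {a b : K[X][X][X]} {e : ℕ} {β : K[X][X]}
    {r s : K[X][X][X]} (he : 1 ≤ e) (ha : Prime a) (haM : a.Monic) (hβM : β.Monic)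
    (hβpos : 0 < β.natDegree) (hβ : C β = r * a + s * b) :
    MoverWins (Ideal.span {a ^ e * b}) := by
  let alg := (coordHom' a β).toAlgebra
  obtain ⟨hfree, hfin⟩ := free a β haM hβM hβpos
  have hdomS : IsDomain (AdjoinRoot a) := AdjoinRoot.isDomain_of_prime ha
  have hψX : (C.comp (coordHom β) : K[X][Y] →+* K[X][X][X]) (C X) = r * a + s * b := by
    rw [← hβ, RingHom.comp_apply, coordHom]
    simp
  exact opening_abs (S := AdjoinRoot a) hτ (AdjoinRoot.mk a) AdjoinRoot.mk_surjective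
    (C.comp (coordHom β)) (fun ν => rfl) (fun x => AdjoinRoot.mk_eq_zero) ha (dim3 K).le he hψX

theorem comap_span_equiv {R A : Type*} [CommRing R] [CommRing A] (Φ : R ≃+* A) (f : R) :
    (Ideal.span {Φ f}).comap (Φ : R →+* A) = Ideal.span {f} := by
  ext x
  rw [Ideal.mem_comap, Ideal.mem_span_singleton, Ideal.mem_span_singleton]
  exact map_dvd_iff Φ

/-- Every opening move of player A loses. -/
theorem opening {τ : K} (hτ : Transcendental ℚ τ) (f : MvPolynomial (Fin 3) K) (hf : f ≠ 0)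
    (hu : ¬ IsUnit f) : MoverWins (Ideal.span {f}) := by
  obtain ⟨Φ, a, b, e, β, r, s, he, hΦ, ha, haM, hβM, hβpos, hβ⟩ := coord f hf hu
  have h1 := opening_coord hτ he ha haM hβM hβpos hβ
  rw [← hΦ] at h1
  have h2 := h1.comap (Φ : MvPolynomial (Fin 3) K →+* K[X][X][X]) Φ.surjective
  have h3 := comap_span_equiv (R := MvPolynomial (Fin 3) K) (A := K[X][X][X]) Φ f
  have h4 : MoverWins (Ideal.span {f}) = MoverWins ((Ideal.span {Φ f}).comap
      (Φ : MvPolynomial (Fin 3) K →+* K[X][X][X])) := congrArg _ h3.symm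
  rw [h4]
  exact h2

/-- The zero ideal of `K[x,y,z]` is a win for the second player. -/
theorem pPos_bot {τ : K} (hτ : Transcendental ℚ τ) :
    PPos (⊥ : Ideal (MvPolynomial (Fin 3) K)) := by
  intro f hf hne
  rw [bot_sup_eq] at hne ⊢
  refine opening hτ f (by simpa using hf) ?_
  intro hu
  exact hne (Ideal.span_singleton_eq_top.mpr hu)

end IdealChomp
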