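import Pool.Agent.Lib.MP_69b5dd_co.Defs

/-!
# Ideal Chomp: general lemmas on the game
-/

namespace IdealChomp

open Ideal

section Basic

variable {R : Type*} [CommRing R]

theorem PPos.moverWins {I : Ideal R} {a : R} (ha : a ∉ I) (hne : I ⊔ span {a} ≠ ⊤)
    (h : PPos (I ⊔ span {a})) : MoverWins I :=
  MoverWins.intro I a ha hne h

theorem moverWins_or_pPos [IsNoetherianRing R] (I : Ideal R) : MoverWins I ∨ PPos I := by
  induction I using WellFoundedGT.induction with
  | ind I ih =>
    by_cases hP : PPos I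
    · exact Or.inr hP
    · left
      unfold PPos at hP
      push Not at hP
      obtain ⟨b, hb, hne, hn⟩ := hP
      have hlt : I < I ⊔ span {b} := by
        refine lt_of_le_of_ne le_sup_left ?_
        intro h
        apply hb
        rw [h]
        exact Ideal.mem_sup_right (Ideal.mem_span_singleton_self b)
      rcases ih _ hlt with h | h
      · exact absurd h hn
      · exact PPos.moverWins hb hne h

/-- If there is a nontrivial idempotent modulo `I`, the mover wins at `I`. -/
theorem moverWins_of_idem [IsNoetherianRing R] {I : Ideal R} {e : R} (h1 : e ∉ I)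
    (h2 : 1 - e ∉ I) (he : e * (1 - e) ∈ I) : MoverWins I := by
  have key : ∀ g : R, I ⊔ span {e + (1 - e) * g} = I ⊔ span {e} ⊔ span {g} := by
    intro g
    apply le_antisymm
    · rw [sup_le_iff, span_singleton_le_iff_mem]
      refine ⟨le_sup_left.trans le_sup_left, ?_⟩
      apply Ideal.add_mem
      · exact Ideal.mem_sup_left (Ideal.mem_sup_right (Ideal.mem_span_singleton_self e))
      · exact Ideal.mem_sup_right (Ideal.mem_span_singleton.mpr (Dvd.intro_left _ rfl))
    · -- e * (e + (1 - e) g) ≡ e mod I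
      have hx : e + (1 - e) * g ∈ I ⊔ span {e + (1 - e) * g} :=
        Ideal.mem_sup_right (Ideal.mem_span_singleton_self _)
      have heI : e * (1 - e) ∈ I ⊔ span {e + (1 - e) * g} := Ideal.mem_sup_left he
      have he' : e ∈ I ⊔ span {e + (1 - e) * g} := by
        have := Ideal.add_mem _ (Ideal.mul_mem_left _ e hx) (Ideal.mul_mem_left _ (1 - g) heI)
        convert this using 1
        ring
      have hg' : g ∈ I ⊔ span {e + (1 - e) * g} := by
        have := Ideal.add_mem _ (Ideal.mul_mem_left _ (-1 + g) he') hx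
        convert this using 1
        ring
      rw [sup_le_iff, sup_le_iff, span_singleton_le_iff_mem, span_singleton_le_iff_mem]
      exact ⟨⟨le_sup_left, he'⟩, hg'⟩
  have hne : I ⊔ span {e} ≠ ⊤ := by
    intro h
    apply h2
    have h1' : (1 : R) ∈ I ⊔ span {e} := by rw [h]; trivial
    obtain ⟨i, hi, c, hc⟩ := Submodule.mem_sup.mp h1'
    obtain ⟨hc, hsum⟩ := hc
    obtain ⟨d, rfl⟩ := Ideal.mem_span_singleton.mp hc
    have : 1 - e = (1 - e) * i + d * (e * (1 - e)) := by
      calc 1 - e = (1 - e) * 1 := by ring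
        _ = (1 - e) * (i + e * d) := by rw [hsum]
        _ = _ := by ring
    rw [this]
    exact Ideal.add_mem _ (Ideal.mul_mem_left _ _ hi) (Ideal.mul_mem_left _ _ he)
  rcases moverWins_or_pPos (I ⊔ span {e}) with h | h
  · cases h with
    | intro _ g hg hne' hall =>
      refine MoverWins.intro I (e + (1 - e) * g) ?_ ?_ ?_
      · intro hmem
        apply hg
        have : I ⊔ span {e} ⊔ span {g} ≤ I ⊔ span {e} := by
          rw [← key, sup_le_iff, span_singleton_le_iff_mem]
          exact ⟨le_sup_left, Ideal.mem_sup_left hmem⟩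
        exact this (Ideal.mem_sup_right (Ideal.mem_span_singleton_self g))
      · rw [key]; exact hne'
      · rw [key]; exact hall
  · exact PPos.moverWins h1 hne h

end Basic

section ZeroDim

variable {R : Type*} [CommRing R]

/-- All primes over `J` are maximal. -/
def ZeroDim (J : Ideal R) : Prop := ∀ Q : Ideal R, Q.IsPrime → J ≤ Q → Q.IsMaximal

theorem ZeroDim.mono {J J' : Ideal R} (h : ZeroDim J) (hle : J ≤ J') : ZeroDim J' :=
  fun Q hQ hJQ => h Q hQ (hle.trans hJQ)

/-- In a noetherian ring, each ideal contains a product of primes which contain it. -/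
theorem exists_prod_primes_le [IsNoetherianRing R] (J : Ideal R) :
    ∃ Z : Multiset (Ideal R), (∀ Q ∈ Z, Q.IsPrime ∧ J ≤ Q) ∧ Z.prod ≤ J := by
  induction J using WellFoundedGT.induction with
  | ind J ih =>
    by_cases hJ : J.IsPrime
    · exact ⟨{J}, by simpa using hJ, by simp⟩
    by_cases htop : J = ⊤
    · exact ⟨0, by simp, by simp [htop]⟩
    · rw [Ideal.isPrime_iff] at hJ
      push Not at hJ
      obtain ⟨x, y, hxy, hx, hy⟩ := hJ htop
      have hltx : J < J ⊔ span {x} := by
        refine lt_of_le_of_ne le_sup_left fun h => hx ?_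
        rw [h]; exact Ideal.mem_sup_right (Ideal.mem_span_singleton_self x)
      have hlty : J < J ⊔ span {y} := by
        refine lt_of_le_of_ne le_sup_left fun h => hy ?_
        rw [h]; exact Ideal.mem_sup_right (Ideal.mem_span_singleton_self y)
      obtain ⟨Z1, h1, h1'⟩ := ih _ hltx
      obtain ⟨Z2, h2, h2'⟩ := ih _ hlty
      refine ⟨Z1 + Z2, ?_, ?_⟩
      · intro Q hQ
        rcases Multiset.mem_add.mp hQ with hQ | hQ
        · exact ⟨(h1 Q hQ).1, le_sup_left.trans (h1 Q hQ).2⟩
        · exact ⟨(h2 Q hQ).1, le_sup_left.trans (h2 Q hQ).2⟩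
      · rw [Multiset.prod_add]
        refine (Ideal.mul_mono h1' h2').trans ?_
        rw [Ideal.sup_mul, Ideal.mul_sup, Ideal.mul_sup, Ideal.span_singleton_mul_span_singleton]
        refine sup_le (sup_le (Ideal.mul_le_inf.trans inf_le_left)
          (Ideal.mul_le_inf.trans inf_le_left)) (sup_le (Ideal.mul_le_inf.trans inf_le_right) ?_)
        rw [span_singleton_le_iff_mem]
        exact hxy

theorem multiset_prod_isCoprime {M : Ideal R} (Z : Multiset (Ideal R))
    (h : ∀ Q ∈ Z, M ⊔ Q = ⊤) : M ⊔ Z.prod = ⊤ := by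
  induction Z using Multiset.induction with
  | empty => simp
  | cons Q Z ih =>
    rw [Multiset.prod_cons]
    have h1 := h Q (Multiset.mem_cons_self Q Z)
    have h2 := ih (fun Q' hQ' => h Q' (Multiset.mem_cons_of_mem hQ'))
    rw [← Ideal.isCoprime_iff_sup_eq] at h1 h2 ⊢
    exact IsCoprime.mul_right h1 h2

/-- A zero-dimensional ideal with at least two maximal ideals above it is a win for the mover. -/
theorem ZeroDim.moverWins [IsNoetherianRing R] {I : Ideal R} (hI : ZeroDim I) {M₁ M₂ : Ideal R}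
    (h₁ : M₁.IsMaximal) (h₂ : M₂.IsMaximal) (hne : M₁ ≠ M₂) (hI₁ : I ≤ M₁) (hI₂ : I ≤ M₂) :
    MoverWins I := by
  classical
  obtain ⟨Z, hZ, hprod⟩ := exists_prod_primes_le I
  set Z₁ := Z.filter (· = M₁)
  set Z₂ := Z.filter (¬ · = M₁)
  have hsplit : Z₁.prod * Z₂.prod = Z.prod := by
    rw [← Multiset.prod_add]
    congr 1
    exact Multiset.filter_add_not _ _
  -- coprimality
  have hcop : M₁ ⊔ Z₂.prod = ⊤ := by
    apply multiset_prod_isCoprime
    intro Q hQ
    obtain ⟨hQZ, hQne⟩ := Multiset.mem_filter.mp hQ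
    have hQmax := hI Q (hZ Q hQZ).1 (hZ Q hQZ).2
    exact (Ideal.isMaximal_def.mp h₁).sup_eq_top_of_ne (Ideal.isMaximal_def.mp hQmax) (Ne.symm hQne)
  have hcop' : Z₂.prod ⊔ Z₁.prod = ⊤ := by
    apply multiset_prod_isCoprime
    intro Q hQ
    obtain ⟨_, rfl⟩ := Multiset.mem_filter.mp hQ
    rw [sup_comm]; exact hcop
  -- `Z₁.prod ≤ M₁`
  have hZ₁ : Z₁.prod ≤ M₁ := by
    have h : Z₁.prod * Z₂.prod ≤ M₁ := by rw [hsplit]; exact hprod.trans hI₁
    rcases (h₁.isPrime.mul_le).mp h with h | h
    · exact h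
    · exfalso
      apply h₁.ne_top
      rw [eq_top_iff, ← hcop]
      exact sup_le le_rfl h
  have hZ₂ : Z₂.prod ≤ M₂ := by
    have h : Z₁.prod * Z₂.prod ≤ M₂ := by rw [hsplit]; exact hprod.trans hI₂
    rcases (h₂.isPrime.mul_le).mp h with h | h
    · exfalso
      -- some factor of `Z₁`, i.e. `M₁`, is contained in `M₂`
      have := (h₂.isPrime.multiset_prod_le (s := Z₁)).mp h
      obtain ⟨Q, hQ, hQM⟩ := this
      obtain ⟨_, rfl⟩ := Multiset.mem_filter.mp hQ
      exact hne (h₁.eq_of_le h₂.ne_top hQM)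
    · exact h
  obtain ⟨u, hu, e, hsum⟩ := Submodule.mem_sup.mp
    (show (1 : R) ∈ Z₂.prod ⊔ Z₁.prod by rw [hcop']; trivial)
  obtain ⟨he, hsum⟩ := hsum
  have h1e : 1 - e = u := by rw [← hsum]; ring
  refine moverWins_of_idem (e := e) ?_ ?_ ?_
  · intro heI
    apply h₂.ne_top
    rw [Ideal.eq_top_iff_one, ← hsum]
    exact Ideal.add_mem _ (hZ₂ hu) (hI₂ heI)
  · intro heI
    apply h₁.ne_top
    rw [Ideal.eq_top_iff_one, ← hsum]
    rw [h1e] at heI
    exact Ideal.add_mem _ (hI₁ heI) (hZ₁ he)
  · rw [h1e]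
    apply hprod
    rw [← hsplit]
    exact Ideal.mul_mem_mul he hu

end ZeroDim

section Transport

variable {R A : Type*} [CommRing R] [CommRing A]

theorem comap_sup_span (π : R →+* A) (hπ : Function.Surjective π) (I : Ideal A) (a : R) :
    (I ⊔ span {π a}).comap π = I.comap π ⊔ span {a} := by
  apply le_antisymm
  · intro x hx
    rw [Ideal.mem_comap] at hx
    obtain ⟨i, hi, c, hc, hsum⟩ := Submodule.mem_sup.mp hx
    obtain ⟨d, rfl⟩ := Ideal.mem_span_singleton.mp hc
    obtain ⟨d, rfl⟩ := hπ d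
    have : x = (x - a * d) + a * d := by ring
    rw [this]
    refine Ideal.add_mem _ (Ideal.mem_sup_left ?_) (Ideal.mem_sup_right ?_)
    · rw [Ideal.mem_comap, map_sub, map_mul, ← hsum]
      simpa using hi
    · exact Ideal.mem_span_singleton.mpr (Dvd.intro _ rfl)
  · rw [sup_le_iff, span_singleton_le_iff_mem, Ideal.mem_comap]
    exact ⟨Ideal.comap_mono le_sup_left, Ideal.mem_sup_right (Ideal.mem_span_singleton_self _)⟩

theorem comap_ne_top' (π : R →+* A) {I : Ideal A} (h : I ≠ ⊤) : I.comap π ≠ ⊤ :=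
  Ideal.comap_ne_top π h

theorem ne_top_of_comap (π : R →+* A) {I : Ideal A} (h : I.comap π ≠ ⊤) : I ≠ ⊤ := by
  rintro rfl
  exact h Ideal.comap_top

theorem MoverWins.comap (π : R →+* A) (hπ : Function.Surjective π) {I : Ideal A}
    (h : MoverWins I) : MoverWins (I.comap π) := by
  induction h with
  | intro I a ha hne _ ih =>
    obtain ⟨a, rfl⟩ := hπ a
    refine MoverWins.intro _ a ?_ ?_ ?_
    · exact ha
    · rw [← comap_sup_span π hπ]
      exact comap_ne_top' π hne
    · intro b hb hne'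
      rw [← comap_sup_span π hπ] at hb
      rw [← comap_sup_span π hπ, ← comap_sup_span π hπ] at hne' ⊢
      exact ih (π b) hb (ne_top_of_comap π hne')

theorem PPos.comap (π : R →+* A) (hπ : Function.Surjective π) {I : Ideal A}
    (h : PPos I) : PPos (I.comap π) := by
  intro b hb hne
  rw [← comap_sup_span π hπ] at hne ⊢
  exact (h (π b) hb (ne_top_of_comap π hne)).comap π hπ

end Transport

end IdealChomp
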