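import Pool.Agent.Lib.MP_69b5dd_co.Classify

/-!
# The configuration in `A = R/(g)`, `g = ∏ F i - a h`
-/

namespace IdealChomp

open Ideal

section Abstract

variable {A : Type*} [CommRing A] {ι : Type*} [Fintype ι]

/-- `x ∈ I` generates `I` modulo `𝔞 I`. -/
def Gen2 (I : Ideal A) (x : A) (𝔞 : Ideal A) : Prop := x ∈ I ∧ Gen I x 𝔞

theorem Gen2.mul {I I' : Ideal A} {x x' : A} {𝔞 : Ideal A} (h : Gen2 I x 𝔞) (h' : Gen2 I' x' 𝔞) :
    Gen2 (I * I') (x * x') 𝔞 := by
  refine ⟨Ideal.mul_mem_mul h.1 h'.1, ?_⟩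
  unfold Gen
  have h1 : I * I' ≤ span {x} * I' ⊔ 𝔞 * (I * I') := by
    calc I * I' ≤ (span {x} ⊔ 𝔞 * I) * I' := Ideal.mul_mono_left h.2
      _ = span {x} * I' ⊔ 𝔞 * (I * I') := by rw [Ideal.sup_mul, mul_assoc]
  refine h1.trans (sup_le ?_ le_sup_right)
  calc span {x} * I' ≤ span {x} * (span {x'} ⊔ 𝔞 * I') := Ideal.mul_mono_right h'.2
    _ = span {x * x'} ⊔ 𝔞 * (span {x} * I') := by
      rw [Ideal.mul_sup, Ideal.span_singleton_mul_span_singleton]
      congr 1
      ring
    _ ≤ span {x * x'} ⊔ 𝔞 * (I * I') := by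
      refine sup_le_sup_left (Ideal.mul_mono_right (Ideal.mul_mono_left ?_)) _
      exact (span_singleton_le_iff_mem _).mpr h.1

theorem Gen2.one (𝔞 : Ideal A) : Gen2 (1 : Ideal A) 1 𝔞 := by
  refine ⟨by rw [Ideal.one_eq_top]; trivial, ?_⟩
  unfold Gen
  rw [Ideal.span_singleton_one, Ideal.one_eq_top]
  exact le_sup_left

theorem Gen2.pow {I : Ideal A} {x : A} {𝔞 : Ideal A} (h : Gen2 I x 𝔞) (k : ℕ) :
    Gen2 (I ^ k) (x ^ k) 𝔞 := by
  induction k with
  | zero => rw [pow_zero, pow_zero]; exact Gen2.one 𝔞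
  | succ k ih => rw [pow_succ, pow_succ]; exact ih.mul h

theorem Gen2.prod {κ : Type*} (s : Finset κ) (I : κ → Ideal A) (x : κ → A) (𝔞 : Ideal A)
    (h : ∀ i ∈ s, Gen2 (I i) (x i) 𝔞) : Gen2 (∏ i ∈ s, I i) (∏ i ∈ s, x i) 𝔞 := by
  classical
  induction s using Finset.induction_on with
  | empty => simpa using Gen2.one 𝔞
  | insert i s his ih =>
    rw [Finset.prod_insert his, Finset.prod_insert his]
    exact (h i (Finset.mem_insert_self i s)).mul
      (ih (fun j hj => h j (Finset.mem_insert_of_mem hj)))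

variable {a h : A} {F : ι → A}

/-- The ideal `(a, F i)`. -/
def PI (a : A) (F : ι → A) (i : ι) : Ideal A := span {a} ⊔ span {F i}

omit [Fintype ι] in
theorem a_mem_PI (i : ι) : a ∈ PI a F i :=
  Ideal.mem_sup_left (Ideal.mem_span_singleton_self a)

omit [Fintype ι] in
theorem F_mem_PI (i : ι) : F i ∈ PI a F i :=
  Ideal.mem_sup_right (Ideal.mem_span_singleton_self _)

variable (hF : ∏ i, F i = a * h)
  (hcop : ∀ j k, j ≠ k → span {a} ⊔ span {h} ⊔ span {F j} ⊔ span {F k} = ⊤)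

omit [Fintype ι] in
include hcop in
theorem cop_prod (T T' : Finset ι) (hTT' : Disjoint T T') :
    span {a} ⊔ span {h} ⊔ span {∏ i ∈ T, F i} ⊔ span {∏ i ∈ T', F i} = ⊤ := by
  classical
  have h1 : ∀ j ∈ T, span {a} ⊔ span {h} ⊔ span {F j} ⊔ span {∏ i ∈ T', F i} = ⊤ := by
    intro j hj
    rw [← Ideal.prod_span_singleton]
    apply Ideal.sup_prod_eq_top
    intro k hk
    apply hcop j k
    rintro rfl
    exact (Finset.disjoint_left.mp hTT' hj) hk
  have h2 : span {a} ⊔ span {h} ⊔ span {∏ i ∈ T', F i} ⊔ ∏ i ∈ T, span {F i} = ⊤ := by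
    apply Ideal.sup_prod_eq_top
    intro j hj
    rw [← h1 j hj]
    ac_rfl
  rw [Ideal.prod_span_singleton] at h2
  rw [← h2, sup_assoc, sup_assoc (span {a} ⊔ span {h}),
    sup_comm (span {∏ i ∈ T', F i}) (span {∏ i ∈ T, F i})]

/-- writing `1` as a combination. -/
theorem exists_comb {x y z w : A} (h : span {x} ⊔ span {y} ⊔ span {z} ⊔ span {w} = ⊤) :
    ∃ α β γ δ : A, α * x + β * y + γ * z + δ * w = 1 := by
  have h1 : (1 : A) ∈ span {x} ⊔ span {y} ⊔ span {z} ⊔ span {w} := by rw [h]; trivial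
  obtain ⟨p, hp, q, hq, hpq⟩ := Submodule.mem_sup.mp h1
  obtain ⟨r, hr, s, hs, hrs⟩ := Submodule.mem_sup.mp hp
  obtain ⟨t, ht, v, hv, htv⟩ := Submodule.mem_sup.mp hr
  obtain ⟨α, rfl⟩ := Ideal.mem_span_singleton'.mp ht
  obtain ⟨β, rfl⟩ := Ideal.mem_span_singleton'.mp hv
  obtain ⟨γ, rfl⟩ := Ideal.mem_span_singleton'.mp hs
  obtain ⟨δ, rfl⟩ := Ideal.mem_span_singleton'.mp hq
  exact ⟨α, β, γ, δ, by rw [← hpq, ← hrs, ← htv]⟩

include hF hcop in
theorem PI_mul [DecidableEq ι] (T : Finset ι) (j : ι) (hj : j ∉ T) :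
    PI a F j * (span {a} ⊔ span {∏ i ∈ T, F i}) =
      span {a} ⊔ span {∏ i ∈ insert j T, F i} := by
  rw [Finset.prod_insert hj]
  have hah : a * h ∈ span {F j * ∏ i ∈ T, F i} := by
    rw [← hF, ← Finset.prod_insert hj]
    rw [Ideal.mem_span_singleton]
    exact Finset.prod_dvd_prod_of_subset _ _ _ (Finset.subset_univ _)
  have hc := cop_prod hcop {j} T (Finset.disjoint_singleton_left.mpr hj)
  rw [Finset.prod_singleton] at hc
  obtain ⟨α, β, γ, δ, h1⟩ := exists_comb hc
  unfold PI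
  apply le_antisymm
  · rw [Ideal.sup_mul, Ideal.mul_sup, Ideal.mul_sup, Ideal.span_singleton_mul_span_singleton,
      Ideal.span_singleton_mul_span_singleton, Ideal.span_singleton_mul_span_singleton,
      Ideal.span_singleton_mul_span_singleton]
    refine sup_le (sup_le ?_ ?_) (sup_le ?_ ?_)
    · rw [span_singleton_le_iff_mem]
      exact Ideal.mem_sup_left (Ideal.mem_span_singleton.mpr (Dvd.intro _ rfl))
    · rw [span_singleton_le_iff_mem]
      exact Ideal.mem_sup_left (Ideal.mem_span_singleton.mpr (Dvd.intro _ rfl))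
    · rw [span_singleton_le_iff_mem]
      exact Ideal.mem_sup_left (Ideal.mem_span_singleton.mpr (Dvd.intro_left _ rfl))
    · exact le_sup_right
  · have hFF : span {F j * ∏ i ∈ T, F i} ≤
        (span {a} ⊔ span {F j}) * (span {a} ⊔ span {∏ i ∈ T, F i}) := by
      rw [span_singleton_le_iff_mem]
      exact Ideal.mul_mem_mul (Ideal.mem_sup_right (Ideal.mem_span_singleton_self _))
        (Ideal.mem_sup_right (Ideal.mem_span_singleton_self _))
    refine sup_le ?_ hFF
    rw [span_singleton_le_iff_mem]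
    have ha : a ∈ span {a} ⊔ span {F j} := Ideal.mem_sup_left (Ideal.mem_span_singleton_self _)
    have ha' : a ∈ span {a} ⊔ span {∏ i ∈ T, F i} :=
      Ideal.mem_sup_left (Ideal.mem_span_singleton_self _)
    have hFj : F j ∈ span {a} ⊔ span {F j} := Ideal.mem_sup_right (Ideal.mem_span_singleton_self _)
    have hFT : ∏ i ∈ T, F i ∈ span {a} ⊔ span {∏ i ∈ T, F i} :=
      Ideal.mem_sup_right (Ideal.mem_span_singleton_self _)
    have e1 : a = α * (a * a) + β * (a * h) + γ * (F j * a) + δ * (a * ∏ i ∈ T, F i) := by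
      calc a = a * (α * a + β * h + γ * F j + δ * ∏ i ∈ T, F i) := by rw [h1, mul_one]
        _ = _ := by ring
    suffices e2 : α * (a * a) + β * (a * h) + γ * (F j * a) + δ * (a * ∏ i ∈ T, F i) ∈
        (span {a} ⊔ span {F j}) * (span {a} ⊔ span {∏ i ∈ T, F i}) by rwa [← e1] at e2
    refine Ideal.add_mem _ (Ideal.add_mem _ (Ideal.add_mem _ ?_ ?_) ?_) ?_
    · exact Ideal.mul_mem_left _ _ (Ideal.mul_mem_mul ha ha')
    · exact Ideal.mul_mem_left _ _ (hFF hah)
    · exact Ideal.mul_mem_left _ _ (Ideal.mul_mem_mul hFj ha')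
    · exact Ideal.mul_mem_left _ _ (Ideal.mul_mem_mul ha hFT)

include hF hcop in
theorem PI_prod (T : Finset ι) (hT : T.Nonempty) :
    ∏ i ∈ T, PI a F i = span {a} ⊔ span {∏ i ∈ T, F i} := by
  classical
  induction T using Finset.induction_on with
  | empty => simp at hT
  | insert j T hj ih =>
    by_cases hT' : T.Nonempty
    · rw [Finset.prod_insert hj, ih hT', PI_mul hF hcop T j hj]
    · rw [Finset.not_nonempty_iff_eq_empty] at hT'
      subst hT'
      simp [PI]

include hF hcop in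
theorem PI_prod_univ [Nonempty ι] : ∏ i, PI a F i = span {a} := by
  rw [PI_prod hF hcop _ Finset.univ_nonempty, hF]
  refine sup_eq_left.mpr ?_
  rw [span_singleton_le_iff_mem]
  exact Ideal.mem_span_singleton.mpr (Dvd.intro _ rfl)

include hF hcop in
theorem gen_F (i j : ι) (hij : i ≠ j) : Gen2 (PI a F i) (F i) (PI a F j) := by
  refine ⟨F_mem_PI i, ?_⟩
  unfold Gen
  obtain ⟨α, β, γ, δ, h1⟩ := exists_comb (hcop i j hij)
  nth_rewrite 1 [PI]
  refine sup_le ?_ le_sup_left
  rw [span_singleton_le_iff_mem]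
  have e1 : a = α * (a * a) + (β * (a * h) + γ * (a * F i)) + δ * (F j * a) := by
    calc a = a * (α * a + β * h + γ * F i + δ * F j) := by rw [h1, mul_one]
      _ = _ := by ring
  suffices e2 : α * (a * a) + (β * (a * h) + γ * (a * F i)) + δ * (F j * a) ∈
      span {F i} ⊔ PI a F j * PI a F i by rwa [← e1] at e2
  refine Ideal.add_mem _ (Ideal.add_mem _ ?_ (Ideal.add_mem _ ?_ ?_)) ?_
  · exact Ideal.mem_sup_right (Ideal.mul_mem_left _ _ (Ideal.mul_mem_mul (a_mem_PI j) (a_mem_PI i)))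
  · refine Ideal.mem_sup_left (Ideal.mul_mem_left _ _ ?_)
    rw [← hF, Ideal.mem_span_singleton]
    exact Finset.dvd_prod_of_mem _ (Finset.mem_univ i)
  · exact Ideal.mem_sup_left (Ideal.mem_span_singleton.mpr (Dvd.intro_left (γ * a) (by ring)))
  · exact Ideal.mem_sup_right (Ideal.mul_mem_left _ _ (Ideal.mul_mem_mul (F_mem_PI j) (a_mem_PI i)))

include hF hcop in
/-- The generator `y_T` of `P_T = (a, F_T)` modulo `P_j P_T`, `j ∈ T`. -/
theorem exists_y (T : Finset ι) : ∃ y ε : A, y ∈ span {a} ⊔ span {∏ i ∈ T, F i} ∧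
    h * y = (∏ i ∈ T, F i) * (1 - ε) ∧ ε ∈ span {a} ⊔ span {∏ i ∈ T, F i} ∧
    ∀ j ∈ T, Gen (span {a} ⊔ span {∏ i ∈ T, F i}) y (PI a F j) := by
  classical
  obtain ⟨δ, α, γ, β, h1⟩ := exists_comb (cop_prod hcop T Tᶜ disjoint_compl_right)
  have hsplit : (∏ i ∈ T, F i) * ∏ i ∈ Tᶜ, F i = a * h := by
    rw [Finset.prod_mul_prod_compl, hF]
  set FT := ∏ i ∈ T, F i with hFT
  set FT' := ∏ i ∈ Tᶜ, F i with hFT'
  have haT : a ∈ span {a} ⊔ span {FT} := Ideal.mem_sup_left (Ideal.mem_span_singleton_self _)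
  have hFTm : FT ∈ span {a} ⊔ span {FT} := Ideal.mem_sup_right (Ideal.mem_span_singleton_self _)
  refine ⟨β * a + α * FT, γ * FT + δ * a, ?_, ?_, ?_, ?_⟩
  · exact Ideal.add_mem _ (Ideal.mul_mem_left _ _ haT) (Ideal.mul_mem_left _ _ hFTm)
  · have : h * (β * a + α * FT) = β * (a * h) + α * h * FT := by ring
    rw [this, ← hsplit]
    linear_combination FT * h1
  · exact Ideal.add_mem _ (Ideal.mul_mem_left _ _ hFTm) (Ideal.mul_mem_left _ _ haT)
  · intro j hj
    unfold Gen
    have hFTj : FT ∈ PI a F j := by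
      rw [hFT]
      unfold PI
      apply Ideal.mem_sup_right
      rw [Ideal.mem_span_singleton]
      exact Finset.dvd_prod_of_mem _ hj
    refine sup_le ?_ ?_
    · rw [span_singleton_le_iff_mem]
      have e1 : a = FT' * (β * a + α * FT) + (γ * (a * FT) + δ * (a * a)) := by
        linear_combination (-a) * h1 - α * hsplit
      suffices e2 : FT' * (β * a + α * FT) + (γ * (a * FT) + δ * (a * a)) ∈
          span {β * a + α * FT} ⊔ PI a F j * (span {a} ⊔ span {FT}) by rwa [← e1] at e2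
      refine Ideal.add_mem _ ?_ (Ideal.mem_sup_right (Ideal.add_mem _ ?_ ?_))
      · exact Ideal.mem_sup_left (Ideal.mul_mem_left _ _ (Ideal.mem_span_singleton_self _))
      · exact Ideal.mul_mem_left _ _ (Ideal.mul_mem_mul (a_mem_PI j) hFTm)
      · exact Ideal.mul_mem_left _ _ (Ideal.mul_mem_mul (a_mem_PI j) haT)
    · rw [span_singleton_le_iff_mem]
      have e1 : FT = h * (β * a + α * FT) + (γ * (FT * FT) + δ * (a * FT)) := by
        linear_combination (-FT) * h1 + β * hsplit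
      have e2 : h * (β * a + α * FT) + (γ * (FT * FT) + δ * (a * FT)) ∈
          span {β * a + α * FT} ⊔ PI a F j * (span {a} ⊔ span {FT}) := by
        refine Ideal.add_mem _ ?_ (Ideal.mem_sup_right (Ideal.add_mem _ ?_ ?_))
        · exact Ideal.mem_sup_left (Ideal.mul_mem_left _ _ (Ideal.mem_span_singleton_self _))
        · exact Ideal.mul_mem_left _ _ (Ideal.mul_mem_mul hFTj hFTm)
        · exact Ideal.mul_mem_left _ _ (Ideal.mul_mem_mul (a_mem_PI j) hFTm)
      rw [← e1] at e2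
      exact e2

theorem II_split (P : ι → Ideal A) (n : ι → ℕ) (T : Finset ι) (c : ℕ) (hT : ∀ j ∈ T, n j = c)
    [DecidableEq ι] : II P n = (∏ i ∈ T, P i) ^ c * ∏ i ∈ Tᶜ, P i ^ n i := by
  unfold II
  rw [← Finset.prod_mul_prod_compl T, ← Finset.prod_pow]
  congr 1
  exact Finset.prod_congr rfl (fun i hi => by rw [hT i hi])

include hF hcop in
/-- Property H3, with control of the generator. -/
theorem exists_gen (n : ι → ℕ) (T : Finset ι) (c : ℕ) (hT : ∀ j ∈ T, n j = c) :
    ∃ x : A, x ∈ II (PI a F) n ∧ ∀ j ∈ T, Gen (II (PI a F) n) x (PI a F j) := by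
  classical
  by_cases hne : T.Nonempty
  · obtain ⟨y, ε, hy, -, -, hgen⟩ := exists_y hF hcop T
    have hsplit := II_split (PI a F) n T c hT
    rw [PI_prod hF hcop T hne] at hsplit
    have key : ∀ j ∈ T, Gen2 (II (PI a F) n) (y ^ c * ∏ i ∈ Tᶜ, F i ^ n i) (PI a F j) := by
      intro j hj
      rw [hsplit]
      refine Gen2.mul (Gen2.pow ⟨hy, hgen j hj⟩ c) ?_
      refine Gen2.prod _ _ _ _ ?_
      intro i hi
      refine Gen2.pow (gen_F hF hcop i j ?_) _
      rintro rfl
      exact (Finset.mem_compl.mp hi) hj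
    obtain ⟨j₀, hj₀⟩ := hne
    exact ⟨_, (key j₀ hj₀).1, fun j hj => (key j hj).2⟩
  · rw [Finset.not_nonempty_iff_eq_empty] at hne
    subst hne
    exact ⟨0, Ideal.zero_mem _, by simp⟩

include hF hcop in
/-- The generator of `I_n` modulo `P_j I_n` and its relation with `w = ∏ F i ^ n i`. -/
theorem exists_gen_j (n : ι → ℕ) (j : ι) :
    ∃ x : A, Gen2 (II (PI a F) n) x (PI a F j) ∧
      h ^ n j * x - ∏ i, F i ^ n i ∈ PI a F j * II (PI a F) n := by
  classical
  obtain ⟨y, ε, hy, hhy, hε, hgen⟩ := exists_y hF hcop {j}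
  rw [Finset.prod_singleton] at hy hhy hε hgen
  have hsplit := II_split (PI a F) n {j} (n j) (by simp)
  rw [Finset.prod_singleton] at hsplit
  have hw : ∏ i, F i ^ n i = F j ^ n j * ∏ i ∈ ({j} : Finset ι)ᶜ, F i ^ n i := by
    rw [← Finset.prod_mul_prod_compl {j}, Finset.prod_singleton]
  refine ⟨y ^ n j * ∏ i ∈ ({j} : Finset ι)ᶜ, F i ^ n i, ?_, ?_⟩
  · rw [hsplit]
    refine Gen2.mul (Gen2.pow ⟨hy, hgen j (Finset.mem_singleton_self j)⟩ _) ?_
    refine Gen2.prod _ _ _ _ ?_
    intro i hi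
    refine Gen2.pow (gen_F hF hcop i j ?_) _
    rintro rfl
    exact (Finset.mem_compl.mp hi) (Finset.mem_singleton_self _)
  · have e1 : h ^ n j * (y ^ n j * ∏ i ∈ ({j} : Finset ι)ᶜ, F i ^ n i) - ∏ i, F i ^ n i =
        ((1 - ε) ^ n j - 1) * ∏ i, F i ^ n i := by
      rw [hw, ← mul_assoc, ← mul_pow, hhy, mul_pow]
      ring
    rw [e1]
    refine Ideal.mul_mem_mul ?_ ?_
    · obtain ⟨t, ht⟩ := sub_dvd_pow_sub_pow (1 - ε) 1 (n j)
      rw [one_pow] at ht
      rw [ht]
      refine Ideal.mul_mem_right _ _ ?_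
      have : (1 : A) - ε - 1 = -ε := by ring
      rw [this]
      exact Ideal.neg_mem_iff _ |>.mpr hε
    · unfold II
      exact Ideal.prod_mem_prod (fun i _ => Ideal.pow_mem_pow (F_mem_PI i) _)

include hF in
theorem h_mul_II (n : ι → ℕ) : span {h ^ (∑ i, n i)} * II (PI a F) n ≤ span {∏ i, F i ^ n i} := by
  classical
  have h1 : ∀ i, span {h} * PI a F i ≤ span {F i} := by
    intro i
    unfold PI
    rw [Ideal.mul_sup, Ideal.span_singleton_mul_span_singleton,
      Ideal.span_singleton_mul_span_singleton]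
    refine sup_le ?_ ?_
    · rw [span_singleton_le_iff_mem, mul_comm, ← hF, Ideal.mem_span_singleton]
      exact Finset.dvd_prod_of_mem _ (Finset.mem_univ i)
    · rw [span_singleton_le_iff_mem]
      exact Ideal.mem_span_singleton.mpr (Dvd.intro_left _ rfl)
  have h2 : span {h ^ (∑ i, n i)} * II (PI a F) n = ∏ i, (span {h} * PI a F i) ^ n i := by
    unfold II
    rw [← Finset.prod_pow_eq_pow_sum, ← Ideal.prod_span_singleton, ← Finset.prod_mul_distrib]
    exact Finset.prod_congr rfl (fun i _ => by rw [mul_pow, Ideal.span_singleton_pow])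
  rw [h2, ← Ideal.prod_span_singleton]
  refine Finset.prod_le_prod' (fun i _ => ?_)
  rw [← Ideal.span_singleton_pow]
  exact Ideal.pow_right_mono (h1 i) _

/-- two generators differ by a unit modulo `𝔭`. -/
theorem Gen2.unit {I : Ideal A} {x y : A} {𝔭 : Ideal A}
    (hcan : ∀ J J' : Ideal A, I * J ≤ I * J' → J ≤ J') (hx : Gen2 I x 𝔭) (hy : Gen2 I y 𝔭) :
    ∃ u v : A, 1 - u * v ∈ 𝔭 ∧ x - u * y ∈ 𝔭 * I := by
  obtain ⟨p, hp, q, hq, hpq⟩ := Submodule.mem_sup.mp (hy.2 hx.1)
  obtain ⟨u, rfl⟩ := Ideal.mem_span_singleton'.mp hp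
  obtain ⟨p', hp', q', hq', hpq'⟩ := Submodule.mem_sup.mp (hx.2 hy.1)
  obtain ⟨v, rfl⟩ := Ideal.mem_span_singleton'.mp hp'
  refine ⟨u, v, ?_, ?_⟩
  · -- `(1 - u v) x ∈ 𝔭 I`
    have h1 : (1 - u * v) * x ∈ 𝔭 * I := by
      have : (1 - u * v) * x = q + u * q' := by
        linear_combination (-1 : A) * hpq - u * hpq'
      rw [this]
      exact Ideal.add_mem _ hq (Ideal.mul_mem_left _ _ hq')
    have h2 : I * span {1 - u * v} ≤ I * 𝔭 := by
      calc I * span {1 - u * v} ≤ (span {x} ⊔ 𝔭 * I) * span {1 - u * v} :=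
            Ideal.mul_mono_left hx.2
        _ = span {x * (1 - u * v)} ⊔ 𝔭 * I * span {1 - u * v} := by
            rw [Ideal.sup_mul, Ideal.span_singleton_mul_span_singleton]
        _ ≤ I * 𝔭 := by
            refine sup_le ?_ ?_
            · rw [span_singleton_le_iff_mem, mul_comm x, mul_comm I 𝔭]
              exact h1
            · rw [mul_comm I 𝔭]
              exact Ideal.mul_le_inf.trans inf_le_left
    exact (span_singleton_le_iff_mem _).mp (hcan _ _ h2)
  · have : x - u * y = q := by rw [← hpq]; ring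
    rw [this]; exact hq

include hF hcop in
/-- Property H4. -/
theorem h4_aux [Nonempty ι] (hnzd : ∀ x, a * x = 0 → x = 0)
    (hU : ∀ j k, j ≠ k → ∀ (u v u' v' : A) (n n' : ℕ), 1 - u * v ∈ PI a F j →
      1 - u' * v' ∈ PI a F k → h ^ n' * u - h ^ n * u' ∈ PI a F j ⊔ PI a F k → n = n')
    (n : ι → ℕ) (x : A) (j k : ι) (hjk : j ≠ k) (hx : x ∈ II (PI a F) n)
    (hj : Gen (II (PI a F) n) x (PI a F j)) (hk : Gen (II (PI a F) n) x (PI a F k)) :
    n j = n k := by
  have hcan : ∀ J J' : Ideal A, II (PI a F) n * J ≤ II (PI a F) n * J' → J ≤ J' :=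
    fun J J' => II_cancel hnzd (PI_prod_univ hF hcop) n
  set I := II (PI a F) n with hI
  set w := ∏ i, F i ^ n i with hw
  have hwI : w ∈ I := by
    rw [hw, hI]
    unfold II
    exact Ideal.prod_mem_prod (fun i _ => Ideal.pow_mem_pow (F_mem_PI i) _)
  obtain ⟨xj, hxj, hxj'⟩ := exists_gen_j hF hcop n j
  obtain ⟨xk, hxk, hxk'⟩ := exists_gen_j hF hcop n k
  obtain ⟨u, v, huv, hu⟩ := Gen2.unit hcan ⟨hx, hj⟩ hxj
  obtain ⟨u', v', huv', hu'⟩ := Gen2.unit hcan ⟨hx, hk⟩ hxk
  refine hU j k hjk u v u' v' (n j) (n k) huv huv' ?_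
  -- `(h ^ n k u - h ^ n j u') w ∈ (P_j + P_k) I`
  have hleft : PI a F j * I ≤ (PI a F j ⊔ PI a F k) * I := Ideal.mul_mono_left le_sup_left
  have hright : PI a F k * I ≤ (PI a F j ⊔ PI a F k) * I := Ideal.mul_mono_left le_sup_right
  have h1 : (h ^ n k * u - h ^ n j * u') * w ∈ (PI a F j ⊔ PI a F k) * I := by
    have e1 : (h ^ n k * u - h ^ n j * u') * w =
        h ^ n j * u' * (h ^ n k * xk - w) - h ^ n k * u * (h ^ n j * xj - w)
        + h ^ n j * h ^ n k * (x - u' * xk) - h ^ n j * h ^ n k * (x - u * xj) := by ring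
    rw [e1]
    refine Ideal.sub_mem _ (Ideal.add_mem _ (Ideal.sub_mem _ ?_ ?_) ?_) ?_
    · exact Ideal.mul_mem_left _ _ (hright hxk')
    · exact Ideal.mul_mem_left _ _ (hleft hxj')
    · exact Ideal.mul_mem_left _ _ (hright hu')
    · exact Ideal.mul_mem_left _ _ (hleft hu)
  -- multiply by `h ^ M`
  have h2 : I * span {h ^ (∑ i, n i) * (h ^ n k * u - h ^ n j * u')} ≤
      I * (PI a F j ⊔ PI a F k) := by
    rw [← Ideal.span_singleton_mul_span_singleton]
    calc I * (span {h ^ (∑ i, n i)} * span {h ^ n k * u - h ^ n j * u'})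
        = (span {h ^ (∑ i, n i)} * I) * span {h ^ n k * u - h ^ n j * u'} := by ring
      _ ≤ span {w} * span {h ^ n k * u - h ^ n j * u'} := Ideal.mul_mono_left (h_mul_II hF n)
      _ ≤ I * (PI a F j ⊔ PI a F k) := by
        rw [Ideal.span_singleton_mul_span_singleton, span_singleton_le_iff_mem, mul_comm w,
          mul_comm I]
        exact h1
  have h3 : h ^ (∑ i, n i) * (h ^ n k * u - h ^ n j * u') ∈ PI a F j ⊔ PI a F k :=
    (span_singleton_le_iff_mem _).mp (hcan _ _ h2)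
  -- `h` is a unit modulo `P_j + P_k`
  have hcopjk : span {h} ⊔ (PI a F j ⊔ PI a F k) = ⊤ := by
    rw [eq_top_iff, ← hcop j k hjk]
    unfold PI
    refine sup_le (sup_le (sup_le ?_ le_sup_left) ?_) ?_
    · exact (le_sup_left.trans le_sup_left).trans le_sup_right
    · exact (le_sup_right.trans le_sup_left).trans le_sup_right
    · exact (le_sup_right.trans le_sup_right).trans le_sup_right
  have hcop' : span {h} ^ (∑ i, n i) ⊔ (PI a F j ⊔ PI a F k) = ⊤ := by
    rw [← Ideal.isCoprime_iff_sup_eq] at hcopjk ⊢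
    exact hcopjk.pow_left
  rw [Ideal.span_singleton_pow] at hcop'
  obtain ⟨p, hp, q, hq, hpq⟩ := Submodule.mem_sup.mp
    (show (1 : A) ∈ span {h ^ (∑ i, n i)} ⊔ (PI a F j ⊔ PI a F k) by rw [hcop']; trivial)
  obtain ⟨t, rfl⟩ := Ideal.mem_span_singleton'.mp hp
  have e2 : h ^ n k * u - h ^ n j * u' =
      t * (h ^ (∑ i, n i) * (h ^ n k * u - h ^ n j * u')) + (h ^ n k * u - h ^ n j * u') * q := by
    linear_combination (-(h ^ n k * u - h ^ n j * u')) * hpq
  rw [e2]
  exact Ideal.add_mem _ (Ideal.mul_mem_left _ _ h3) (Ideal.mul_mem_left _ _ hq)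

include hF hcop in
theorem config_of [Nonempty ι] (hnzd : ∀ x, a * x = 0 → x = 0)
    (hprime : ∀ i, (PI a F i).IsPrime)
    (hdim : ∀ i (Q : Ideal A), Q.IsPrime → PI a F i < Q → Q.IsMaximal)
    (hinc : ∀ i j, i ≠ j → ¬ PI a F i ≤ PI a F j)
    (h5 : ∀ j (u : A), u ∉ PI a F j → PI a F j ⊔ span {u} ≠ ⊤ → ∃ M₁ M₂ : Ideal A,
      M₁.IsMaximal ∧ M₂.IsMaximal ∧ M₁ ≠ M₂ ∧ PI a F j ⊔ span {u} ≤ M₁ ∧
        PI a F j ⊔ span {u} ≤ M₂)
    (hU : ∀ j k, j ≠ k → ∀ (u v u' v' : A) (n n' : ℕ), 1 - u * v ∈ PI a F j →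
      1 - u' * v' ∈ PI a F k → h ^ n' * u - h ^ n * u' ∈ PI a F j ⊔ PI a F k → n = n') :
    Config (PI a F) a where
  nzd := hnzd
  prod := PI_prod_univ hF hcop
  prime := hprime
  dim := hdim
  inc := hinc
  h3 := fun n T c hT => exists_gen hF hcop n T c hT
  h4 := fun n x j k hjk hx hj hk => h4_aux hF hcop hnzd hU n x j k hjk hx hj hk
  h5 := h5

end Abstract

section Transfer

variable {R : Type*} [CommRing R] [IsDomain R] [IsNoetherianRing R] {ι : Type*} [Fintype ι]

/-- The data in the ring `R` (think of `R = K[x,y,z]`, `S = R/(a)`). -/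
structure Setup (a h : R) (F : ι → R) : Prop where
  prime_a : Prime a
  ndvd : ¬ a ∣ ∏ i, F i
  cop : ∀ j k, j ≠ k → span {a} ⊔ span {h} ⊔ span {F j} ⊔ span {F k} = ⊤
  prime : ∀ i, (PI a F i).IsPrime
  dim : ∀ i (Q : Ideal R), Q.IsPrime → PI a F i < Q → Q.IsMaximal
  inc : ∀ i j, i ≠ j → F i ∉ PI a F j
  h5 : ∀ j (u : R), u ∉ PI a F j → PI a F j ⊔ span {u} ≠ ⊤ → ∃ M₁ M₂ : Ideal R,
    M₁.IsMaximal ∧ M₂.IsMaximal ∧ M₁ ≠ M₂ ∧ PI a F j ⊔ span {u} ≤ M₁ ∧ PI a F j ⊔ span {u} ≤ M₂
  hU : ∀ j k, j ≠ k → ∀ (u v u' v' : R) (n n' : ℕ), 1 - u * v ∈ PI a F j →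
    1 - u' * v' ∈ PI a F k → h ^ n' * u - h ^ n * u' ∈ PI a F j ⊔ PI a F k → n = n'

theorem Setup.pPos [Nonempty ι] {a h : R} {F : ι → R} (hS : Setup a h F) {e : ℕ} (he : 1 ≤ e)
    (hCP : CP (fun _ : ι => e)) :
    PPos (span {a ^ e} ⊔ span {∏ i, F i - a * h}) := by
  set g := ∏ i, F i - a * h with hg
  set π := Ideal.Quotient.mk (span {g}) with hπ
  have hsurj : Function.Surjective π := Ideal.Quotient.mk_surjective
  have hker : ∀ x, π x = 0 ↔ x ∈ span {g} := fun x => Ideal.Quotient.eq_zero_iff_mem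
  -- `comap` of ideals generated by images
  have hcomap : ∀ x : R, (span {π x}).comap π = span {x} ⊔ span {g} := by
    intro x
    have h1 := comap_sup_span π hsurj ⊥ x
    rw [bot_sup_eq] at h1
    rw [h1]
    have : (⊥ : Ideal (R ⧸ span {g})).comap π = span {g} := by
      ext y
      rw [Ideal.mem_comap, Ideal.mem_bot, hker]
    rw [this, sup_comm]
  have hgP : ∀ i, span {g} ≤ PI a F i := by
    intro i
    rw [span_singleton_le_iff_mem, hg]
    refine Ideal.sub_mem _ ?_ ?_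
    · obtain ⟨t, ht⟩ := Finset.dvd_prod_of_mem F (Finset.mem_univ i)
      rw [ht]
      exact Ideal.mul_mem_right _ _ (F_mem_PI i)
    · exact Ideal.mul_mem_right _ _ (a_mem_PI i)
  have hcomapP : ∀ i, (PI (π a) (fun i => π (F i)) i).comap π = PI a F i := by
    intro i
    have h1 := comap_sup_span π hsurj (span {π a}) (F i)
    show (span {π a} ⊔ span {π (F i)}).comap π = _
    rw [h1, hcomap]
    have := hgP i
    apply le_antisymm
    · refine sup_le (sup_le ?_ this) ?_
      · exact le_sup_left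
      · exact le_sup_right
    · unfold PI
      exact sup_le_sup_right le_sup_left _
  have hmapP : ∀ i, PI (π a) (fun i => π (F i)) i = (PI a F i).map π := by
    intro i
    unfold PI
    rw [Ideal.map_sup, Ideal.map_span, Ideal.map_span, Set.image_singleton, Set.image_singleton]
  have hmemP : ∀ i (x : R), π x ∈ PI (π a) (fun i => π (F i)) i ↔ x ∈ PI a F i := by
    intro i x
    rw [← hcomapP i, Ideal.mem_comap]
  have hcomap_u : ∀ i (u : R), (PI (π a) (fun i => π (F i)) i ⊔ span {π u}).comap π =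
      PI a F i ⊔ span {u} := by
    intro i u
    rw [comap_sup_span π hsurj, hcomapP]
  have hcomap_map : ∀ (Q : Ideal R), span {g} ≤ Q → (Q.map π).comap π = Q := by
    intro Q hQ
    rw [Ideal.comap_map_of_surjective π hsurj]
    refine sup_eq_left.mpr ?_
    intro x hx
    exact hQ ((hker x).mp (by simpa using hx))
  have hmap_comap : ∀ (Q : Ideal (R ⧸ span {g})), (Q.comap π).map π = Q :=
    fun Q => Ideal.map_comap_of_surjective π hsurj Q
  have hng : ¬ a ∣ g := by
    intro hdvd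
    apply hS.ndvd
    have : ∏ i, F i = g + a * h := by rw [hg]; ring
    rw [this]
    exact dvd_add hdvd (Dvd.intro _ rfl)
  have hconf : Config (PI (π a) (fun i => π (F i))) (π a) := by
    refine config_of (h := π h) ?_ ?_ ?_ ?_ ?_ ?_ ?_ ?_
    · have : π (∏ i, F i - a * h) = 0 := (hker _).mpr (Ideal.mem_span_singleton_self g)
      rw [map_sub, sub_eq_zero] at this
      rw [← map_prod, this, map_mul]
    · intro j k hjk
      have := congrArg (Ideal.map π) (hS.cop j k hjk)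
      rw [Ideal.map_sup, Ideal.map_sup, Ideal.map_sup, Ideal.map_span, Ideal.map_span,
        Ideal.map_span, Ideal.map_span, Set.image_singleton, Set.image_singleton,
        Set.image_singleton, Set.image_singleton, Ideal.map_top] at this
      exact this
    · intro x hx
      obtain ⟨x, rfl⟩ := hsurj x
      rw [← map_mul, hker, Ideal.mem_span_singleton] at hx
      obtain ⟨y, hy⟩ := hx
      have hay : a ∣ g * y := by rw [← hy]; exact Dvd.intro _ rfl
      rcases hS.prime_a.dvd_or_dvd hay with h | h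
      · exact absurd h hng
      · obtain ⟨y', rfl⟩ := h
        rw [hker, Ideal.mem_span_singleton]
        refine ⟨y', ?_⟩
        apply mul_left_cancel₀ hS.prime_a.ne_zero
        rw [hy]; ring
    · intro i
      have hp := hS.prime i
      rw [hmapP]
      refine Ideal.map_isPrime_of_surjective hsurj ?_
      intro x hx
      exact hgP i ((hker x).mp hx)
    · intro i Q hQ hlt
      have h1 : PI a F i < Q.comap π := by
        rw [← hcomapP i]
        refine lt_of_le_of_ne (Ideal.comap_mono hlt.le) ?_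
        intro heq
        have := congrArg (Ideal.map π) heq
        rw [hmap_comap, hmap_comap] at this
        exact hlt.ne this
      have h2 : (Q.comap π).IsPrime := Ideal.comap_isPrime π Q
      have h3 := hS.dim i _ h2 h1
      have h4 := Ideal.map_eq_top_or_isMaximal_of_surjective π hsurj h3
      rw [hmap_comap] at h4
      rcases h4 with h4 | h4
      · exact absurd h4 hQ.ne_top
      · exact h4
    · intro i j hij hle
      apply hS.inc i j hij
      rw [← hmemP j]
      exact hle (F_mem_PI i)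
    · intro j u hu hne
      obtain ⟨u, rfl⟩ := hsurj u
      rw [hmemP] at hu
      have hne' : PI a F j ⊔ span {u} ≠ ⊤ := by
        rw [← hcomap_u]
        exact Ideal.comap_ne_top π hne
      obtain ⟨M₁, M₂, hM₁, hM₂, h12, hl1, hl2⟩ := hS.h5 j u hu hne'
      have hg1 : span {g} ≤ M₁ := ((hgP j).trans le_sup_left).trans hl1
      have hg2 : span {g} ≤ M₂ := ((hgP j).trans le_sup_left).trans hl2
      have hmax : ∀ M : Ideal R, M.IsMaximal → span {g} ≤ M → (M.map π).IsMaximal := by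
        intro M hM hgM
        rcases Ideal.map_eq_top_or_isMaximal_of_surjective π hsurj hM with h4 | h4
        · exfalso
          apply hM.ne_top
          rw [← hcomap_map M hgM, h4, Ideal.comap_top]
        · exact h4
      refine ⟨M₁.map π, M₂.map π, hmax M₁ hM₁ hg1, hmax M₂ hM₂ hg2, ?_, ?_, ?_⟩
      · intro heq
        apply h12
        rw [← hcomap_map M₁ hg1, heq, hcomap_map M₂ hg2]
      · rw [← hmap_comap (PI (π a) (fun i => π (F i)) j ⊔ span {π u}), hcomap_u]
        exact Ideal.map_mono hl1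
      · rw [← hmap_comap (PI (π a) (fun i => π (F i)) j ⊔ span {π u}), hcomap_u]
        exact Ideal.map_mono hl2
    · intro j k hjk u v u' v' n n' huv huv' hcomb
      obtain ⟨u, rfl⟩ := hsurj u
      obtain ⟨v, rfl⟩ := hsurj v
      obtain ⟨u', rfl⟩ := hsurj u'
      obtain ⟨v', rfl⟩ := hsurj v'
      refine hS.hU j k hjk u v u' v' n n' ?_ ?_ ?_
      · rw [← hmemP j, map_sub, map_one, map_mul]; exact huv
      · rw [← hmemP k, map_sub, map_one, map_mul]; exact huv'
      · have h1 : (PI (π a) (fun i => π (F i)) j ⊔ PI (π a) (fun i => π (F i)) k).comap π =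
            PI a F j ⊔ PI a F k := by
          rw [hmapP, hmapP, ← Ideal.map_sup]
          exact hcomap_map _ ((hgP j).trans le_sup_left)
        rw [← h1, Ideal.mem_comap, map_sub, map_mul, map_mul, map_pow, map_pow]
        exact hcomb
  have hne0 : (fun _ : ι => e) ≠ 0 := by
    intro h0
    have := congrFun h0 (Classical.arbitrary ι)
    simp only [Pi.zero_apply] at this
    omega
  have hP := (hconf.pPos hne0 hCP).comap π hsurj
  rw [II_const hconf.prod, ← map_pow, hcomap] at hP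
  exact hP

end Transfer

end IdealChomp
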