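import Pool.Agent.Lib.MP_69b5dd_co.Local

/-!
# Norm arguments: from the curves to `Setup`
-/

set_option linter.unusedSectionVars false

namespace IdealChomp

open Polynomial
open scoped Polynomial.Bivariate

universe u

/-! ## Generalities on norms -/

section NormGen

variable {Λ S : Type*} [CommRing Λ] [IsDomain Λ] [CommRing S] [Algebra Λ S]
  {n : Type*} [Fintype n] [DecidableEq n] (b : Module.Basis n Λ S)

include b in
theorem dvd_algebraMap_norm (x : S) : x ∣ algebraMap Λ S (Algebra.norm Λ x) := by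
  have := Module.Free.of_basis b
  have := Module.Finite.of_basis b
  have h1 := Algebra.aeval_self_charpoly_lmul (R := Λ) x
  set P := (Algebra.lmul Λ S x).charpoly with hP
  have h2 : Algebra.norm Λ x = (-1) ^ P.natDegree * P.coeff 0 := by
    rw [Algebra.norm_apply, LinearMap.det_eq_sign_charpoly_coeff, hP,
      LinearMap.charpoly_natDegree]
  have h3 : x ∣ algebraMap Λ S (P.coeff 0) := by
    have h4 : (X : Λ[X]) ∣ P - C (P.coeff 0) := by
      rw [X_dvd_iff]; simp
    obtain ⟨Q, hQ⟩ := h4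
    have h5 : aeval x (P - C (P.coeff 0)) = x * aeval x Q := by
      rw [hQ, map_mul, aeval_X]
    rw [map_sub, h1, aeval_C, zero_sub] at h5
    exact ⟨-aeval x Q, by rw [mul_neg, ← h5, neg_neg]⟩
  rw [h2, map_mul]
  exact Dvd.dvd.mul_left h3 _

variable {K : Type*} [Field K]

/-- The matrix of multiplication by `x`, specialized by `φ : Λ → K`. -/
noncomputable def mulMat (φ : Λ →+* K) : S →+* Matrix n n K :=
  (φ.mapMatrix : Matrix n n Λ →+* Matrix n n K).comp
    ((Algebra.leftMulMatrix b : S →ₐ[Λ] Matrix n n Λ) : S →+* Matrix n n Λ)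

theorem mulMat_det (φ : Λ →+* K) (x : S) : (mulMat b φ x).det = φ (Algebra.norm Λ x) := by
  rw [Algebra.norm_eq_matrix_det b, RingHom.map_det]
  rfl

theorem mulMat_algebraMap (φ : Λ →+* K) (ν : Λ) :
    mulMat b φ (algebraMap Λ S ν) = algebraMap K (Matrix n n K) (φ ν) := by
  unfold mulMat
  rw [RingHom.comp_apply]
  have : ((Algebra.leftMulMatrix b : S →ₐ[Λ] Matrix n n Λ) : S →+* Matrix n n Λ)
      (algebraMap Λ S ν) = algebraMap Λ (Matrix n n Λ) ν := by
    exact (Algebra.leftMulMatrix b).commutes ν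
  rw [this]
  ext i j
  rw [RingHom.mapMatrix_apply, Matrix.map_apply, Matrix.algebraMap_matrix_apply,
    Matrix.algebraMap_matrix_apply]
  split_ifs <;> simp

include b in
/-- if the norm of `x` vanishes at `φ`, then `x` and `ker φ` lie in a maximal ideal. -/
theorem exists_maximal_of_norm (φ : Λ →+* K) (x : S) (hx : φ (Algebra.norm Λ x) = 0)
    [Nonempty n] :
    ∃ M : Ideal S, M.IsMaximal ∧ x ∈ M ∧ ∀ ν, φ ν = 0 → algebraMap Λ S ν ∈ M := by
  have hne : Ideal.span {x} ⊔ (RingHom.ker φ).map (algebraMap Λ S) ≠ ⊤ := by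
    intro htop
    have h1 : (1 : S) ∈ Ideal.span {x} ⊔ (RingHom.ker φ).map (algebraMap Λ S) := by
      rw [htop]; trivial
    obtain ⟨p, hp, q, hq, hpq⟩ := Submodule.mem_sup.mp h1
    obtain ⟨c, rfl⟩ := Ideal.mem_span_singleton'.mp hp
    have hker : (RingHom.ker φ).map (algebraMap Λ S) ≤ RingHom.ker (mulMat b φ) := by
      rw [Ideal.map_le_iff_le_comap]
      intro ν hν
      rw [Ideal.mem_comap, RingHom.mem_ker, mulMat_algebraMap, (RingHom.mem_ker).mp hν, map_zero]
    have h2 := congrArg (mulMat b φ) hpq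
    rw [map_add, (RingHom.mem_ker).mp (hker hq), add_zero, map_mul, map_one] at h2
    have h3 := congrArg Matrix.det h2
    rw [Matrix.det_mul, mulMat_det, mulMat_det, hx, mul_zero, Matrix.det_one] at h3
    exact zero_ne_one h3
  obtain ⟨M, hM, hle⟩ := Ideal.exists_le_maximal _ hne
  refine ⟨M, hM, hle (Ideal.mem_sup_left (Ideal.mem_span_singleton_self x)), ?_⟩
  intro ν hν
  exact hle (Ideal.mem_sup_right (Ideal.mem_map_of_mem _ ((RingHom.mem_ker).mpr hν)))

include b in
/-- If `(F)` is prime in `S` and `F` divides the norm of `x`, then `x ∈ (F)`. -/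
theorem mem_of_dvd_norm {F : Λ} (hF : (Ideal.span {F}).IsPrime)
    (hFS : (Ideal.span {algebraMap Λ S F}).IsPrime) {x : S} (hx : F ∣ Algebra.norm Λ x) :
    x ∈ Ideal.span {algebraMap Λ S F} := by
  set q := Ideal.Quotient.mk (Ideal.span {F}) with hq
  have : IsDomain (Λ ⧸ Ideal.span {F}) := Ideal.Quotient.isDomain _
  have h1 : (q.mapMatrix (Algebra.leftMulMatrix b x)).det = 0 := by
    rw [← RingHom.map_det, ← Algebra.norm_eq_matrix_det b, hq, Ideal.Quotient.eq_zero_iff_mem,
      Ideal.mem_span_singleton]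
    exact hx
  obtain ⟨v, hv0, hv⟩ := Matrix.exists_mulVec_eq_zero_iff.mpr h1
  -- lift `v`
  choose w hw using fun i => Ideal.Quotient.mk_surjective (I := Ideal.span {F}) (v i)
  -- the element `y = ∑ w i b i`
  set y : S := ∑ i, w i • b i with hy
  have hrepr : ∀ i, b.repr y i = w i := by
    intro i
    rw [hy, b.repr_sum_self]
  have hmem : ∀ z : S, (∀ i, F ∣ b.repr z i) → z ∈ Ideal.span {algebraMap Λ S F} := by
    intro z hz
    rw [← b.sum_repr z]
    refine Ideal.sum_mem _ (fun i _ => ?_)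
    obtain ⟨c, hc⟩ := hz i
    rw [hc, mul_smul, Algebra.smul_def]
    exact Ideal.mul_mem_right _ _ (Ideal.mem_span_singleton_self _)
  have hmem' : ∀ z : S, z ∈ Ideal.span {algebraMap Λ S F} → ∀ i, F ∣ b.repr z i := by
    intro z hz i
    obtain ⟨c, rfl⟩ := Ideal.mem_span_singleton.mp hz
    rw [← Algebra.smul_def, map_smul, Finsupp.smul_apply, smul_eq_mul]
    exact Dvd.intro _ rfl
  have hxy : x * y ∈ Ideal.span {algebraMap Λ S F} := by
    apply hmem
    intro i
    have h2 := Algebra.leftMulMatrix_mulVec_repr b x y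
    have h3 : (Algebra.leftMulMatrix b x).mulVec (⇑(b.repr y)) i = b.repr (x * y) i := by
      rw [h2]
    rw [← Ideal.mem_span_singleton, ← Ideal.Quotient.eq_zero_iff_mem, ← h3]
    have h4 := congrFun hv i
    rw [Pi.zero_apply] at h4
    rw [← h4]
    simp only [Matrix.mulVec, dotProduct, map_sum, map_mul, RingHom.mapMatrix_apply,
      Matrix.map_apply]
    refine Finset.sum_congr rfl (fun j _ => ?_)
    rw [hrepr j, hw j, hq]
  rcases hFS.mem_or_mem hxy with h | h
  · exact h
  · exfalso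
    apply hv0
    funext i
    rw [← hw i, ← hrepr i]
    rw [Pi.zero_apply, Ideal.Quotient.eq_zero_iff_mem, Ideal.mem_span_singleton]
    exact hmem' y h i

include b in
theorem algebraMap_mem_span_iff {F : Λ} (hF : (∀ ν : Λ, ∀ k, F ∣ ν ^ k → F ∣ ν)) (ν : Λ)
    [Nonempty n] : algebraMap Λ S ν ∈ Ideal.span {algebraMap Λ S F} ↔ F ∣ ν := by
  have := Module.Free.of_basis b
  have := Module.Finite.of_basis b
  constructor
  · intro h
    obtain ⟨c, hc⟩ := Ideal.mem_span_singleton.mp h
    have h1 := congrArg (Algebra.norm Λ) hc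
    rw [map_mul, Algebra.norm_algebraMap, Algebra.norm_algebraMap] at h1
    have hpos : Module.finrank Λ S ≠ 0 := by
      rw [Module.finrank_eq_card_basis b]
      exact Fintype.card_ne_zero
    apply hF ν (Module.finrank Λ S)
    rw [h1]
    exact Dvd.dvd.mul_right (dvd_pow_self F hpos) _
  · rintro ⟨c, rfl⟩
    rw [map_mul]
    exact Ideal.mul_mem_right _ _ (Ideal.mem_span_singleton_self _)

end NormGen

end IdealChomp
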